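import Pool.Agent.Q162.SymSet.Pairs

/-!
# Classification of minimal symmetric families
-/

namespace Q162SS

open Finset

/-! ### Monotone members -/

theorem ps_full_iff (o : ℕ) (α : List ℕ) (hα : ∀ a ∈ α, 0 < a) :
    (∀ x, o < x → x < o + α.sum → x ∈ ps o α) ↔ ∀ a ∈ α, a = 1 := by
  induction α generalizing o with
  | nil =>
    simp only [List.sum_nil, add_zero, List.not_mem_nil, false_imp_iff, implies_true, iff_true]
    intro x h1 h2
    omega
  | cons a l ih =>
    have ha : 0 < a := hα a (by simp)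
    have hl : ∀ b ∈ l, 0 < b := fun b hb => hα b (by simp [hb])
    rw [List.sum_cons]
    constructor
    · intro h
      have ha1 : a = 1 := by
        by_contra hcon
        have h1 := h (o + 1) (by omega) (by omega)
        rw [ps_cons, mem_insert] at h1
        rcases h1 with h1 | h1
        · omega
        · have := mem_ps_gt (o + a) l (o + 1) hl h1
          omega
      subst ha1
      have h2 := (ih (o + 1) hl).mp (by
        intro x hx1 hx2
        have h3 := h x (by omega) (by omega)
        rw [ps_cons, mem_insert] at h3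
        rcases h3 with h3 | h3
        · omega
        · exact h3)
      intro b hb
      rcases List.mem_cons.mp hb with rfl | hb
      · rfl
      · exact h2 b hb
    · intro h x hx1 hx2
      have ha1 : a = 1 := h a (by simp)
      subst ha1
      rw [ps_cons, mem_insert]
      by_cases hx : x = o + 1
      · exact Or.inl hx
      · right
        exact (ih (o + 1) hl).mpr (fun b hb => h b (by simp [hb])) x (by omega) (by omega)

theorem full_sub_iff (n : ℕ) (α : List ℕ) (hα : ∀ a ∈ α, 0 < a) (hs : α.sum = n) :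
    Icc 1 (n - 1) ⊆ ps 0 α ↔ ∀ a ∈ α, a = 1 := by
  rw [← ps_full_iff 0 α hα]
  constructor
  · intro h x hx1 hx2
    apply h
    rw [mem_Icc]
    omega
  · intro h x hx
    rw [mem_Icc] at hx
    apply h <;> omega

/-- The non-monotone members. -/
def NM {ι : Type*} (n : ℕ) (D : ι → Finset ℕ) : Type _ := {i : ι // D i ≠ ∅ ∧ D i ≠ Icc 1 (n - 1)}

instance {ι : Type*} [Finite ι] (n : ℕ) (D : ι → Finset ℕ) : Finite (NM n D) := by
  unfold NM
  infer_instance

/-- The family of non-monotone members. -/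
def DN {ι : Type*} (n : ℕ) (D : ι → Finset ℕ) (i : NM n D) : Finset ℕ := D i.1

theorem symData_DN {ι : Type*} [Finite ι] (n : ℕ) (D : ι → Finset ℕ) (h : SymData n D) :
    SymData n (DN n D) := by
  intro α β hα hs hp
  have hβ : ∀ b ∈ β, 0 < b := fun b hb => hα b (hp.mem_iff.mpr hb)
  have hsβ : β.sum = n := by rw [← hp.sum_eq, hs]
  have h1 := h α β hα hs hp
  have e1 := card_split (fun i => D i ≠ ∅ ∧ D i ≠ Icc 1 (n - 1)) (fun i => D i ⊆ ps 0 α)
  have e2 := card_split (fun i => D i ≠ ∅ ∧ D i ≠ Icc 1 (n - 1)) (fun i => D i ⊆ ps 0 β)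
  have e3 : Nat.card {i // ¬ (D i ≠ ∅ ∧ D i ≠ Icc 1 (n - 1)) ∧ D i ⊆ ps 0 α} =
      Nat.card {i // ¬ (D i ≠ ∅ ∧ D i ≠ Icc 1 (n - 1)) ∧ D i ⊆ ps 0 β} := by
    apply Nat.card_congr
    apply Equiv.subtypeEquivRight
    intro i
    have hfull : Icc 1 (n - 1) ⊆ ps 0 α ↔ Icc 1 (n - 1) ⊆ ps 0 β := by
      rw [full_sub_iff n α hα hs, full_sub_iff n β hβ hsβ]
      constructor
      · intro g b hb
        exact g b (hp.mem_iff.mpr hb)
      · intro g b hb
        exact g b (hp.mem_iff.mp hb)
    constructor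
    · rintro ⟨g1, g2⟩
      refine ⟨g1, ?_⟩
      by_cases g3 : D i = ∅
      · rw [g3]
        exact Finset.empty_subset _
      · have g4 : D i = Icc 1 (n - 1) := by
          by_contra g5
          exact g1 ⟨g3, g5⟩
        rw [g4] at g2 ⊢
        exact hfull.mp g2
    · rintro ⟨g1, g2⟩
      refine ⟨g1, ?_⟩
      by_cases g3 : D i = ∅
      · rw [g3]
        exact Finset.empty_subset _
      · have g4 : D i = Icc 1 (n - 1) := by
          by_contra g5
          exact g1 ⟨g3, g5⟩
        rw [g4] at g2 ⊢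
        exact hfull.mpr g2
  have c1 : cnt (DN n D) α = Nat.card {i // (D i ≠ ∅ ∧ D i ≠ Icc 1 (n - 1)) ∧ D i ⊆ ps 0 α} :=
    card_subtype_and (fun i => D i ≠ ∅ ∧ D i ≠ Icc 1 (n - 1)) (fun i => D i ⊆ ps 0 α)
  have c2 : cnt (DN n D) β = Nat.card {i // (D i ≠ ∅ ∧ D i ≠ Icc 1 (n - 1)) ∧ D i ⊆ ps 0 β} :=
    card_subtype_and (fun i => D i ≠ ∅ ∧ D i ≠ Icc 1 (n - 1)) (fun i => D i ⊆ ps 0 β)
  unfold cnt at h1
  omega

/-! ### Families with only monotone members -/

theorem sub_single (m : ℕ) (E : Finset ℕ) (hE : E ⊆ Icc 1 (m - 1)) : E ⊆ ps 0 [m] ↔ E = ∅ := by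
  rw [ps_cons, ps_nil, zero_add]
  constructor
  · intro h
    rw [Finset.eq_empty_iff_forall_notMem]
    intro x hx
    have h1 := h hx
    have h2 := hE hx
    rw [mem_Icc] at h2
    simp only [mem_insert, Finset.notMem_empty, or_false] at h1
    omega
  · intro h
    rw [h]
    exact Finset.empty_subset _

theorem imp_of_card {ι : Type*} [Finite ι] (p q : ι → Prop) (h : ∀ i, p i → q i)
    (hc : Nat.card {i // q i} = Nat.card {i // p i}) (i : ι) (hi : q i) : p i := by
  by_contra hcon
  have h1 := card_split p q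
  have h2 : Nat.card {i // p i ∧ q i} = Nat.card {i // p i} := by
    apply Nat.card_congr
    apply Equiv.subtypeEquivRight
    intro i
    exact ⟨fun g => g.1, fun g => ⟨g, h i g⟩⟩
  have h3 : Nat.card {i // ¬ p i ∧ q i} = 0 := by omega
  exact not_of_card_zero _ h3 i ⟨hcon, hi⟩

theorem mono_iff {κ : Type*} [Finite κ] (m : ℕ) (G : κ → Finset ℕ) (hG : InRange m G) :
    (∀ i, G i = ∅ ∨ G i = Icc 1 (m - 1)) ↔
      ∀ x, 1 ≤ x → x ≤ m - 1 → cnt G (L1 m x) = cnt G [m] := by
  have e1 : ∀ x, 1 ≤ x → x ≤ m - 1 → cnt G (L1 m x) = Nat.card {i // ¬ x ∈ G i} := by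
    intro x h1 h2
    unfold cnt
    apply Nat.card_congr
    apply Equiv.subtypeEquivRight
    intro i
    exact sub_L1 m x h1 h2 (G i) (hG i)
  have e2 : cnt G [m] = Nat.card {i // G i = ∅} := by
    unfold cnt
    apply Nat.card_congr
    apply Equiv.subtypeEquivRight
    intro i
    exact sub_single m (G i) (hG i)
  rw [e2]
  constructor
  · intro h x h1 h2
    rw [e1 x h1 h2]
    apply Nat.card_congr
    apply Equiv.subtypeEquivRight
    intro i
    constructor
    · intro h3
      rcases h i with h4 | h4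
      · exact h4
      · exfalso
        apply h3
        rw [h4, mem_Icc]
        exact ⟨h1, h2⟩
    · intro h3
      rw [h3]
      exact Finset.notMem_empty _
  · intro h i
    by_cases hi : G i = ∅
    · exact Or.inl hi
    · right
      apply Finset.Subset.antisymm (hG i)
      intro x hx
      rw [mem_Icc] at hx
      by_contra hcon
      have h3 := h x hx.1 hx.2
      rw [e1 x hx.1 hx.2] at h3
      exact hi (imp_of_card (fun i => G i = ∅) (fun i => ¬ x ∈ G i)
        (fun i h => by rw [h]; exact Finset.notMem_empty _) h3 i hcon)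

section Mirror

variable {ι : Type*} [Finite ι]

/-- The mirrored family. -/
def DM (n : ℕ) (D : ι → Finset ℕ) (i : ι) : Finset ℕ := mir n (D i)

omit [Finite ι] in
theorem inRange_DM (n : ℕ) (D : ι → Finset ℕ) (hD : InRange n D) : InRange n (DM n D) :=
  fun i => mir_range n (D i) (hD i)

omit [Finite ι] in
theorem mem_DM (n : ℕ) (D : ι → Finset ℕ) (hD : InRange n D) (i : ι) (x : ℕ) :
    x ∈ DM n D i ↔ 1 ≤ x ∧ x ≤ n - 1 ∧ n - x ∈ D i := mem_mir n (D i) (hD i) x

omit [Finite ι] in
theorem symData_DM (n : ℕ) (D : ι → Finset ℕ) (hD : InRange n D) (h : SymData n D) :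
    SymData n (DM n D) := by
  intro α β hα hs hp
  have hβ : ∀ b ∈ β, 0 < b := fun b hb => hα b (hp.mem_iff.mpr hb)
  have hsβ : β.sum = n := by rw [← hp.sum_eq, hs]
  have e1 : cnt (DM n D) α = cnt D α := cnt_mir n D hD h α hα hs
  have e2 : cnt (DM n D) β = cnt D β := cnt_mir n D hD h β hβ hsβ
  rw [e1, e2, h α β hα hs hp]

theorem cnt_DH_DM (n : ℕ) (hn : 2 ≤ n) (D : ι → Finset ℕ) (hD : InRange n D) (h : SymData n D)
    (β : List ℕ) (hβ : ∀ b ∈ β, 0 < b) (hs : β.sum = n - 2) :
    cnt (DH (DM n D)) β = cnt (DH D) β := by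
  rw [cnt_DH n _ (inRange_DM n D hD) β hβ, cnt_DH n D hD β hβ]
  apply cnt_mir n D hD h
  · intro a ha
    rcases List.mem_cons.mp ha with rfl | h'
    · norm_num
    · exact hβ a h'
  · rw [List.sum_cons, hs]
    omega

theorem cnt_DE_DM (n : ℕ) (hn : 2 ≤ n) (D : ι → Finset ℕ) (hD : InRange n D) (h : SymData n D)
    (β : List ℕ) (hβ : ∀ b ∈ β, 0 < b) (hs : β.sum = n - 2) :
    cnt (DE (DM n D)) β = cnt (DE D) β := by
  have e1 := cnt_DE n _ (inRange_DM n D hD) β hβ
  have e2 := cnt_DE n D hD β hβ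
  have e3 : cnt (DM n D) (2 :: β) = cnt D (2 :: β) := by
    apply cnt_mir n D hD h
    · intro a ha
      rcases List.mem_cons.mp ha with rfl | h'
      · norm_num
      · exact hβ a h'
    · rw [List.sum_cons, hs]
      omega
  have e4 : cnt (DM n D) (1 :: 1 :: β) = cnt D (1 :: 1 :: β) := by
    apply cnt_mir n D hD h
    · intro a ha
      rcases List.mem_cons.mp ha with rfl | h'
      · norm_num
      · rcases List.mem_cons.mp h' with rfl | h''
        · norm_num
        · exact hβ a h''
    · rw [List.sum_cons, List.sum_cons, hs]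
      omega
  omega

end Mirror

/-- If the `e`-derived family is monotone, no member contains both `1` and `n-1`. -/
theorem caseA {ι : Type*} [Finite ι] (n : ℕ) (hn : 5 ≤ n) (D : ι → Finset ℕ) (hD : InRange n D)
    (h : SymData n D) (hfull : ∀ i, D i ≠ Icc 1 (n - 1))
    (hmono : ∀ i, DE D i = ∅ ∨ DE D i = Icc 1 (n - 2 - 1)) :
    Nat.card {i // 1 ∈ D i ∧ n - 1 ∈ D i} = 0 := by
  have hmono' : ∀ i, DE (DM n D) i = ∅ ∨ DE (DM n D) i = Icc 1 (n - 2 - 1) := by
    rw [mono_iff (n - 2) _ (inRange_DE n _ (inRange_DM n D hD))]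
    intro x h1 h2
    rw [cnt_DE_DM n (by omega) D hD h _ (L1_pos _ _) (L1_sum _ _ h1 h2),
      cnt_DE_DM n (by omega) D hD h [n - 2] (by intro b hb; simp at hb; omega) (by simp)]
    exact (mono_iff (n - 2) _ (inRange_DE n D hD)).mp hmono x h1 h2
  have : IsEmpty {i // 1 ∈ D i ∧ n - 1 ∈ D i} := by
    constructor
    rintro ⟨i, h1, h2⟩
    apply hfull i
    apply Finset.Subset.antisymm (hD i)
    have g1 : DE D ⟨i, h1⟩ = Icc 1 (n - 2 - 1) := by
      rcases hmono ⟨i, h1⟩ with g | g
      · exfalso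
        have : n - 3 ∈ DE D ⟨i, h1⟩ := by
          unfold DE
          rw [mem_sh]
          refine ⟨by omega, ?_⟩
          rw [show n - 3 + 2 = n - 1 by omega]
          exact h2
        rw [g] at this
        exact absurd this (Finset.notMem_empty _)
      · exact g
    have h1' : 1 ∈ DM n D i := by
      rw [mem_DM n D hD]
      exact ⟨le_rfl, by omega, h2⟩
    have h2' : n - 1 ∈ DM n D i := by
      rw [mem_DM n D hD]
      exact ⟨by omega, le_rfl, by rw [show n - (n - 1) = 1 by omega]; exact h1⟩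
    have g2 : DE (DM n D) ⟨i, h1'⟩ = Icc 1 (n - 2 - 1) := by
      rcases hmono' ⟨i, h1'⟩ with g | g
      · exfalso
        have : n - 3 ∈ DE (DM n D) ⟨i, h1'⟩ := by
          unfold DE
          rw [mem_sh]
          refine ⟨by omega, ?_⟩
          rw [show n - 3 + 2 = n - 1 by omega]
          exact h2'
        rw [g] at this
        exact absurd this (Finset.notMem_empty _)
      · exact g
    intro x hx
    rw [mem_Icc] at hx
    by_cases hx3 : 3 ≤ x
    · have : x - 2 ∈ DE D ⟨i, h1⟩ := by
        rw [g1, mem_Icc]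
        omega
      unfold DE at this
      rw [mem_sh, Nat.sub_add_cancel (by omega)] at this
      exact this.2
    · have : n - x - 2 ∈ DE (DM n D) ⟨i, h1'⟩ := by
        rw [g2, mem_Icc]
        omega
      unfold DE at this
      rw [mem_sh, Nat.sub_add_cancel (by omega), mem_DM n D hD] at this
      have h3 := this.2.2.2
      rw [show n - (n - x) = x by omega] at h3
      exact h3
  exact Nat.card_of_isEmpty

/-- If the `h`-derived family is monotone, no member misses both `1` and `n-1`. -/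
theorem caseB {ι : Type*} [Finite ι] (n : ℕ) (hn : 5 ≤ n) (D : ι → Finset ℕ) (hD : InRange n D)
    (h : SymData n D) (hne : ∀ i, D i ≠ ∅)
    (hmono : ∀ i, DH D i = ∅ ∨ DH D i = Icc 1 (n - 2 - 1)) :
    Nat.card {i // ¬ 1 ∈ D i ∧ ¬ n - 1 ∈ D i} = 0 := by
  have hmono' : ∀ i, DH (DM n D) i = ∅ ∨ DH (DM n D) i = Icc 1 (n - 2 - 1) := by
    rw [mono_iff (n - 2) _ (inRange_DH n _ (inRange_DM n D hD))]
    intro x h1 h2
    rw [cnt_DH_DM n (by omega) D hD h _ (L1_pos _ _) (L1_sum _ _ h1 h2),
      cnt_DH_DM n (by omega) D hD h [n - 2] (by intro b hb; simp at hb; omega) (by simp)]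
    exact (mono_iff (n - 2) _ (inRange_DH n D hD)).mp hmono x h1 h2
  have : IsEmpty {i // ¬ 1 ∈ D i ∧ ¬ n - 1 ∈ D i} := by
    constructor
    rintro ⟨i, h1, h2⟩
    apply hne i
    have g1 : DH D ⟨i, h1⟩ = ∅ := by
      rcases hmono ⟨i, h1⟩ with g | g
      · exact g
      · exfalso
        have : n - 3 ∈ DH D ⟨i, h1⟩ := by
          rw [g, mem_Icc]
          omega
        unfold DH at this
        rw [mem_sh, show n - 3 + 2 = n - 1 by omega] at this
        exact h2 this.2
    have h1' : ¬ 1 ∈ DM n D i := by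
      rw [mem_DM n D hD]
      exact fun g => h2 g.2.2
    have h2' : ¬ n - 1 ∈ DM n D i := by
      rw [mem_DM n D hD]
      intro g
      have := g.2.2
      rw [show n - (n - 1) = 1 by omega] at this
      exact h1 this
    have g2 : DH (DM n D) ⟨i, h1'⟩ = ∅ := by
      rcases hmono' ⟨i, h1'⟩ with g | g
      · exact g
      · exfalso
        have : n - 3 ∈ DH (DM n D) ⟨i, h1'⟩ := by
          rw [g, mem_Icc]
          omega
        unfold DH at this
        rw [mem_sh, show n - 3 + 2 = n - 1 by omega] at this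
        exact h2' this.2
    rw [Finset.eq_empty_iff_forall_notMem]
    intro x hx
    have hx' := hD i hx
    rw [mem_Icc] at hx'
    by_cases hx3 : 3 ≤ x
    · have : x - 2 ∈ DH D ⟨i, h1⟩ := by
        unfold DH
        rw [mem_sh]
        refine ⟨by omega, ?_⟩
        rw [Nat.sub_add_cancel (by omega)]
        exact hx
      rw [g1] at this
      exact absurd this (Finset.notMem_empty _)
    · have : n - x - 2 ∈ DH (DM n D) ⟨i, h1'⟩ := by
        unfold DH
        rw [mem_sh]
        refine ⟨by omega, ?_⟩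
        rw [Nat.sub_add_cancel (by omega), mem_DM n D hD]
        refine ⟨by omega, by omega, ?_⟩
        rw [show n - (n - x) = x by omega]
        exact hx
      rw [g2] at this
      exact absurd this (Finset.notMem_empty _)
  exact Nat.card_of_isEmpty

end Q162SS
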