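import Pool.Agent.Q162.SymSet.Cases

/-!
# The classification theorem for minimal symmetric families
-/

namespace Q162SS

open Finset

/-- The family takes every value in `𝓔` exactly once and no other value. -/
def Exact {ι : Type*} (A : ι → Finset ℕ) (𝓔 : Finset (Finset ℕ)) : Prop :=
  Function.Injective A ∧ ∀ E, (∃ i, A i = E) ↔ E ∈ 𝓔

/-- All one-element subsets of `{1, …, n-1}`. -/
def singles (n : ℕ) : Finset (Finset ℕ) := (Icc 1 (n - 1)).image (fun x => {x})

/-- All complements of one-element subsets of `{1, …, n-1}`. -/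
def cosingles (n : ℕ) : Finset (Finset ℕ) := (Icc 1 (n - 1)).image (fun x => co n {x})

/-- The descent sets of the standard tableaux of shape `(3,3)`. -/
def E33 : Finset (Finset ℕ) := {{3}, {2, 4}, {2, 5}, {1, 4}, {1, 3, 5}}

/-- The descent sets of the standard tableaux of shape `(2,2,2)`. -/
def E222 : Finset (Finset ℕ) := {{1, 2, 4, 5}, {1, 3, 5}, {1, 3, 4}, {2, 3, 5}, {2, 4}}

section Lemmas

variable {ι : Type*} [Finite ι]

theorem exu_of_card_one (p : ι → Prop) (h : Nat.card {i // p i} = 1) :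
    ∃ i, p i ∧ ∀ j, p j → j = i := by
  rw [Nat.card_eq_one_iff_exists] at h
  obtain ⟨⟨i, hi⟩, h2⟩ := h
  exact ⟨i, hi, fun j hj => congrArg Subtype.val (h2 ⟨j, hj⟩)⟩

omit [Finite ι] in
theorem card_one_of_exu (p : ι → Prop) (i : ι) (hi : p i) (h : ∀ j, p j → j = i) :
    Nat.card {i // p i} = 1 := by
  rw [Nat.card_eq_one_iff_exists]
  exact ⟨⟨i, hi⟩, fun j => Subtype.ext (h j.1 j.2)⟩

theorem card_zero_of_not (p : ι → Prop) (h : ∀ i, ¬ p i) : Nat.card {i // p i} = 0 := by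
  have : IsEmpty {i // p i} := ⟨fun i => h i.1 i.2⟩
  exact Nat.card_of_isEmpty

theorem exact_singles (n : ℕ) (A : ι → Finset ℕ) (hc : Nat.card ι = n - 1)
    (h : ∀ x, 1 ≤ x → x ≤ n - 1 → Nat.card {i // A i = {x}} = 1) : Exact A (singles n) := by
  classical
  have h1 : ∀ x : {x // x ∈ Icc 1 (n - 1)}, ∃ i, A i = {x.1} ∧ ∀ j, A j = {x.1} → j = i := by
    rintro ⟨x, hx⟩
    rw [mem_Icc] at hx
    exact exu_of_card_one _ (h x hx.1 hx.2)
  choose F hF1 hF2 using h1
  have hinj : Function.Injective F := by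
    intro x y e
    have h3 := hF1 x
    rw [e, hF1 y] at h3
    apply Subtype.ext
    exact (Finset.singleton_injective h3).symm
  have hcard : Nat.card {x // x ∈ Icc 1 (n - 1)} = Nat.card ι := by
    rw [hc, Nat.card_eq_fintype_card, Fintype.card_coe, Nat.card_Icc]
    omega
  have hbij : Function.Bijective F := by
    rw [Nat.bijective_iff_injective_and_card]
    exact ⟨hinj, hcard⟩
  constructor
  · intro i j e
    obtain ⟨x, rfl⟩ := hbij.2 i
    exact (hF2 x j (by rw [← e]; exact hF1 x)).symm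
  · intro E
    unfold singles
    rw [mem_image]
    constructor
    · rintro ⟨i, rfl⟩
      obtain ⟨x, rfl⟩ := hbij.2 i
      exact ⟨x.1, x.2, (hF1 x).symm⟩
    · rintro ⟨x, hx, rfl⟩
      exact ⟨F ⟨x, hx⟩, hF1 ⟨x, hx⟩⟩

/-- If every element is in exactly one member and there are `n-1` nonempty members. -/
theorem exact_of_one (n : ℕ) (A : ι → Finset ℕ) (hA : InRange n A) (hne : ∀ i, A i ≠ ∅)
    (hc : Nat.card ι = n - 1) (h : ∀ x, 1 ≤ x → x ≤ n - 1 → Nat.card {i // x ∈ A i} = 1) :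
    Exact A (singles n) := by
  classical
  have := Fintype.ofFinite ι
  have hsum1 : ∑ i, (A i).card = n - 1 := by
    have h1 : ∀ i, (A i).card = ∑ x ∈ Icc 1 (n - 1), if x ∈ A i then 1 else 0 := by
      intro i
      rw [Finset.sum_ite_mem, Finset.sum_const, smul_eq_mul, mul_one,
        Finset.inter_eq_right.mpr (hA i)]
    simp only [h1]
    rw [Finset.sum_comm]
    have h2 : ∀ x ∈ Icc 1 (n - 1), ∑ i : ι, (if x ∈ A i then 1 else 0) = 1 := by
      intro x hx
      rw [mem_Icc] at hx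
      rw [← Finset.card_filter, ← h x hx.1 hx.2, Nat.card_eq_fintype_card,
        Fintype.card_subtype]
    rw [Finset.sum_congr rfl h2, Finset.sum_const, smul_eq_mul, Nat.card_Icc]
    omega
  have hge : ∀ i ∈ (univ : Finset ι), 1 ≤ (A i).card := fun i _ =>
    Finset.card_pos.mpr (Finset.nonempty_iff_ne_empty.mpr (hne i))
  have hone : ∀ i, (A i).card = 1 := by
    have h3 : ∑ i : ι, 1 = ∑ i, (A i).card := by
      rw [hsum1, Finset.sum_const, smul_eq_mul, mul_one, Finset.card_univ,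
        ← Nat.card_eq_fintype_card, hc]
    have h4 := (Finset.sum_eq_sum_iff_of_le hge).mp h3
    intro i
    exact (h4 i (mem_univ i)).symm
  apply exact_singles n A hc
  intro x hx1 hx2
  rw [← h x hx1 hx2]
  apply Nat.card_congr
  apply Equiv.subtypeEquivRight
  intro i
  constructor
  · intro e
    rw [e]
    simp
  · intro e
    obtain ⟨y, hy⟩ := Finset.card_eq_one.mp (hone i)
    rw [hy, mem_singleton] at e
    rw [hy, e]

omit [Finite ι] in
theorem co_co (n : ℕ) (E : Finset ℕ) (hE : E ⊆ Icc 1 (n - 1)) : co n (co n E) = E := by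
  unfold co
  rw [Finset.sdiff_sdiff_eq_self hE]

omit [Finite ι] in
theorem exact_co (n : ℕ) (D : ι → Finset ℕ) (hD : InRange n D) (𝓔 : Finset (Finset ℕ))
    (h𝓔 : ∀ E ∈ 𝓔, E ⊆ Icc 1 (n - 1)) (h : Exact (fun i => co n (D i)) 𝓔) :
    Exact D (𝓔.image (co n)) := by
  constructor
  · intro i j e
    apply h.1
    simp only [e]
  · intro E
    rw [mem_image]
    constructor
    · rintro ⟨i, rfl⟩
      exact ⟨co n (D i), (h.2 _).mp ⟨i, rfl⟩, co_co n _ (hD i)⟩
    · rintro ⟨E', hE', rfl⟩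
      obtain ⟨i, hi⟩ := (h.2 E').mpr hE'
      refine ⟨i, ?_⟩
      rw [← hi, co_co n _ (hD i)]

omit [Finite ι] in
theorem inRange_co (n : ℕ) (D : ι → Finset ℕ) : InRange n (fun i => co n (D i)) :=
  fun i => Finset.sdiff_subset

omit [Finite ι] in
theorem co_ne_empty (n : ℕ) (E : Finset ℕ) (hE : E ⊆ Icc 1 (n - 1)) (h : E ≠ Icc 1 (n - 1)) :
    co n E ≠ ∅ := by
  intro e
  apply h
  have := co_co n E hE
  rw [e] at this
  rw [← this]
  unfold co
  simp

/-- Conclusion from case A. -/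
theorem concl (n : ℕ) (hn : 4 ≤ n) (A : ι → Finset ℕ) (hA : InRange n A) (hne : ∀ i, A i ≠ ∅)
    (d e' e : ℕ) (h : PairData n A d e' e) (hzero : Nat.card {i // 1 ∈ A i ∧ n - 1 ∈ A i} = 0)
    (hpos : 0 < Nat.card ι) (hle : Nat.card ι ≤ n - 1) :
    Nat.card ι = n - 1 ∧ Exact A (singles n) := by
  have he : e = 0 := by
    rw [← h.non 1 (n - 1) le_rfl (by omega) le_rfl, hzero]
  rw [he] at h
  obtain ⟨h1, h2⟩ := extremal n hn A hA hne d e' h hpos hle
  exact ⟨h1, exact_singles n A h1 h2⟩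

end Lemmas

/-! ### Degree four, two members -/

theorem four {κ : Type*} [Finite κ] (G : κ → Finset ℕ) (hG : InRange 4 G) (h : SymData 4 G)
    (hnm : ¬ ∀ i, G i = ∅ ∨ G i = Icc 1 3) (hc : Nat.card κ = 2) :
    ∃ a b, a ≠ b ∧ (∀ i, i = a ∨ i = b) ∧ (1 ∉ G a ∧ 2 ∈ G a ∧ 3 ∉ G a) ∧
      (1 ∈ G b ∧ 2 ∉ G b ∧ 3 ∈ G b) := by
  classical
  have hfin := Fintype.ofFinite κ
  have hcard : Fintype.card κ = 2 := by rw [← Nat.card_eq_fintype_card, hc]
  obtain ⟨a, b, hab, huniv⟩ := Finset.card_eq_two.mp (show (univ : Finset κ).card = 2 by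
    rw [Finset.card_univ, hcard])
  have hall : ∀ i : κ, i = a ∨ i = b := by
    intro i
    have := mem_univ i
    rw [huniv, mem_insert, mem_singleton] at this
    exact this
  have hcount : ∀ p : κ → Prop, Nat.card {i // p i} = (if p a then 1 else 0) + (if p b then 1 else 0) := by
    intro p
    rw [Nat.card_eq_fintype_card, Fintype.card_subtype, Finset.card_filter, huniv,
      Finset.sum_pair hab]
  obtain ⟨d, e', e, hp, _⟩ := pair_of_co 4 G _ _ _ (pair_co 4 G hG h) le_rfl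
  have h1 := hp.one 1 le_rfl (by norm_num)
  have h2 := hp.one 2 (by norm_num) (by norm_num)
  have h3 := hp.one 3 (by norm_num) (by norm_num)
  have h12 := hp.adj 1 le_rfl (by norm_num)
  have h23 := hp.adj 2 (by norm_num) (by norm_num)
  rw [hcount] at h1 h2 h3 h12 h23
  have hsub : ∀ i x, x ∈ G i → x = 1 ∨ x = 2 ∨ x = 3 := by
    intro i x hx
    have := hG i hx
    rw [mem_Icc] at this
    omega
  have hempty : ∀ i, (1 ∉ G i ∧ 2 ∉ G i ∧ 3 ∉ G i) → G i = ∅ := by
    rintro i ⟨g1, g2, g3⟩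
    rw [Finset.eq_empty_iff_forall_notMem]
    intro x hx
    rcases hsub i x hx with rfl | rfl | rfl
    · exact g1 hx
    · exact g2 hx
    · exact g3 hx
  have hfull : ∀ i, (1 ∈ G i ∧ 2 ∈ G i ∧ 3 ∈ G i) → G i = Icc 1 3 := by
    rintro i ⟨g1, g2, g3⟩
    apply Finset.Subset.antisymm (hG i)
    intro x hx
    rw [mem_Icc] at hx
    obtain ⟨hx1, hx2⟩ := hx
    interval_cases x
    · exact g1
    · exact g2
    · exact g3
  have hkey : ¬ (((1 ∉ G a ∧ 2 ∉ G a ∧ 3 ∉ G a) ∨ (1 ∈ G a ∧ 2 ∈ G a ∧ 3 ∈ G a)) ∧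
      ((1 ∉ G b ∧ 2 ∉ G b ∧ 3 ∉ G b) ∨ (1 ∈ G b ∧ 2 ∈ G b ∧ 3 ∈ G b))) := by
    rintro ⟨ga, gb⟩
    apply hnm
    intro i
    rcases hall i with rfl | rfl
    · rcases ga with g | g
      · exact Or.inl (hempty _ g)
      · exact Or.inr (hfull _ g)
    · rcases gb with g | g
      · exact Or.inl (hempty _ g)
      · exact Or.inr (hfull _ g)
  norm_num at h12 h23
  by_cases a1 : 1 ∈ G a <;> by_cases a2 : 2 ∈ G a <;> by_cases a3 : 3 ∈ G a <;>
    by_cases b1 : 1 ∈ G b <;> by_cases b2 : 2 ∈ G b <;> by_cases b3 : 3 ∈ G b <;>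
    simp only [a1, a2, a3, b1, b2, b3, if_true, if_false, and_true, and_false, and_self,
      not_true_eq_false, not_false_eq_true, true_and, false_and, true_or, or_true, or_false,
      false_or] at h1 h2 h3 h12 h23 hkey <;>
    first
    | (exfalso; omega)
    | exact ⟨a, b, hab, hall, ⟨a1, a2, a3⟩, ⟨b1, b2, b3⟩⟩
    | exact ⟨b, a, hab.symm, fun i => (hall i).symm, ⟨b1, b2, b3⟩, ⟨a1, a2, a3⟩⟩

end Q162SS
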