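import Mathlib.Data.Finset.Card
import Mathlib.Data.Finset.Interval
import Mathlib.Order.Interval.Finset.Nat
import Mathlib.Data.List.Perm.Basic
import Mathlib.Data.Fintype.Card
import Mathlib.Algebra.BigOperators.Group.List.Basic
import Mathlib.Tactic

/-!
# Families of descent sets with symmetric counting function
-/

namespace Q162SS

open Finset

/-- Partial sums (including the total) of a list, shifted by `o`. -/
def ps : ℕ → List ℕ → Finset ℕ
  | _, [] => ∅
  | o, a :: l => insert (o + a) (ps (o + a) l)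

theorem ps_nil (o : ℕ) : ps o [] = ∅ := rfl

theorem ps_cons (o a : ℕ) (l : List ℕ) : ps o (a :: l) = insert (o + a) (ps (o + a) l) := rfl

theorem ps_append (o : ℕ) (l l' : List ℕ) : ps o (l ++ l') = ps o l ∪ ps (o + l.sum) l' := by
  induction l generalizing o with
  | nil => simp [ps_nil]
  | cons a l ih =>
    rw [List.cons_append, ps_cons, ps_cons, ih, List.sum_cons, Finset.insert_union, add_assoc]

theorem mem_ps_shift (o o' : ℕ) (l : List ℕ) (x : ℕ) : x + o' ∈ ps (o + o') l ↔ x ∈ ps o l := by
  induction l generalizing o with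
  | nil => simp [ps_nil]
  | cons a l ih =>
    rw [ps_cons, ps_cons, mem_insert, mem_insert]
    have h := ih (o + a)
    rw [show o + o' + a = o + a + o' by ring, h]
    constructor
    · rintro (h | h)
      · left
        omega
      · exact Or.inr h
    · rintro (h | h)
      · left
        omega
      · exact Or.inr h

/-- Partial sums of a list of ones. -/
theorem mem_ps_ones (o k x : ℕ) : x ∈ ps o (List.replicate k 1) ↔ o < x ∧ x ≤ o + k := by
  induction k generalizing o with
  | zero =>
    simp only [List.replicate_zero, ps_nil, Finset.notMem_empty, false_iff]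
    omega
  | succ k ih =>
    rw [List.replicate_succ, ps_cons, mem_insert, ih]
    omega

theorem mem_ps_gt (o : ℕ) (l : List ℕ) (x : ℕ) (hl : ∀ a ∈ l, 0 < a) (h : x ∈ ps o l) :
    o < x ∧ x ≤ o + l.sum := by
  induction l generalizing o with
  | nil => simp [ps_nil] at h
  | cons a l ih =>
    rw [ps_cons, mem_insert] at h
    have ha : 0 < a := hl a (by simp)
    rw [List.sum_cons]
    rcases h with h | h
    · omega
    · have := ih (o + a) (fun b hb => hl b (by simp [hb])) h
      omega

theorem sum_mem_ps (o : ℕ) (l : List ℕ) (hl : l ≠ []) : o + l.sum ∈ ps o l := by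
  induction l generalizing o with
  | nil => exact absurd rfl hl
  | cons a l ih =>
    rw [ps_cons, mem_insert, List.sum_cons]
    by_cases h : l = []
    · left
      rw [h]
      simp
    · right
      rw [← add_assoc]
      exact ih (o + a) h

/-- Partial sums of the reversed list. -/
theorem mem_ps_reverse (l : List ℕ) (x : ℕ) (hx : 1 ≤ x) (hx2 : x < l.sum)
    (hl : ∀ a ∈ l, 0 < a) : x ∈ ps 0 l.reverse ↔ l.sum - x ∈ ps 0 l := by
  induction l generalizing x with
  | nil => simp at hx2
  | cons a l ih =>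
    have ha : 0 < a := hl a (by simp)
    have hl' : ∀ b ∈ l, 0 < b := fun b hb => hl b (by simp [hb])
    rw [List.reverse_cons, ps_append, mem_union, List.sum_reverse, zero_add, ps_cons, ps_cons,
      ps_nil, mem_insert, zero_add, mem_insert, List.sum_cons]
    rw [List.sum_cons] at hx2
    have hshift : a + l.sum - x ∈ ps a l ↔ (a < a + l.sum - x ∧ l.sum - x ∈ ps 0 l) := by
      constructor
      · intro h
        have h1 := mem_ps_gt a l _ hl' h
        refine ⟨h1.1, ?_⟩
        have e : a + l.sum - x = (l.sum - x) + a := by omega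
        rw [e] at h
        have := (mem_ps_shift 0 a l (l.sum - x)).mp (by rw [zero_add]; exact h)
        exact this
      · rintro ⟨h1, h2⟩
        have e : a + l.sum - x = (l.sum - x) + a := by omega
        rw [e]
        have := (mem_ps_shift 0 a l (l.sum - x)).mpr h2
        rw [zero_add] at this
        exact this
    rw [hshift]
    constructor
    · rintro (h | h | h)
      · have h1 := mem_ps_gt 0 l.reverse x (fun b hb => hl' b (by simpa using hb)) h
        rw [List.sum_reverse, zero_add] at h1
        rcases Nat.lt_or_ge x l.sum with h2 | h2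
        · exact Or.inr ⟨by omega, (ih x hx h2 hl').mp h⟩
        · left
          omega
      · left
        omega
      · simp at h
    · rintro (h | ⟨h, h2⟩)
      · left
        have hxl : x = l.sum := by omega
        have hne : l.reverse ≠ [] := by
          intro e
          rw [List.reverse_eq_nil_iff] at e
          rw [e] at hxl
          simp at hxl
          omega
        have := sum_mem_ps 0 l.reverse hne
        rw [List.sum_reverse, zero_add] at this
        rw [hxl]
        exact this
      · left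
        exact (ih x hx (by omega) hl').mpr h2

/-! ### Families -/

/-- Number of members of the family contained in the partial sums of `α`. -/
noncomputable def cnt {ι : Type*} (D : ι → Finset ℕ) (α : List ℕ) : ℕ :=
  Nat.card {i : ι // D i ⊆ ps 0 α}

/-- The counting function is invariant under permuting the parts. -/
def SymData {ι : Type*} (n : ℕ) (D : ι → Finset ℕ) : Prop :=
  ∀ α β : List ℕ, (∀ a ∈ α, 0 < a) → α.sum = n → α.Perm β → cnt D α = cnt D β

/-- All members are subsets of `{1, …, n-1}`. -/
def InRange {ι : Type*} (n : ℕ) (D : ι → Finset ℕ) : Prop := ∀ i, D i ⊆ Icc 1 (n - 1)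

/-- Removing `1, 2` and shifting. -/
def sh (E : Finset ℕ) : Finset ℕ := (E.filter (fun x => 3 ≤ x)).image (fun x => x - 2)

theorem mem_sh (E : Finset ℕ) (x : ℕ) : x ∈ sh E ↔ 1 ≤ x ∧ x + 2 ∈ E := by
  unfold sh
  rw [mem_image]
  constructor
  · rintro ⟨y, hy, rfl⟩
    rw [mem_filter] at hy
    refine ⟨by omega, ?_⟩
    rw [Nat.sub_add_cancel (by omega)]
    exact hy.1
  · rintro ⟨h1, h2⟩
    exact ⟨x + 2, mem_filter.mpr ⟨h2, by omega⟩, by omega⟩

theorem sh_range (n : ℕ) (E : Finset ℕ) (h : E ⊆ Icc 1 (n - 1)) : sh E ⊆ Icc 1 (n - 2 - 1) := by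
  intro x hx
  rw [mem_sh] at hx
  have := h hx.2
  rw [mem_Icc] at this ⊢
  omega

theorem mem_ps_two (β : List ℕ) (x : ℕ) : x + 2 ∈ ps 2 β ↔ x ∈ ps 0 β := by
  have := mem_ps_shift 0 2 β x
  rwa [zero_add] at this

theorem sub_two (n : ℕ) (E : Finset ℕ) (h : E ⊆ Icc 1 (n - 1)) (β : List ℕ)
    (hβ : ∀ b ∈ β, 0 < b) : E ⊆ ps 0 (2 :: β) ↔ 1 ∉ E ∧ sh E ⊆ ps 0 β := by
  rw [ps_cons, zero_add]
  constructor
  · intro hE
    constructor
    · intro h1
      have := hE h1
      rw [mem_insert] at this
      rcases this with h2 | h2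
      · omega
      · have := mem_ps_gt 2 β 1 hβ h2
        omega
    · intro x hx
      rw [mem_sh] at hx
      have := hE hx.2
      rw [mem_insert] at this
      rcases this with h2 | h2
      · omega
      · exact (mem_ps_two β x).mp h2
  · rintro ⟨h1, h2⟩ x hx
    have hx' := h hx
    rw [mem_Icc] at hx'
    rw [mem_insert]
    by_cases h3 : x = 2
    · exact Or.inl h3
    · right
      have h4 : x ≠ 1 := fun e => h1 (e ▸ hx)
      have h5 : x - 2 ∈ sh E := by
        rw [mem_sh]
        refine ⟨by omega, ?_⟩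
        rw [Nat.sub_add_cancel (by omega)]
        exact hx
      have h6 := (mem_ps_two β (x - 2)).mpr (h2 h5)
      rwa [Nat.sub_add_cancel (by omega)] at h6

theorem sub_one_one (n : ℕ) (E : Finset ℕ) (h : E ⊆ Icc 1 (n - 1)) (β : List ℕ) :
    E ⊆ ps 0 (1 :: 1 :: β) ↔ sh E ⊆ ps 0 β := by
  rw [ps_cons, ps_cons, zero_add]
  norm_num
  constructor
  · intro hE x hx
    rw [mem_sh] at hx
    have := hE hx.2
    rw [mem_insert, mem_insert] at this
    rcases this with h2 | h2 | h2
    · omega
    · omega
    · exact (mem_ps_two β x).mp h2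
  · intro h2 x hx
    have hx' := h hx
    rw [mem_Icc] at hx'
    rw [mem_insert, mem_insert]
    by_cases h3 : x ≤ 2
    · omega
    · right
      right
      have h5 : x - 2 ∈ sh E := by
        rw [mem_sh]
        refine ⟨by omega, ?_⟩
        rw [Nat.sub_add_cancel (by omega)]
        exact hx
      have h6 := (mem_ps_two β (x - 2)).mpr (h2 h5)
      rwa [Nat.sub_add_cancel (by omega)] at h6

theorem card_subtype_and {ι : Type*} [Finite ι] (p q : ι → Prop) :
    Nat.card {i : {i : ι // p i} // q i.1} = Nat.card {i : ι // p i ∧ q i} :=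
  Nat.card_congr (Equiv.subtypeSubtypeEquivSubtypeInter p q)

theorem card_split {ι : Type*} [Finite ι] (p q : ι → Prop) :
    Nat.card {i : ι // q i} = Nat.card {i : ι // p i ∧ q i} + Nat.card {i : ι // ¬ p i ∧ q i} := by
  classical
  have := Fintype.ofFinite ι
  rw [Nat.card_eq_fintype_card, Nat.card_eq_fintype_card, Nat.card_eq_fintype_card,
    Fintype.card_subtype, Fintype.card_subtype, Fintype.card_subtype]
  rw [← Finset.card_filter_add_card_filter_not (s := univ.filter (fun i => q i)) (fun i => p i),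
    Finset.filter_filter, Finset.filter_filter]
  congr 2
  · ext i
    simp only [mem_filter, mem_univ, true_and]
    tauto
  · ext i
    simp only [mem_filter, mem_univ, true_and]
    tauto

/-- The derived family of the members not containing `1` (skewing by `h₂`). -/
def DH {ι : Type*} (D : ι → Finset ℕ) (i : {i : ι // ¬ 1 ∈ D i}) : Finset ℕ := sh (D i.1)

/-- The derived family of the members containing `1` (skewing by `e₂`). -/
def DE {ι : Type*} (D : ι → Finset ℕ) (i : {i : ι // 1 ∈ D i}) : Finset ℕ := sh (D i.1)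

theorem cnt_DH {ι : Type*} [Finite ι] (n : ℕ) (D : ι → Finset ℕ) (hD : InRange n D)
    (β : List ℕ) (hβ : ∀ b ∈ β, 0 < b) : cnt (DH D) β = cnt D (2 :: β) := by
  unfold cnt DH
  rw [card_subtype_and (fun i => ¬ 1 ∈ D i) (fun i => sh (D i) ⊆ ps 0 β)]
  apply Nat.card_congr
  apply Equiv.subtypeEquivRight
  intro i
  exact (sub_two n (D i) (hD i) β hβ).symm

theorem cnt_DE {ι : Type*} [Finite ι] (n : ℕ) (D : ι → Finset ℕ) (hD : InRange n D)
    (β : List ℕ) (hβ : ∀ b ∈ β, 0 < b) :
    cnt (DE D) β + cnt D (2 :: β) = cnt D (1 :: 1 :: β) := by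
  rw [← cnt_DH n D hD β hβ]
  unfold cnt DH DE
  rw [card_subtype_and (fun i => ¬ 1 ∈ D i) (fun i => sh (D i) ⊆ ps 0 β),
    card_subtype_and (fun i => 1 ∈ D i) (fun i => sh (D i) ⊆ ps 0 β),
    ← card_split (fun i => 1 ∈ D i) (fun i => sh (D i) ⊆ ps 0 β)]
  apply Nat.card_congr
  apply Equiv.subtypeEquivRight
  intro i
  exact (sub_one_one n (D i) (hD i) β).symm

theorem symData_DH {ι : Type*} [Finite ι] (n : ℕ) (hn : 2 ≤ n) (D : ι → Finset ℕ)
    (hD : InRange n D) (h : SymData n D) : SymData (n - 2) (DH D) := by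
  intro α β hα hs hp
  have hβ : ∀ b ∈ β, 0 < b := fun b hb => hα b (hp.mem_iff.mpr hb)
  rw [cnt_DH n D hD α hα, cnt_DH n D hD β hβ]
  apply h
  · intro a ha
    rcases List.mem_cons.mp ha with rfl | h'
    · norm_num
    · exact hα a h'
  · rw [List.sum_cons, hs]
    omega
  · exact hp.cons 2

theorem symData_DE {ι : Type*} [Finite ι] (n : ℕ) (hn : 2 ≤ n) (D : ι → Finset ℕ)
    (hD : InRange n D) (h : SymData n D) : SymData (n - 2) (DE D) := by
  intro α β hα hs hp
  have hβ : ∀ b ∈ β, 0 < b := fun b hb => hα b (hp.mem_iff.mpr hb)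
  have e1 := cnt_DE n D hD α hα
  have e2 := cnt_DE n D hD β hβ
  have e3 : cnt D (2 :: α) = cnt D (2 :: β) := by
    apply h
    · intro a ha
      rcases List.mem_cons.mp ha with rfl | h'
      · norm_num
      · exact hα a h'
    · rw [List.sum_cons, hs]
      omega
    · exact hp.cons 2
  have e4 : cnt D (1 :: 1 :: α) = cnt D (1 :: 1 :: β) := by
    apply h
    · intro a ha
      rcases List.mem_cons.mp ha with rfl | h'
      · norm_num
      · rcases List.mem_cons.mp h' with rfl | h''
        · norm_num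
        · exact hα a h''
    · rw [List.sum_cons, List.sum_cons, hs]
      omega
    · exact (hp.cons 1).cons 1
  omega

theorem inRange_DH {ι : Type*} (n : ℕ) (D : ι → Finset ℕ) (hD : InRange n D) :
    InRange (n - 2) (DH D) := fun i => sh_range n (D i.1) (hD i.1)

theorem inRange_DE {ι : Type*} (n : ℕ) (D : ι → Finset ℕ) (hD : InRange n D) :
    InRange (n - 2) (DE D) := fun i => sh_range n (D i.1) (hD i.1)

/-! ### Mirror images -/

/-- Mirror image. -/
def mir (n : ℕ) (E : Finset ℕ) : Finset ℕ := E.image (fun x => n - x)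

theorem mem_mir (n : ℕ) (E : Finset ℕ) (h : E ⊆ Icc 1 (n - 1)) (x : ℕ) :
    x ∈ mir n E ↔ 1 ≤ x ∧ x ≤ n - 1 ∧ n - x ∈ E := by
  unfold mir
  rw [mem_image]
  constructor
  · rintro ⟨y, hy, rfl⟩
    have := h hy
    rw [mem_Icc] at this
    refine ⟨by omega, by omega, ?_⟩
    rw [show n - (n - y) = y by omega]
    exact hy
  · rintro ⟨h1, h2, h3⟩
    exact ⟨n - x, h3, by omega⟩

theorem mir_range (n : ℕ) (E : Finset ℕ) (h : E ⊆ Icc 1 (n - 1)) : mir n E ⊆ Icc 1 (n - 1) := by
  intro x hx
  rw [mem_mir n E h] at hx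
  rw [mem_Icc]
  exact ⟨hx.1, hx.2.1⟩

theorem mir_sub (n : ℕ) (E : Finset ℕ) (h : E ⊆ Icc 1 (n - 1)) (α : List ℕ)
    (hα : ∀ a ∈ α, 0 < a) (hs : α.sum = n) : mir n E ⊆ ps 0 α ↔ E ⊆ ps 0 α.reverse := by
  constructor
  · intro hE x hx
    have hx' := h hx
    rw [mem_Icc] at hx'
    rw [mem_ps_reverse α x hx'.1 (by omega) hα, hs]
    apply hE
    rw [mem_mir n E h]
    refine ⟨by omega, by omega, ?_⟩
    rw [show n - (n - x) = x by omega]
    exact hx
  · intro hE x hx
    rw [mem_mir n E h] at hx
    have h1 := hE hx.2.2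
    rw [mem_ps_reverse α (n - x) (by omega) (by omega) hα, hs, show n - (n - x) = x by omega] at h1
    exact h1

theorem cnt_mir {ι : Type*} (n : ℕ) (D : ι → Finset ℕ) (hD : InRange n D)
    (h : SymData n D) (α : List ℕ) (hα : ∀ a ∈ α, 0 < a) (hs : α.sum = n) :
    cnt (fun i => mir n (D i)) α = cnt D α := by
  rw [h α α.reverse hα hs (List.reverse_perm α).symm]
  unfold cnt
  apply Nat.card_congr
  apply Equiv.subtypeEquivRight
  intro i
  exact mir_sub n (D i) (hD i) α hα hs

end Q162SS
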