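import Pool.Agent.Q162.SymSet.Six

/-!
# The classification
-/

namespace Q162SS

open Finset

section

variable {ι : Type*} [Finite ι]

theorem all_of_card (p : ι → Prop) (h : Nat.card {i // p i} = Nat.card ι) (i : ι) : p i := by
  have h1 := compl_count p
  by_contra hcon
  exact not_of_card_zero _ (show Nat.card {i // ¬ p i} = 0 by omega) i hcon

theorem empty_of_zero (n : ℕ) (A : ι → Finset ℕ) (hA : InRange n A)
    (h : ∀ x, 1 ≤ x → x ≤ n - 1 → Nat.card {i // x ∈ A i} = 0) (i : ι) : A i = ∅ := by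
  rw [Finset.eq_empty_iff_forall_notMem]
  intro x hx
  have hx' := hA i hx
  rw [mem_Icc] at hx'
  exact not_of_card_zero _ (h x hx'.1 hx'.2) i hx

theorem full_of_card (n : ℕ) (A : ι → Finset ℕ) (hA : InRange n A)
    (h : ∀ x, 1 ≤ x → x ≤ n - 1 → Nat.card {i // x ∈ A i} = Nat.card ι) (i : ι) :
    A i = Icc 1 (n - 1) := by
  apply Finset.Subset.antisymm (hA i)
  intro x hx
  rw [mem_Icc] at hx
  exact all_of_card (fun i => x ∈ A i) (h x hx.1 hx.2) i

theorem co_eq_empty (n : ℕ) (E : Finset ℕ) (hE : E ⊆ Icc 1 (n - 1)) (h : co n E = ∅) :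
    E = Icc 1 (n - 1) := by
  by_contra hcon
  exact co_ne_empty n E hE hcon h

theorem co_eq_full (n : ℕ) (E : Finset ℕ) (hE : E ⊆ Icc 1 (n - 1)) (h : co n E = Icc 1 (n - 1)) :
    E = ∅ := by
  have := co_co n E hE
  rw [← this, h]
  unfold co
  exact Finset.sdiff_self _

theorem co_ne_full (n : ℕ) (E : Finset ℕ) (hE : E ⊆ Icc 1 (n - 1)) (h : E ≠ ∅) :
    co n E ≠ Icc 1 (n - 1) := fun h' => h (co_eq_full n E hE h')

/-- A symmetric family without monotone members does not have exactly one member. -/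
theorem not_one (n : ℕ) (D : ι → Finset ℕ) (hD : InRange n D) (h : SymData n D)
    (hnm : ∀ i, D i ≠ ∅ ∧ D i ≠ Icc 1 (n - 1)) : Nat.card ι ≠ 1 := by
  intro hc
  have hp := pair_co n D hD h
  generalize cnt D (2 :: List.replicate (n - 2) 1) = d at hp
  obtain ⟨⟨i⟩, _⟩ := (Nat.card_pos_iff (α := ι)).mp (by omega)
  by_cases hn : 1 ≤ n - 1
  · have hle : d ≤ 1 := by
      have h3 := hp.one 1 le_rfl hn
      have := compl_count (fun i => 1 ∈ co n (D i))
      omega
    rcases Nat.lt_or_ge d 1 with h1 | h1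
    · have h2 := empty_of_zero n _ (inRange_co n D) (fun x hx1 hx2 => by
        rw [hp.one x hx1 hx2]; omega) i
      exact (hnm i).2 (co_eq_empty n _ (hD i) h2)
    · have h2 := full_of_card n _ (inRange_co n D) (fun x hx1 hx2 => by
        rw [hp.one x hx1 hx2]; omega) i
      exact (hnm i).1 (co_eq_full n _ (hD i) h2)
  · apply (hnm i).1
    rw [Finset.eq_empty_iff_forall_notMem]
    intro x hx
    have := hD i hx
    rw [mem_Icc] at this
    omega

/-- Few elements: the statistic of complements decides. -/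
theorem small (n : ℕ) (hn : 3 ≤ n) (hn4 : n ≤ 4) (D : ι → Finset ℕ) (hD : InRange n D)
    (h : SymData n D) (hnm : ∀ i, D i ≠ ∅ ∧ D i ≠ Icc 1 (n - 1)) (hc : Nat.card ι = n - 1) :
    Exact D (singles n) ∨ Exact D (cosingles n) := by
  have hp := pair_co n D hD h
  generalize cnt D (2 :: List.replicate (n - 2) 1) = d at hp
  generalize cnt D (3 :: List.replicate (n - 3) 1) = e' at hp
  generalize cnt D (2 :: 2 :: List.replicate (n - 4) 1) = e at hp
  obtain ⟨⟨i⟩, _⟩ := (Nat.card_pos_iff (α := ι)).mp (by omega)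
  have hcne : ∀ i, co n (D i) ≠ ∅ := fun i => co_ne_empty n _ (hD i) (hnm i).2
  have hle : d ≤ n - 1 := by
    rw [← hp.one 1 le_rfl (by omega), ← hc]
    have := compl_count (fun i => 1 ∈ co n (D i))
    omega
  have hd0 : d ≠ 0 := by
    intro h0
    exact hcne i (empty_of_zero n _ (inRange_co n D) (fun x hx1 hx2 => by
        rw [hp.one x hx1 hx2]; omega) i)
  have hdn : d ≠ n - 1 := by
    intro h0
    have h2 := full_of_card n _ (inRange_co n D) (fun x hx1 hx2 => by
        rw [hp.one x hx1 hx2]; omega) i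
    exact (hnm i).1 (co_eq_full n _ (hD i) h2)
  by_cases hd1 : d = 1
  · right
    have h1 := exact_of_one n _ (inRange_co n D) hcne hc (fun x hx1 hx2 => by
      rw [hp.one x hx1 hx2, hd1])
    have h2 := exact_co n D hD (singles n) (by
      intro E hE
      unfold singles at hE
      rw [mem_image] at hE
      obtain ⟨x, hx, rfl⟩ := hE
      rw [Finset.singleton_subset_iff]
      exact hx) h1
    unfold singles at h2
    rw [Finset.image_image] at h2
    exact h2
  · have hn4' : n = 4 := by omega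
    subst hn4'
    have hd2 : d = 2 := by omega
    left
    obtain ⟨d₂, _, _, hp2, hsum⟩ := pair_of_co 4 D _ _ _ hp le_rfl
    apply exact_of_one 4 D hD (fun i => (hnm i).1) hc
    intro x hx1 hx2
    rw [hp2.one x hx1 hx2]
    omega

omit [Finite ι] in
theorem exact_cosingles (n : ℕ) (D : ι → Finset ℕ) (hD : InRange n D)
    (h1 : Exact (fun i => co n (D i)) (singles n)) : Exact D (cosingles n) := by
  have h2 := exact_co n D hD (singles n) (by
    intro E hE
    unfold singles at hE
    rw [mem_image] at hE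
    obtain ⟨x, hx, rfl⟩ := hE
    rw [Finset.singleton_subset_iff]
    exact hx) h1
  unfold singles at h2
  rw [Finset.image_image] at h2
  exact h2

end

/-- The induction step when one derived family has only monotone members. -/
theorem stepE {ι : Type*} [Finite ι] (n : ℕ) (hn : 5 ≤ n) (D : ι → Finset ℕ) (hD : InRange n D)
    (h : SymData n D) (hnm : ∀ i, D i ≠ ∅ ∧ D i ≠ Icc 1 (n - 1)) (hpos : 0 < Nat.card ι)
    (hle : Nat.card ι ≤ n - 1) (hmono : ∀ i, DE D i = ∅ ∨ DE D i = Icc 1 (n - 2 - 1)) :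
    Nat.card ι = n - 1 ∧ Exact D (singles n) := by
  obtain ⟨d, e', e, hp, _⟩ := pair_of_co n D _ _ _ (pair_co n D hD h) (by omega)
  exact concl n (by omega) D hD (fun i => (hnm i).1) d e' e hp
    (caseA n hn D hD h (fun i => (hnm i).2) hmono) hpos hle

theorem stepH {ι : Type*} [Finite ι] (n : ℕ) (hn : 5 ≤ n) (D : ι → Finset ℕ) (hD : InRange n D)
    (h : SymData n D) (hnm : ∀ i, D i ≠ ∅ ∧ D i ≠ Icc 1 (n - 1)) (hpos : 0 < Nat.card ι)
    (hle : Nat.card ι ≤ n - 1) (hmono : ∀ i, DH D i = ∅ ∨ DH D i = Icc 1 (n - 2 - 1)) :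
    Nat.card ι = n - 1 ∧ Exact D (cosingles n) := by
  have hzero : Nat.card {i // 1 ∈ co n (D i) ∧ n - 1 ∈ co n (D i)} = 0 := by
    rw [← caseB n hn D hD h (fun i => (hnm i).1) hmono]
    apply Nat.card_congr
    apply Equiv.subtypeEquivRight
    intro i
    rw [mem_co, mem_co]
    constructor
    · rintro ⟨g1, g2⟩
      exact ⟨g1.2, g2.2⟩
    · rintro ⟨g1, g2⟩
      exact ⟨⟨⟨le_rfl, by omega⟩, g1⟩, ⟨⟨by omega, le_rfl⟩, g2⟩⟩
  have := concl n (by omega) _ (inRange_co n D) (fun i => co_ne_empty n _ (hD i) (hnm i).2)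
    _ _ _ (pair_co n D hD h) hzero hpos hle
  exact ⟨this.1, exact_cosingles n D hD this.2⟩

/-- Degree five: the two derived families cannot both be nonmonotone with two members each. -/
theorem five {ι : Type*} [Finite ι] (D : ι → Finset ℕ) (hD : InRange 5 D) (h : SymData 5 D)
    (hnm : ∀ i, DE D i ≠ ∅ ∧ DE D i ≠ Icc 1 2) (hnm' : ∀ i, DH D i ≠ ∅ ∧ DH D i ≠ Icc 1 2)
    (i : ι) : False := by
  have hsh : ∀ i, sh (D i) ≠ ∅ ∧ sh (D i) ≠ Icc 1 2 := by
    intro i
    by_cases h1 : 1 ∈ D i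
    · exact hnm ⟨i, h1⟩
    · exact hnm' ⟨i, h1⟩
  have hsub : ∀ i, sh (D i) ⊆ Icc 1 2 := fun i => sh_range 5 (D i) (hD i)
  have ha : ∀ i, ¬ (3 ∈ D i ∧ 4 ∈ D i) := by
    rintro i ⟨g1, g2⟩
    apply (hsh i).2
    apply Finset.Subset.antisymm (hsub i)
    intro x hx
    rw [mem_Icc] at hx
    rw [mem_sh]
    refine ⟨hx.1, ?_⟩
    obtain ⟨hx1, hx2⟩ := hx
    interval_cases x
    · exact g1
    · exact g2
  have hb : ∀ i, ¬ (3 ∉ D i ∧ 4 ∉ D i) := by
    rintro i ⟨g1, g2⟩
    apply (hsh i).1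
    rw [Finset.eq_empty_iff_forall_notMem]
    intro x hx
    have := hsub i hx
    rw [mem_Icc] at this
    obtain ⟨hx1, hx2⟩ := this
    rw [mem_sh] at hx
    interval_cases x
    · exact g1 hx.2
    · exact g2 hx.2
  have hp := pair_co 5 D hD h
  generalize cnt D (2 :: List.replicate (5 - 2) 1) = d at hp
  generalize cnt D (3 :: List.replicate (5 - 3) 1) = e' at hp
  generalize cnt D (2 :: 2 :: List.replicate (5 - 4) 1) = e at hp
  obtain ⟨d₂, e₂', e₂, hp2, _⟩ := pair_of_co 5 D _ _ _ hp (by norm_num)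
  have h1 : e' = 0 := by
    rw [← hp.adj 3 (by norm_num) (by norm_num)]
    apply card_zero_of_not
    intro i
    rw [mem_co, mem_co]
    rintro ⟨g1, g2⟩
    exact hb i ⟨g1.2, g2.2⟩
  have h2 : e₂' = 0 := by
    rw [← hp2.adj 3 (by norm_num) (by norm_num)]
    exact card_zero_of_not _ ha
  subst h1 h2
  have a12 : ∀ i, ¬ (1 ∈ D i ∧ 2 ∈ D i) :=
    not_of_card_zero _ (hp2.adj 1 (by norm_num) (by norm_num))
  have a23 : ∀ i, ¬ (2 ∈ D i ∧ 3 ∈ D i) :=
    not_of_card_zero _ (hp2.adj 2 (by norm_num) (by norm_num))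
  have b12 : ∀ i, ¬ (1 ∉ D i ∧ 2 ∉ D i) := by
    intro i g
    refine not_of_card_zero _ (hp.adj 1 (by norm_num) (by norm_num)) i ?_
    rw [mem_co, mem_co]
    exact ⟨⟨by norm_num, g.1⟩, ⟨by norm_num, g.2⟩⟩
  have b23 : ∀ i, ¬ (2 ∉ D i ∧ 3 ∉ D i) := by
    intro i g
    refine not_of_card_zero _ (hp.adj 2 (by norm_num) (by norm_num)) i ?_
    rw [mem_co, mem_co]
    exact ⟨⟨by norm_num, g.1⟩, ⟨by norm_num, g.2⟩⟩
  -- some member contains 1 and 4
  have hpos : ∃ j, 1 ∈ D j ∧ 4 ∈ D j := by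
    have he : 0 < e₂ := by
      by_cases g1 : 1 ∈ D i
      · have g2 : 2 ∉ D i := fun g => a12 i ⟨g1, g⟩
        have g3 : 3 ∈ D i := by
          by_contra g
          exact b23 i ⟨g2, g⟩
        rw [← hp2.non 1 3 le_rfl (by norm_num) (by norm_num)]
        have : Nonempty {i // 1 ∈ D i ∧ 3 ∈ D i} := ⟨⟨i, g1, g3⟩⟩
        exact Nat.card_pos
      · have g2 : 2 ∈ D i := by
          by_contra g
          exact b12 i ⟨g1, g⟩
        have g3 : 3 ∉ D i := fun g => a23 i ⟨g2, g⟩
        have g4 : 4 ∈ D i := by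
          by_contra g
          exact hb i ⟨g3, g⟩
        rw [← hp2.non 2 4 (by norm_num) (by norm_num) (by norm_num)]
        have : Nonempty {i // 2 ∈ D i ∧ 4 ∈ D i} := ⟨⟨i, g2, g4⟩⟩
        exact Nat.card_pos
    rw [← hp2.non 1 4 (by norm_num) (by norm_num) (by norm_num)] at he
    obtain ⟨⟨j, hj⟩, _⟩ := Nat.card_pos_iff.mp he
    exact ⟨j, hj⟩
  obtain ⟨j, g1, g4⟩ := hpos
  have g2 : 2 ∉ D j := fun g => a12 j ⟨g1, g⟩
  have g3 : 3 ∉ D j := fun g => ha j ⟨g, g4⟩
  exact b23 j ⟨g2, g3⟩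

universe u

theorem nm_le {ι : Type*} [Finite ι] (n : ℕ) (D : ι → Finset ℕ) :
    Nat.card (NM n D) ≤ Nat.card ι :=
  Nat.card_le_card_of_injective (fun i : NM n D => i.1) Subtype.val_injective

theorem nm_full {ι : Type*} [Finite ι] (n : ℕ) (D : ι → Finset ℕ)
    (h : Nat.card (NM n D) = Nat.card ι) (i : ι) : D i ≠ ∅ ∧ D i ≠ Icc 1 (n - 1) :=
  all_of_card (fun i => D i ≠ ∅ ∧ D i ≠ Icc 1 (n - 1)) h i

theorem nm_zero {ι : Type*} [Finite ι] (n : ℕ) (D : ι → Finset ℕ)
    (h : Nat.card (NM n D) = 0) (i : ι) : D i = ∅ ∨ D i = Icc 1 (n - 1) := by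
  have := not_of_card_zero (fun i => D i ≠ ∅ ∧ D i ≠ Icc 1 (n - 1)) h i
  by_contra hcon
  rw [not_or] at hcon
  exact this hcon

theorem card_of_exact {ι : Type*} (A : ι → Finset ℕ) (𝓔 : Finset (Finset ℕ))
    (h : Exact A 𝓔) : Nat.card ι = 𝓔.card := by
  rw [← Fintype.card_coe, ← Nat.card_eq_fintype_card]
  apply Nat.card_congr
  apply Equiv.ofBijective (fun i => (⟨A i, (h.2 _).mp ⟨i, rfl⟩⟩ : {E // E ∈ 𝓔}))
  constructor
  · intro i j e
    exact h.1 (congrArg Subtype.val e)
  · rintro ⟨E, hE⟩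
    obtain ⟨i, hi⟩ := (h.2 E).mpr hE
    exact ⟨i, Subtype.ext hi⟩

theorem classify (n : ℕ) (hn : 2 ≤ n) : ∀ (ι : Type u) [Finite ι] (D : ι → Finset ℕ),
    InRange n D → SymData n D → (∀ i, D i ≠ ∅ ∧ D i ≠ Icc 1 (n - 1)) → 0 < Nat.card ι →
    Nat.card ι ≤ n - 1 →
    (Nat.card ι = n - 1 ∧ (Exact D (singles n) ∨ Exact D (cosingles n) ∨
      (n = 6 ∧ (Exact D E33 ∨ Exact D E222)))) ∨ (n = 4 ∧ Nat.card ι = 2) := by
  induction n using Nat.strong_induction_on with
  | _ n ih =>
    intro ι _ D hD h hnm hpos hle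
    have h1 := not_one n D hD h hnm
    rcases Nat.lt_or_ge n 5 with h5 | h5
    · have hn2 : n ≠ 2 := by omega
      by_cases hc : Nat.card ι = n - 1
      · left
        refine ⟨hc, ?_⟩
        rcases small n (by omega) (by omega) D hD h hnm hc with g | g
        · exact Or.inl g
        · exact Or.inr (Or.inl g)
      · right
        omega
    · -- the derived families
      have key : ∀ (κ : Type u) [Finite κ] (G : κ → Finset ℕ), InRange (n - 2) G →
          SymData (n - 2) G → Nat.card (NM (n - 2) G) = 0 ∨ n - 3 ≤ Nat.card (NM (n - 2) G) ∨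
          (n = 6 ∧ Nat.card (NM (n - 2) G) = 2) := by
        intro κ _ G hG hS
        by_contra hcon
        push Not at hcon
        obtain ⟨c1, c2, c3⟩ := hcon
        have := ih (n - 2) (by omega) (by omega) (NM (n - 2) G) (DN (n - 2) G)
          (fun i => hG i.1) (symData_DN (n - 2) G hS) (fun i => i.2) (by omega) (by omega)
        rcases this with g | g
        · omega
        · exact c3 (by omega) g.2
      have hE := key {i : ι // 1 ∈ D i} (DE D) (inRange_DE n D hD) (symData_DE n hn D hD h)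
      have hH := key {i : ι // ¬ 1 ∈ D i} (DH D) (inRange_DH n D hD) (symData_DH n hn D hD h)
      have hleE := nm_le (n - 2) (DE D)
      have hleH := nm_le (n - 2) (DH D)
      have hsum := compl_count (fun i : ι => 1 ∈ D i)
      by_cases hE0 : Nat.card (NM (n - 2) (DE D)) = 0
      · left
        have := stepE n h5 D hD h hnm hpos hle (nm_zero (n - 2) (DE D) hE0)
        exact ⟨this.1, Or.inl this.2⟩
      by_cases hH0 : Nat.card (NM (n - 2) (DH D)) = 0
      · left
        have := stepH n h5 D hD h hnm hpos hle (nm_zero (n - 2) (DH D) hH0)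
        exact ⟨this.1, Or.inr (Or.inl this.2)⟩
      rcases hE with g | hE
      · exact absurd g hE0
      rcases hH with g | hH
      · exact absurd g hH0
      by_cases h6 : n = 6
      · subst h6
        have hcard : Nat.card ι = 5 ∨ Nat.card ι = 4 := by
          rcases hE with hE | ⟨_, hE⟩ <;> rcases hH with hH | ⟨_, hH⟩ <;> omega
        have hnE : Nat.card {i : ι // 1 ∈ D i} = 2 ∨ Nat.card {i : ι // ¬ 1 ∈ D i} = 2 := by
          rcases hE with hE | ⟨_, hE⟩ <;> rcases hH with hH | ⟨_, hH⟩ <;> omega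
        rcases hnE with g | g
        · have hex := six_E D hD h (by
            intro hcon
            apply hE0
            exact card_zero_of_not _ (fun i hi => by
              rcases hcon i with g' | g'
              · exact hi.1 g'
              · exact hi.2 g')) g hle
          left
          refine ⟨?_, Or.inr (Or.inr ⟨rfl, Or.inl hex⟩)⟩
          rw [card_of_exact D _ hex]
          rfl
        · have hex := six_H D hD h (by
            intro hcon
            apply hH0
            exact card_zero_of_not _ (fun i hi => by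
              rcases hcon i with g' | g'
              · exact hi.1 g'
              · exact hi.2 g')) g hle
          left
          refine ⟨?_, Or.inr (Or.inr ⟨rfl, Or.inr hex⟩)⟩
          rw [card_of_exact D _ hex]
          rfl
      · have hE' : n - 3 ≤ Nat.card (NM (n - 2) (DE D)) := by
          rcases hE with hE | ⟨g, _⟩
          · exact hE
          · exact absurd g h6
        have hH' : n - 3 ≤ Nat.card (NM (n - 2) (DH D)) := by
          rcases hH with hH | ⟨g, _⟩
          · exact hH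
          · exact absurd g h6
        have hn5 : n = 5 := by omega
        subst hn5
        exfalso
        obtain ⟨⟨i⟩, _⟩ := (Nat.card_pos_iff (α := ι)).mp hpos
        norm_num at hE' hH' hleE hleH hle
        exact five D hD h (nm_full 3 (DE D) (by omega)) (nm_full 3 (DH D) (by omega)) i

end Q162SS
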