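import Mathlib.RingTheory.MvPowerSeries.Basic
import Mathlib.Combinatorics.Young.SemistandardTableau
import Mathlib.Data.List.GetD
import Pool.Agent.Q162.Jack.Seq
import Pool.Agent.Q162.SymSet.Main

/-!
# Definitions: quasisymmetric and Schur functions
-/

namespace Q162SS

open Finset

/-- Formal power series with integer coefficients in the variables `x_0, x_1, …`. -/
abbrev Ser : Type := MvPowerSeries ℕ ℤ

/-- The exponent vector of the monomial `x_{i 0} x_{i 1} ⋯ x_{i (n-1)}`. -/
noncomputable def content {n : ℕ} (i : Fin n → ℕ) : ℕ →₀ ℕ := ∑ j, Finsupp.single (i j) 1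

/-- The index sequences of the fundamental quasisymmetric function `F_{n,D}`: weakly increasing
sequences `i_1 ≤ ⋯ ≤ i_n` with `i_j < i_{j+1}` whenever `j ∈ D` (the entry `i_j` is `i` applied to
the element `j - 1` of `Fin n`). -/
def IsFundSeq (n : ℕ) (D : Finset ℕ) (i : Fin n → ℕ) : Prop :=
  Monotone i ∧ ∀ j k : Fin n, (k : ℕ) = j + 1 → (j : ℕ) + 1 ∈ D → i j < i k

/-- The fundamental quasisymmetric function `F_{n,D}`: the coefficient of `x^a` is the
number of admissible index sequences whose monomial is `x^a`. -/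
noncomputable def fundamental (n : ℕ) (D : Finset ℕ) : Ser :=
  fun a => (Nat.card {i : Fin n → ℕ // IsFundSeq n D i ∧ content i = a} : ℤ)

/-- The descent set, a subset of `{1, …, n-1}`: `j` is a descent when `π(j) > π(j+1)` in the
`1`-based notation. -/
def des {n : ℕ} (π : Equiv.Perm (Fin n)) : Finset ℕ :=
  (Icc 1 (n - 1)).filter (fun j => ∃ a b : Fin n, (a : ℕ) + 1 = j ∧ (b : ℕ) = j ∧ π b < π a)

/-- The quasisymmetric function `𝒬(S)` of a set of permutations. -/
noncomputable def quasi {n : ℕ} (S : Finset (Equiv.Perm (Fin n))) : Ser :=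
  ∑ π ∈ S, fundamental n (des π)

/-- Invariance under permutations of the variables. -/
def IsSymmetric (f : Ser) : Prop :=
  ∀ (σ : Equiv.Perm ℕ) (a : ℕ →₀ ℕ),
    MvPowerSeries.coeff (a.equivMapDomain σ) f = MvPowerSeries.coeff a f

/-- The exponent vector of the monomial of a tableau. -/
noncomputable def weight {μ : YoungDiagram} (T : SemistandardYoungTableau μ) : ℕ →₀ ℕ :=
  ∑ c ∈ μ.cells, Finsupp.single (T c.1 c.2) 1

/-- The Schur function `s_μ`: the coefficient of `x^a` is the number of semistandard Young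
tableaux of shape `μ` whose monomial is `x^a`. -/
noncomputable def schur (μ : YoungDiagram) : Ser :=
  fun a => (Nat.card {T : SemistandardYoungTableau μ // weight T = a} : ℤ)

/-- Nonnegative integer combinations of Schur functions of degree `n`. -/
def IsSchurPositive (n : ℕ) (f : Ser) : Prop :=
  ∃ c : YoungDiagram →₀ ℕ, (∀ μ ∈ c.support, μ.card = n) ∧ f = c.sum (fun μ m => m • schur μ)

/-! ### Sequences with given content -/

theorem content_eq {n : ℕ} (i : Fin n → ℕ) : content i = Q162Jack.content i := rfl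

/-- The exponent vector of a list. -/
noncomputable def ex (α : List ℕ) : ℕ →₀ ℕ := Finsupp.onFinset (range α.length)
  (fun v => α.getD v 0) (by
    intro v hv
    rw [mem_range]
    by_contra h
    apply hv
    exact List.getD_eq_default _ _ (by omega))

theorem ex_apply (α : List ℕ) (v : ℕ) : ex α v = α.getD v 0 := rfl

theorem mem_ps_iff (o : ℕ) (α : List ℕ) (x : ℕ) :
    x ∈ ps o α ↔ ∃ v < α.length, x = o + (α.take (v + 1)).sum := by
  induction α generalizing o with
  | nil => simp [ps_nil]
  | cons a l ih =>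
    rw [ps_cons, mem_insert, ih]
    constructor
    · rintro (h | ⟨v, hv, h⟩)
      · exact ⟨0, by simp, by simp [h]⟩
      · exact ⟨v + 1, by simp; omega, by rw [List.take_succ_cons, List.sum_cons, h]; ring⟩
    · rintro ⟨v, hv, h⟩
      rcases v with _ | v
      · left
        simpa using h
      · right
        refine ⟨v, by simp at hv; omega, ?_⟩
        rw [List.take_succ_cons, List.sum_cons] at h
        rw [h]
        ring

theorem take_sum (α : List ℕ) (v : ℕ) : (α.take v).sum = ∑ u ∈ range v, α.getD u 0 := by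
  induction v generalizing α with
  | zero => simp
  | succ v ih =>
    rcases α with _ | ⟨a, l⟩
    · simp
    · rw [List.take_succ_cons, List.sum_cons, ih, Finset.sum_range_succ']
      simp [add_comm]

theorem card_le_eq {n : ℕ} (α : List ℕ) (i : Fin n → ℕ) (hc : content i = ex α) (v : ℕ) :
    (univ.filter (fun k => i k ≤ v)).card = (α.take (v + 1)).sum := by
  rw [take_sum]
  have h1 : ∀ u, α.getD u 0 = (univ.filter (fun k => i k = u)).card := by
    intro u
    rw [← ex_apply, ← hc, content_eq, Q162Jack.content_apply]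
    rfl
  simp only [h1]
  rw [← Finset.card_biUnion]
  · congr 1
    ext k
    simp only [mem_filter, mem_univ, true_and, mem_biUnion, mem_range]
    constructor
    · intro h
      exact ⟨i k, by omega, rfl⟩
    · rintro ⟨u, hu, h⟩
      omega
  · intro u _ w _ huw
    rw [Function.onFun, Finset.disjoint_left]
    intro k hk1 hk2
    rw [mem_filter] at hk1 hk2
    exact huw (hk1.2.symm.trans hk2.2)

theorem le_iff_lt_card {n : ℕ} (i : Fin n → ℕ) (hi : Monotone i) (v : ℕ) (k : Fin n) :
    i k ≤ v ↔ (k : ℕ) < (univ.filter (fun k => i k ≤ v)).card := by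
  constructor
  · intro h
    have h1 : Finset.Iic k ⊆ univ.filter (fun k => i k ≤ v) := by
      intro j hj
      rw [mem_Iic] at hj
      rw [mem_filter]
      exact ⟨mem_univ _, (hi hj).trans h⟩
    have h2 := Finset.card_le_card h1
    rw [Fin.card_Iic] at h2
    omega
  · intro h
    by_contra hcon
    have h1 : univ.filter (fun k => i k ≤ v) ⊆ Finset.Iio k := by
      intro j hj
      rw [mem_filter] at hj
      rw [mem_Iio]
      by_contra hjk
      have := hi (not_lt.mp hjk)
      omega
    have h2 := Finset.card_le_card h1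
    rw [Fin.card_Iio] at h2
    omega

theorem jump_iff {n : ℕ} (α : List ℕ) (hs : α.sum = n) (i : Fin n → ℕ) (hi : Monotone i)
    (hc : content i = ex α) (j k : Fin n) (hjk : (k : ℕ) = j + 1) :
    i j < i k ↔ (j : ℕ) + 1 ∈ ps 0 α := by
  rw [mem_ps_iff]
  have h1 : ∀ v (x : Fin n), i x ≤ v ↔ (x : ℕ) < (α.take (v + 1)).sum := by
    intro v x
    rw [le_iff_lt_card i hi, card_le_eq α i hc]
  constructor
  · intro h
    have g1 := (h1 (i j) j).mp le_rfl
    have g2 : ¬ i k ≤ i j := by omega
    rw [h1] at g2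
    refine ⟨i j, ?_, by omega⟩
    by_contra hcon
    rw [List.take_of_length_le (by omega), hs] at g2
    exact g2 k.2
  · rintro ⟨v, _, h⟩
    have g1 := (h1 v j).mpr (by omega)
    have g2 : ¬ i k ≤ v := by
      rw [h1]
      omega
    omega

theorem sum_ex (α : List ℕ) : (ex α).sum (fun _ => id) = α.sum := by
  rw [Finsupp.sum_of_support_subset (s := range α.length)]
  · have := take_sum α α.length
    rw [List.take_length] at this
    rw [this]
    rfl
  · unfold ex
    exact Finsupp.support_onFinset_subset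
  · intro i _
    rfl

theorem coeff_fundamental (n : ℕ) (D : Finset ℕ) (hD : D ⊆ Icc 1 (n - 1)) (α : List ℕ)
    (hs : α.sum = n) :
    MvPowerSeries.coeff (ex α) (fundamental n D) = if D ⊆ ps 0 α then 1 else 0 := by
  change fundamental n D (ex α) = _
  unfold fundamental
  obtain ⟨i, hi, hc⟩ := Q162Jack.seq_exists (n := n) (ex α) (by rw [sum_ex, hs])
  rw [← content_eq] at hc
  split_ifs with h
  · have : Nat.card {i : Fin n → ℕ // IsFundSeq n D i ∧ content i = ex α} = 1 := by
      rw [Nat.card_eq_one_iff_exists]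
      refine ⟨⟨i, ⟨hi, ?_⟩, hc⟩, ?_⟩
      · intro j k hjk hj
        rw [jump_iff α hs i hi hc j k hjk]
        exact h hj
      · rintro ⟨i', ⟨hi', _⟩, hc'⟩
        apply Subtype.ext
        exact Q162Jack.seq_unique i' i hi' hi (by rw [← content_eq, ← content_eq, hc', hc])
    rw [this]
    rfl
  · have : IsEmpty {i : Fin n → ℕ // IsFundSeq n D i ∧ content i = ex α} := by
      constructor
      rintro ⟨i', ⟨hi', hi2⟩, hc'⟩
      apply h
      intro x hx
      have hx' := hD hx
      rw [mem_Icc] at hx'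
      have := hi2 ⟨x - 1, by omega⟩ ⟨x, by omega⟩ (by simp; omega) (by
        simp only
        rw [Nat.sub_add_cancel hx'.1]
        exact hx)
      rw [jump_iff α hs i' hi' hc' _ _ (by simp; omega)] at this
      simp only at this
      rw [Nat.sub_add_cancel hx'.1] at this
      exact this
    rw [Nat.card_of_isEmpty]
    rfl

/-! ### Symmetric functions -/

theorem ex_swap (γ : List ℕ) (x y : ℕ) (l : List ℕ) :
    ex (γ ++ y :: x :: l) =
      (ex (γ ++ x :: y :: l)).equivMapDomain (Equiv.swap γ.length (γ.length + 1)) := by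
  ext v
  rw [Finsupp.equivMapDomain_apply, ex_apply, ex_apply, Equiv.symm_swap]
  rcases lt_trichotomy v γ.length with h | h | h
  · rw [Equiv.swap_apply_of_ne_of_ne (by omega) (by omega), List.getD_append _ _ _ _ h,
      List.getD_append _ _ _ _ h]
  · rw [h, Equiv.swap_apply_left, List.getD_append_right _ _ _ _ le_rfl,
      List.getD_append_right _ _ _ _ (by omega)]
    simp
  · by_cases h2 : v = γ.length + 1
    · rw [h2, Equiv.swap_apply_right, List.getD_append_right _ _ _ _ le_rfl,
        List.getD_append_right _ _ _ _ (by omega)]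
      simp
    · rw [Equiv.swap_apply_of_ne_of_ne (by omega) h2, List.getD_append_right _ _ _ _ (by omega),
        List.getD_append_right _ _ _ _ (by omega)]
      obtain ⟨k, rfl⟩ : ∃ k, v = γ.length + 2 + k := ⟨v - (γ.length + 2), by omega⟩
      rw [show γ.length + 2 + k - γ.length = k + 1 + 1 by omega]
      simp

theorem coeff_perm (f : Ser) (hf : IsSymmetric f) (α β : List ℕ) (h : α.Perm β) :
    ∀ γ : List ℕ, MvPowerSeries.coeff (ex (γ ++ α)) f = MvPowerSeries.coeff (ex (γ ++ β)) f := by
  induction h with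
  | nil =>
    intro γ
    rfl
  | cons x _ ih =>
    intro γ
    have := ih (γ ++ [x])
    simpa using this
  | swap x y l =>
    intro γ
    rw [ex_swap γ x y l, hf]
  | trans _ _ ih1 ih2 =>
    intro γ
    rw [ih1, ih2]

theorem des_sub {n : ℕ} (π : Equiv.Perm (Fin n)) : des π ⊆ Icc 1 (n - 1) :=
  Finset.filter_subset _ _

theorem coeff_quasi {n : ℕ} (S : Finset (Equiv.Perm (Fin n))) (α : List ℕ) (hs : α.sum = n) :
    MvPowerSeries.coeff (ex α) (quasi S) = (cnt (fun π : {π // π ∈ S} => des π.1) α : ℤ) := by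
  unfold quasi cnt
  rw [map_sum, Finset.sum_congr rfl (fun π _ => coeff_fundamental n (des π) (des_sub π) α hs),
    Finset.sum_boole, ← Fintype.card_coe, ← Nat.card_eq_fintype_card]
  norm_cast
  apply Nat.card_congr
  refine ⟨fun z => ⟨⟨z.1, (mem_filter.mp z.2).1⟩, (mem_filter.mp z.2).2⟩,
    fun z => ⟨z.1.1, mem_filter.mpr ⟨z.1.2, z.2⟩⟩, fun z => rfl, fun z => rfl⟩

theorem symData_quasi {n : ℕ} (S : Finset (Equiv.Perm (Fin n))) (h : IsSymmetric (quasi S)) :
    SymData n (fun π : {π // π ∈ S} => des π.1) := by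
  intro α β _ hs hp
  have h1 := coeff_perm _ h α β hp []
  rw [List.nil_append, List.nil_append, coeff_quasi S α hs,
    coeff_quasi S β (by rw [← hp.sum_eq, hs])] at h1
  exact_mod_cast h1

theorem quasi_of_exact {n : ℕ} (S : Finset (Equiv.Perm (Fin n))) (𝓔 : Finset (Finset ℕ))
    (h : Exact (fun π : {π // π ∈ S} => des π.1) 𝓔) :
    quasi S = ∑ E ∈ 𝓔, fundamental n E := by
  unfold quasi
  have himg : S.image des = 𝓔 := by
    ext E
    rw [← h.2 E, mem_image]
    constructor
    · rintro ⟨π, hπ, rfl⟩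
      exact ⟨⟨π, hπ⟩, rfl⟩
    · rintro ⟨⟨π, hπ⟩, rfl⟩
      exact ⟨π, hπ, rfl⟩
  rw [← himg, Finset.sum_image]
  intro π hπ σ hσ e
  have := h.1 (a₁ := ⟨π, hπ⟩) (a₂ := ⟨σ, hσ⟩) e
  exact congrArg Subtype.val this

/-! ### Monotone permutations -/

theorem des_empty {n : ℕ} (π : Equiv.Perm (Fin n)) (h : des π = ∅) : π = 1 := by
  have hmono : StrictMono π := by
    rcases n with _ | n
    · intro a
      exact a.elim0
    · rw [Fin.strictMono_iff_lt_succ]
      intro i
      rcases lt_trichotomy (π i.castSucc) (π i.succ) with g | g | g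
      · exact g
      · exfalso
        have := π.injective g
        exact (Fin.castSucc_lt_succ (i := i)).ne this
      · exfalso
        have : (i : ℕ) + 1 ∈ des π := by
          unfold des
          rw [mem_filter, mem_Icc]
          exact ⟨by omega, i.castSucc, i.succ, by simp, by simp, g⟩
        rw [h] at this
        exact absurd this (Finset.notMem_empty _)
  ext x
  have h1 : (π : Fin n → Fin n) = id := hmono.eq_id
  rw [h1]
  rfl

theorem des_full {n : ℕ} (π : Equiv.Perm (Fin n)) (h : des π = Icc 1 (n - 1)) :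
    π = Fin.revPerm := by
  have h1 : des (π.trans Fin.revPerm) = ∅ := by
    rw [Finset.eq_empty_iff_forall_notMem]
    intro j hj
    unfold des at hj
    rw [mem_filter] at hj
    obtain ⟨hj1, a, b, ha, hb, hab⟩ := hj
    rw [← h] at hj1
    unfold des at hj1
    rw [mem_filter] at hj1
    obtain ⟨_, a', b', ha', hb', hab'⟩ := hj1
    have e1 : a = a' := Fin.ext (by omega)
    have e2 : b = b' := Fin.ext (by omega)
    subst e1 e2
    simp only [Equiv.trans_apply, Fin.revPerm_apply, Fin.rev_lt_rev] at hab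
    exact absurd hab (not_lt.mpr hab'.le)
  have h2 := des_empty _ h1
  ext x
  have h3 := congrArg (fun e : Equiv.Perm (Fin n) => e x) h2
  simp only [Equiv.trans_apply, Fin.revPerm_apply, Equiv.Perm.coe_one, id_eq] at h3
  rw [Fin.revPerm_apply, ← h3, Fin.rev_rev, h3]

/-! ### Schur functions -/

instance (n : ℕ) (D : Finset ℕ) (a : ℕ →₀ ℕ) :
    Subsingleton {i : Fin n → ℕ // IsFundSeq n D i ∧ content i = a} := by
  constructor
  rintro ⟨i, ⟨hi, _⟩, hc⟩ ⟨i', ⟨hi', _⟩, hc'⟩
  apply Subtype.ext
  exact Q162Jack.seq_unique i i' hi hi' (by rw [← content_eq, ← content_eq, hc, hc'])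

theorem schur_eq (μ : YoungDiagram) (n : ℕ) {X : Type} [Fintype X] (D : X → Finset ℕ)
    (Ψ : (Σ x : X, {s : Fin n → ℕ // IsFundSeq n (D x) s}) → SemistandardYoungTableau μ)
    (hΨ : Function.Bijective Ψ) (hw : ∀ y, weight (Ψ y) = content y.2.1) :
    schur μ = ∑ x, fundamental n (D x) := by
  funext a
  have h1 : (∑ x, fundamental n (D x)) a = ∑ x, fundamental n (D x) a := by
    change MvPowerSeries.coeff a (∑ x, fundamental n (D x)) = _
    rw [map_sum]
    rfl
  rw [h1]
  unfold schur fundamental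
  rw [← Nat.cast_sum, ← Nat.card_sigma]
  norm_cast
  apply Nat.card_congr
  symm
  refine Equiv.ofBijective (fun z => ⟨Ψ ⟨z.1, ⟨z.2.1, z.2.2.1⟩⟩, by rw [hw]; exact z.2.2.2⟩) ⟨?_, ?_⟩
  · rintro ⟨x, s, h, hc⟩ ⟨x', s', h', hc'⟩ e
    have h2 := hΨ.1 (congrArg Subtype.val e)
    simp only [Sigma.mk.injEq] at h2
    obtain ⟨rfl, h3⟩ := h2
    simp only [heq_eq_eq, Subtype.mk.injEq] at h3
    subst h3
    rfl
  · rintro ⟨T, hT⟩
    obtain ⟨⟨x, s, h⟩, rfl⟩ := hΨ.2 T
    exact ⟨⟨x, s, h, by rw [← hT, hw]⟩, rfl⟩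

end Q162SS
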