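import Pool.Agent.Q162.SymSet.Defs

/-!
# The Schur functions of near-row and near-column shapes
-/

namespace Q162SS

open Finset

/-- Extension by zero. -/
def ext {n : ℕ} (s : Fin n → ℕ) (j : ℕ) : ℕ := if h : j < n then s ⟨j, h⟩ else 0

theorem ext_of_lt {n : ℕ} (s : Fin n → ℕ) (j : ℕ) (h : j < n) : ext s j = s ⟨j, h⟩ := by
  unfold ext
  rw [dif_pos h]

theorem content_ext {n : ℕ} (s : Fin n → ℕ) :
    content s = ∑ j ∈ range n, Finsupp.single (ext s j) 1 := by
  unfold content
  rw [Finset.sum_range]
  refine Finset.sum_congr rfl fun j _ => ?_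
  rw [ext_of_lt s j j.2]

theorem fund_iff {n : ℕ} (D : Finset ℕ) (s : Fin n → ℕ) :
    IsFundSeq n D s ↔ (∀ x y, x ≤ y → y < n → ext s x ≤ ext s y) ∧
      ∀ j, 1 ≤ j → j < n → j ∈ D → ext s (j - 1) < ext s j := by
  constructor
  · rintro ⟨h1, h2⟩
    constructor
    · intro x y hxy hy
      rw [ext_of_lt s x (by omega), ext_of_lt s y hy]
      apply h1
      exact hxy
    · intro j hj1 hj2 hj
      rw [ext_of_lt s (j - 1) (by omega), ext_of_lt s j hj2]
      apply h2
      · simp only
        omega
      · simp only
        rw [Nat.sub_add_cancel hj1]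
        exact hj
  · rintro ⟨h1, h2⟩
    constructor
    · intro x y hxy
      have := h1 x y hxy y.2
      rwa [ext_of_lt s x x.2, ext_of_lt s y y.2] at this
    · intro j k hjk hj
      have := h2 k (by omega) k.2 (by rw [hjk]; exact hj)
      rw [ext_of_lt s k k.2, ext_of_lt s (k - 1) (by omega)] at this
      have e : (⟨(k : ℕ) - 1, by omega⟩ : Fin n) = j := Fin.ext (by simp; omega)
      rwa [e] at this

theorem ext_mk {n : ℕ} (g : ℕ → ℕ) (j : ℕ) (h : j < n) : ext (fun x : Fin n => g x) j = g j := by
  rw [ext_of_lt _ j h]

theorem ext_inj {n : ℕ} (s s' : Fin n → ℕ) (h : ∀ j < n, ext s j = ext s' j) : s = s' := by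
  funext j
  have := h j j.2
  rwa [ext_of_lt s j j.2, ext_of_lt s' j j.2] at this

theorem threshold (P : ℕ → Prop) (a : ℕ) (h : ∀ i j, i ≤ j → j < a → P j → P i) :
    ∃ k ≤ a, ∀ j < a, P j ↔ j < k := by
  classical
  induction a with
  | zero => exact ⟨0, le_rfl, fun j hj => absurd hj (by omega)⟩
  | succ a ih =>
    obtain ⟨k, hk, h2⟩ := ih (fun i j hij hj => h i j hij (by omega))
    by_cases hka : k < a
    · refine ⟨k, by omega, fun j hj => ?_⟩
      by_cases hja : j < a
      · exact h2 j hja
      · have hj' : j = a := by omega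
        subst hj'
        constructor
        · intro hP
          have := (h2 k hka).mp (h k j (by omega) (by omega) hP)
          omega
        · intro hjk
          omega
    · by_cases hP : P a
      · refine ⟨a + 1, le_rfl, fun j hj => ⟨fun _ => hj, fun _ => h j a (by omega) (by omega) hP⟩⟩
      · refine ⟨a, by omega, fun j hj => ?_⟩
        by_cases hja : j < a
        · rw [h2 j hja]
          omega
        · have hj' : j = a := by omega
          subst hj'
          constructor
          · intro h3
            exact absurd h3 hP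
          · intro h3
            omega

/-- Skipping the position `k`. -/
def skip (k j : ℕ) : ℕ := if j < k then j else j + 1

theorem skip_lt (k j : ℕ) (h : j < k) : skip k j = j := if_pos h

theorem skip_ge (k j : ℕ) (h : k ≤ j) : skip k j = j + 1 := if_neg (by omega)

/-- Entries of a near-row tableau. -/
def ent (a k : ℕ) (f : ℕ → ℕ) (i j : ℕ) : ℕ :=
  if i = 0 ∧ j < a then f (skip k j) else if i = 1 ∧ j = 0 then f k else 0

theorem ent_row (a k : ℕ) (f : ℕ → ℕ) (j : ℕ) (h : j < a) : ent a k f 0 j = f (skip k j) :=
  if_pos ⟨rfl, h⟩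

theorem ent_one (a k : ℕ) (f : ℕ → ℕ) : ent a k f 1 0 = f k := by
  unfold ent
  rw [if_neg (by omega), if_pos ⟨rfl, rfl⟩]

theorem ent_zero (a k : ℕ) (f : ℕ → ℕ) (i j : ℕ) (h : ¬ ((i = 0 ∧ j < a) ∨ (i = 1 ∧ j = 0))) :
    ent a k f i j = 0 := by
  unfold ent
  rw [if_neg (fun h' => h (Or.inl h')), if_neg (fun h' => h (Or.inr h'))]

theorem sum_skip {M : Type*} [AddCommMonoid M] (f : ℕ → M) (a k : ℕ) (hk : k ≤ a) :
    ∑ j ∈ range (a + 1), f j = f k + ∑ j ∈ range a, f (skip k j) := by
  unfold skip
  rw [← Finset.add_sum_erase _ _ (show k ∈ range (a + 1) by rw [mem_range]; omega)]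
  congr 1
  have h1 : (range (a + 1)).erase k = (range a).image (fun j => if j < k then j else j + 1) := by
    ext x
    rw [mem_erase, mem_range, mem_image]
    constructor
    · rintro ⟨h1, h2⟩
      by_cases h3 : x < k
      · exact ⟨x, by rw [mem_range]; omega, by rw [if_pos h3]⟩
      · refine ⟨x - 1, by rw [mem_range]; omega, ?_⟩
        rw [if_neg (by omega)]
        omega
    · rintro ⟨j, hj, rfl⟩
      rw [mem_range] at hj
      split_ifs with h3 <;> omega
  rw [h1, Finset.sum_image]
  intro x _ y _ hxy
  simp only at hxy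
  split_ifs at hxy <;> omega

/-! ### The shape `(a, 1)` -/

/-- The Young diagram of the partition `(a, 1)`. -/
def twoRow (a : ℕ) (ha : 1 ≤ a) : YoungDiagram :=
  YoungDiagram.ofRowLens [a, 1] (by
    rw [List.sortedGE_iff_pairwise]
    simp [ha])

theorem mem_twoRow (a : ℕ) (ha : 1 ≤ a) (i j : ℕ) :
    (i, j) ∈ twoRow a ha ↔ (i = 0 ∧ j < a) ∨ (i = 1 ∧ j = 0) := by
  unfold twoRow
  rw [YoungDiagram.mem_ofRowLens]
  constructor
  · rintro ⟨h1, h2⟩
    simp only [List.length_cons, List.length_nil] at h1
    rcases i with _ | _ | i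
    · left
      exact ⟨rfl, by simpa using h2⟩
    · right
      refine ⟨rfl, ?_⟩
      simpa using h2
    · omega
  · rintro (⟨rfl, h⟩ | ⟨rfl, rfl⟩)
    · exact ⟨by simp, by simpa using h⟩
    · exact ⟨by simp, by simp⟩

theorem cells_twoRow (a : ℕ) (ha : 1 ≤ a) :
    (twoRow a ha).cells = insert (1, 0) ((range a).image (fun j => (0, j))) := by
  ext ⟨i, j⟩
  rw [YoungDiagram.mem_cells, mem_twoRow, mem_insert, mem_image]
  simp only [Prod.mk.injEq, mem_range]
  constructor
  · rintro (⟨rfl, h⟩ | ⟨rfl, rfl⟩)
    · right
      exact ⟨j, h, rfl, rfl⟩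
    · left
      exact ⟨rfl, rfl⟩
  · rintro (⟨rfl, rfl⟩ | ⟨j', h, rfl, rfl⟩)
    · right
      exact ⟨rfl, rfl⟩
    · left
      exact ⟨rfl, h⟩

theorem cells_twoRow_tr (a : ℕ) (ha : 1 ≤ a) :
    (twoRow a ha).transpose.cells = insert (0, 1) ((range a).image (fun j => (j, 0))) := by
  ext ⟨i, j⟩
  rw [YoungDiagram.mem_cells, YoungDiagram.mem_transpose, Prod.swap_prod_mk, mem_twoRow,
    mem_insert, mem_image]
  simp only [Prod.mk.injEq, mem_range]
  constructor
  · rintro (⟨rfl, h⟩ | ⟨rfl, rfl⟩)
    · right
      exact ⟨i, h, rfl, rfl⟩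
    · left
      exact ⟨rfl, rfl⟩
  · rintro (⟨rfl, rfl⟩ | ⟨j', h, rfl, rfl⟩)
    · right
      exact ⟨rfl, rfl⟩
    · left
      exact ⟨rfl, h⟩

theorem sum_cells_twoRow {M : Type*} [AddCommMonoid M] (a : ℕ) (ha : 1 ≤ a) (f : ℕ × ℕ → M) :
    ∑ c ∈ (twoRow a ha).cells, f c = f (1, 0) + ∑ j ∈ range a, f (0, j) := by
  rw [cells_twoRow, Finset.sum_insert, Finset.sum_image]
  · intro x _ y _ h
    simpa using h
  · simp

theorem sum_cells_twoRow_tr {M : Type*} [AddCommMonoid M] (a : ℕ) (ha : 1 ≤ a) (f : ℕ × ℕ → M) :
    ∑ c ∈ (twoRow a ha).transpose.cells, f c = f (0, 1) + ∑ j ∈ range a, f (j, 0) := by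
  rw [cells_twoRow_tr, Finset.sum_insert, Finset.sum_image]
  · intro x _ y _ h
    simpa using h
  · simp

theorem card_twoRow (a : ℕ) (ha : 1 ≤ a) : (twoRow a ha).card = a + 1 := by
  change (twoRow a ha).cells.card = a + 1
  rw [Finset.card_eq_sum_ones, sum_cells_twoRow]
  simp [add_comm]

theorem card_twoRow_tr (a : ℕ) (ha : 1 ≤ a) : (twoRow a ha).transpose.card = a + 1 := by
  change (twoRow a ha).transpose.cells.card = a + 1
  rw [Finset.card_eq_sum_ones, sum_cells_twoRow_tr]
  simp [add_comm]

/-- The tableau of shape `(a, 1)` built from a sequence. -/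
def hookT (a : ℕ) (ha : 1 ≤ a) (k : ℕ) (hk1 : 1 ≤ k) (hk2 : k ≤ a) (s : Fin (a + 1) → ℕ)
    (hs : IsFundSeq (a + 1) {k} s) : SemistandardYoungTableau (twoRow a ha) where
  entry i j := ent a k (ext s) i j
  row_weak' := by
    intro i j1 j2 hj h
    rw [fund_iff] at hs
    rw [mem_twoRow] at h
    rcases h with ⟨rfl, h⟩ | ⟨rfl, rfl⟩
    · rw [ent_row a k _ j1 (by omega), ent_row a k _ j2 h]
      unfold skip
      apply hs.1 <;> split_ifs <;> omega
    · omega
  col_strict' := by
    intro i1 i2 j hi h
    rw [fund_iff] at hs
    rw [mem_twoRow] at h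
    rcases h with ⟨rfl, h⟩ | ⟨rfl, rfl⟩
    · omega
    · have e : i1 = 0 := by omega
      subst e
      rw [ent_row a k _ 0 (by omega), ent_one, skip_lt k 0 (by omega)]
      have g1 := hs.1 0 (k - 1) (by omega) (by omega)
      have g2 := hs.2 k hk1 (by omega) (mem_singleton_self k)
      omega
  zeros' := by
    intro i j h
    rw [mem_twoRow] at h
    exact ent_zero a k _ i j h

theorem schur_twoRow (a : ℕ) (ha : 1 ≤ a) :
    schur (twoRow a ha) = ∑ E ∈ singles (a + 1), fundamental (a + 1) E := by
  have h1 : ∑ E ∈ singles (a + 1), fundamental (a + 1) E =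
      ∑ x : {x // x ∈ Icc 1 (a + 1 - 1)}, fundamental (a + 1) {x.1} := by
    unfold singles
    rw [Finset.sum_image (by intro x _ y _ h; exact Finset.singleton_injective h)]
    exact (Finset.sum_coe_sort (Icc 1 (a + 1 - 1)) (fun x => fundamental (a + 1) {x})).symm
  rw [h1]
  have hX : ∀ x : {x // x ∈ Icc 1 (a + 1 - 1)}, 1 ≤ x.1 ∧ x.1 ≤ a := by
    intro x
    have := x.2
    rw [mem_Icc] at this
    exact ⟨this.1, by omega⟩
  apply schur_eq (twoRow a ha) (a + 1) (fun x : {x // x ∈ Icc 1 (a + 1 - 1)} => ({x.1} : Finset ℕ))
    (fun y => hookT a ha y.1.1 (hX y.1).1 (hX y.1).2 y.2.1 y.2.2)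
  · constructor
    · rintro ⟨⟨k, hk⟩, s, hs⟩ ⟨⟨k', hk'⟩, s', hs'⟩ e
      rw [mem_Icc] at hk hk'
      have hE : ∀ i j, ent a k (ext s) i j = ent a k' (ext s') i j := by
        intro i j
        exact congrArg (fun T : SemistandardYoungTableau (twoRow a ha) => T.entry i j) e
      have hb : ext s k = ext s' k' := by
        have := hE 1 0
        rwa [ent_one, ent_one] at this
      have hr : ∀ j < a, ext s (skip k j) = ext s' (skip k' j) := by
        intro j hj
        have := hE 0 j
        rwa [ent_row a k _ j hj, ent_row a k' _ j hj] at this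
      simp only at hs hs'
      have hs0 := hs
      have hs0' := hs'
      rw [fund_iff] at hs0 hs0'
      have hkk : k = k' := by
        rcases lt_trichotomy k k' with h | h | h
        · exfalso
          have g := hr k (by omega)
          rw [skip_ge k k le_rfl, skip_lt k' k h] at g
          have g1 := hs0.1 k (k + 1) (by omega) (by omega)
          have g2 := hs0'.1 k (k' - 1) (by omega) (by omega)
          have g3 := hs0'.2 k' (by omega) (by omega) (mem_singleton_self _)
          omega
        · exact h
        · exfalso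
          have g := hr k' (by omega)
          rw [skip_ge k' k' le_rfl, skip_lt k k' h] at g
          have g1 := hs0'.1 k' (k' + 1) (by omega) (by omega)
          have g2 := hs0.1 k' (k - 1) (by omega) (by omega)
          have g3 := hs0.2 k (by omega) (by omega) (mem_singleton_self _)
          omega
      subst hkk
      have hss : s = s' := by
        apply ext_inj
        intro j hj
        rcases lt_trichotomy j k with h | h | h
        · have := hr j (by omega)
          rwa [skip_lt k j h] at this
        · rw [h]
          exact hb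
        · have := hr (j - 1) (by omega)
          rwa [skip_ge k (j - 1) (by omega), Nat.sub_add_cancel (by omega)] at this
      subst hss
      rfl
    · intro T
      have hrow : ∀ i j, i ≤ j → j < a → T 0 i ≤ T 0 j := by
        intro i j hij hj
        exact T.row_weak_of_le hij ((mem_twoRow a ha 0 j).mpr (Or.inl ⟨rfl, hj⟩))
      have hcol : T 0 0 < T 1 0 :=
        T.col_strict (by norm_num) ((mem_twoRow a ha 1 0).mpr (Or.inr ⟨rfl, rfl⟩))
      obtain ⟨k, hk, h2⟩ := threshold (fun j => T 0 j < T 1 0) a
        (fun i j hij hj h => lt_of_le_of_lt (hrow i j hij hj) h)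
      have hk1 : 1 ≤ k := by
        have := (h2 0 (by omega)).mp hcol
        omega
      let g : ℕ → ℕ := fun j => if j < k then T 0 j else if j = k then T 1 0 else T 0 (j - 1)
      have hg : IsFundSeq (a + 1) {k} (fun x : Fin (a + 1) => g x) := by
        rw [fund_iff]
        constructor
        · intro x y hxy hy
          rw [ext_mk g x (by omega), ext_mk g y hy]
          simp only [g]
          split_ifs with c1 c2 c3 c4 c5 c6 c7
          · exact hrow x y hxy (by omega)
          · exact ((h2 x (by omega)).mpr c1).le
          · exact hrow x (y - 1) (by omega) (by omega)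
          · omega
          · exact le_rfl
          · have := (h2 (y - 1) (by omega)).not.mpr (by omega)
            omega
          · omega
          · omega
          · exact hrow (x - 1) (y - 1) (by omega) (by omega)
        · intro j hj1 hj2 hj
          rw [mem_singleton] at hj
          subst hj
          rw [ext_mk g (j - 1) (by omega), ext_mk g j hj2]
          simp only [g]
          rw [if_pos (by omega), if_neg (by omega), if_pos trivial]
          exact (h2 (j - 1) (by omega)).mpr (by omega)
      refine ⟨⟨⟨k, by rw [mem_Icc]; omega⟩, _, hg⟩, ?_⟩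
      apply SemistandardYoungTableau.ext
      intro i j
      change ent a k (ext (fun x : Fin (a + 1) => g x)) i j = T i j
      by_cases hi : i = 0 ∧ j < a
      · obtain ⟨rfl, hj⟩ := hi
        rw [ent_row a k _ j hj]
        by_cases hjk : j < k
        · rw [skip_lt k j hjk, ext_mk g _ (by omega)]
          simp only [g]
          rw [if_pos hjk]
        · rw [skip_ge k j (by omega), ext_mk g _ (by omega)]
          simp only [g]
          rw [if_neg (by omega), if_neg (by omega), Nat.add_sub_cancel]
      · by_cases hi2 : i = 1 ∧ j = 0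
        · obtain ⟨rfl, rfl⟩ := hi2
          rw [ent_one, ext_mk g _ (by omega)]
          simp only [g]
          rw [if_neg (by omega), if_pos trivial]
        · rw [ent_zero a k _ i j (by omega)]
          symm
          apply T.zeros
          rw [mem_twoRow]
          omega
  · rintro ⟨⟨k, hk⟩, s, hs⟩
    rw [mem_Icc] at hk
    unfold weight
    rw [sum_cells_twoRow, content_ext, sum_skip _ a k (by omega)]
    congr 1
    refine Finset.sum_congr rfl fun j hj => ?_
    rw [mem_range] at hj
    congr 1
    exact ent_row a k (ext s) j hj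

/-! ### The shape `(2, 1, …, 1)` -/

/-- The tableau of shape `(2, 1, …, 1)` built from a sequence. -/
def cohookT (a : ℕ) (ha : 1 ≤ a) (k : ℕ) (hk1 : 1 ≤ k) (hk2 : k ≤ a) (s : Fin (a + 1) → ℕ)
    (hs : IsFundSeq (a + 1) (co (a + 1) {k}) s) :
    SemistandardYoungTableau (twoRow a ha).transpose where
  entry i j := ent a k (ext s) j i
  row_weak' := by
    intro i j1 j2 hj h
    rw [fund_iff] at hs
    rw [YoungDiagram.mem_transpose, Prod.swap_prod_mk, mem_twoRow] at h
    rcases h with ⟨rfl, h⟩ | ⟨rfl, rfl⟩
    · omega
    · have e : j1 = 0 := by omega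
      subst e
      rw [ent_row a k _ 0 (by omega), ent_one, skip_lt k 0 (by omega)]
      exact hs.1 0 k (by omega) (by omega)
  col_strict' := by
    intro i1 i2 j hi h
    rw [fund_iff] at hs
    rw [YoungDiagram.mem_transpose, Prod.swap_prod_mk, mem_twoRow] at h
    rcases h with ⟨rfl, h⟩ | ⟨rfl, rfl⟩
    · rw [ent_row a k _ i1 (by omega), ent_row a k _ i2 h]
      have hlt : ∀ x y, x < y → y ≤ a → y ≠ k → ext s x < ext s y := by
        intro x y hxy hy hyk
        have g1 := hs.1 x (y - 1) (by omega) (by omega)
        have g2 := hs.2 y (by omega) (by omega) (by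
          rw [mem_co, mem_singleton]
          exact ⟨by omega, hyk⟩)
        omega
      unfold skip
      apply hlt <;> split_ifs <;> omega
    · omega
  zeros' := by
    intro i j h
    rw [YoungDiagram.mem_transpose, Prod.swap_prod_mk, mem_twoRow] at h
    exact ent_zero a k _ j i h

theorem schur_twoRow_tr (a : ℕ) (ha : 1 ≤ a) :
    schur (twoRow a ha).transpose = ∑ E ∈ cosingles (a + 1), fundamental (a + 1) E := by
  have h1 : ∑ E ∈ cosingles (a + 1), fundamental (a + 1) E =
      ∑ x : {x // x ∈ Icc 1 (a + 1 - 1)}, fundamental (a + 1) (co (a + 1) {x.1}) := by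
    unfold cosingles
    rw [Finset.sum_image]
    · exact (Finset.sum_coe_sort (Icc 1 (a + 1 - 1))
        (fun x => fundamental (a + 1) (co (a + 1) {x}))).symm
    · intro x hx y hy h
      have h2 := congrArg (co (a + 1)) h
      rw [co_co _ _ (Finset.singleton_subset_iff.mpr hx),
        co_co _ _ (Finset.singleton_subset_iff.mpr hy)] at h2
      exact Finset.singleton_injective h2
  rw [h1]
  have hX : ∀ x : {x // x ∈ Icc 1 (a + 1 - 1)}, 1 ≤ x.1 ∧ x.1 ≤ a := by
    intro x
    have := x.2
    rw [mem_Icc] at this
    exact ⟨this.1, by omega⟩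
  apply schur_eq (twoRow a ha).transpose (a + 1)
    (fun x : {x // x ∈ Icc 1 (a + 1 - 1)} => (co (a + 1) {x.1} : Finset ℕ))
    (fun y => cohookT a ha y.1.1 (hX y.1).1 (hX y.1).2 y.2.1 y.2.2)
  · constructor
    · rintro ⟨⟨k, hk⟩, s, hs⟩ ⟨⟨k', hk'⟩, s', hs'⟩ e
      rw [mem_Icc] at hk hk'
      have hE : ∀ i j, ent a k (ext s) j i = ent a k' (ext s') j i := by
        intro i j
        exact congrArg (fun T : SemistandardYoungTableau (twoRow a ha).transpose =>
          T.entry i j) e
      have hb : ext s k = ext s' k' := by
        have := hE 0 1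
        rwa [ent_one, ent_one] at this
      have hr : ∀ j < a, ext s (skip k j) = ext s' (skip k' j) := by
        intro j hj
        have := hE j 0
        rwa [ent_row a k _ j hj, ent_row a k' _ j hj] at this
      simp only at hs hs'
      have hs0 := hs
      have hs0' := hs'
      rw [fund_iff] at hs0 hs0'
      have hkk : k = k' := by
        rcases lt_trichotomy k k' with h | h | h
        · exfalso
          have g := hr k (by omega)
          rw [skip_ge k k le_rfl, skip_lt k' k h] at g
          have g1 := hs0.2 (k + 1) (by omega) (by omega) (by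
            rw [mem_co, mem_singleton]
            omega)
          have g2 := hs0'.1 k k' (by omega) (by omega)
          rw [Nat.add_sub_cancel] at g1
          omega
        · exact h
        · exfalso
          have g := hr k' (by omega)
          rw [skip_ge k' k' le_rfl, skip_lt k k' h] at g
          have g1 := hs0'.2 (k' + 1) (by omega) (by omega) (by
            rw [mem_co, mem_singleton]
            omega)
          have g2 := hs0.1 k' k (by omega) (by omega)
          rw [Nat.add_sub_cancel] at g1
          omega
      subst hkk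
      have hss : s = s' := by
        apply ext_inj
        intro j hj
        rcases lt_trichotomy j k with h | h | h
        · have := hr j (by omega)
          rwa [skip_lt k j h] at this
        · rw [h]
          exact hb
        · have := hr (j - 1) (by omega)
          rwa [skip_ge k (j - 1) (by omega), Nat.sub_add_cancel (by omega)] at this
      subst hss
      rfl
    · intro T
      have hcol : ∀ i j, i < j → j < a → T i 0 < T j 0 := by
        intro i j hij hj
        apply T.col_strict hij
        rw [YoungDiagram.mem_transpose, Prod.swap_prod_mk, mem_twoRow]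
        exact Or.inl ⟨rfl, hj⟩
      have hcol' : ∀ i j, i ≤ j → j < a → T i 0 ≤ T j 0 := by
        intro i j hij hj
        rcases Nat.lt_or_ge i j with h | h
        · exact (hcol i j h hj).le
        · rw [show i = j by omega]
      have hrow : T 0 0 ≤ T 0 1 := by
        apply T.row_weak (by norm_num)
        rw [YoungDiagram.mem_transpose, Prod.swap_prod_mk, mem_twoRow]
        exact Or.inr ⟨rfl, rfl⟩
      obtain ⟨k, hk, h2⟩ := threshold (fun j => T j 0 ≤ T 0 1) a
        (fun i j hij hj h => (hcol' i j hij hj).trans h)
      have hk1 : 1 ≤ k := by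
        have := (h2 0 (by omega)).mp hrow
        omega
      let g : ℕ → ℕ := fun j => if j < k then T j 0 else if j = k then T 0 1 else T (j - 1) 0
      have hg : IsFundSeq (a + 1) (co (a + 1) {k}) (fun x : Fin (a + 1) => g x) := by
        rw [fund_iff]
        constructor
        · intro x y hxy hy
          rw [ext_mk g x (by omega), ext_mk g y hy]
          simp only [g]
          split_ifs with c1 c2 c3 c4 c5 c6 c7
          · exact hcol' x y hxy (by omega)
          · exact (h2 x (by omega)).mpr c1
          · exact hcol' x (y - 1) (by omega) (by omega)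
          · omega
          · exact le_rfl
          · have := (h2 (y - 1) (by omega)).not.mpr (by omega)
            omega
          · omega
          · omega
          · exact hcol' (x - 1) (y - 1) (by omega) (by omega)
        · intro j hj1 hj2 hj
          rw [mem_co, mem_singleton] at hj
          rw [ext_mk g (j - 1) (by omega), ext_mk g j hj2]
          simp only [g]
          rcases lt_trichotomy j k with h | h | h
          · rw [if_pos (by omega), if_pos h]
            exact hcol _ _ (by omega) (by omega)
          · exact absurd h hj.2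
          · rw [if_neg (by omega), if_neg (show ¬ j < k by omega), if_neg hj.2]
            by_cases hjk : j - 1 = k
            · rw [if_pos hjk, hjk]
              have := (h2 k (by omega)).not.mpr (by omega)
              omega
            · rw [if_neg hjk]
              exact hcol _ _ (by omega) (by omega)
      refine ⟨⟨⟨k, by rw [mem_Icc]; omega⟩, _, hg⟩, ?_⟩
      apply SemistandardYoungTableau.ext
      intro i j
      change ent a k (ext (fun x : Fin (a + 1) => g x)) j i = T i j
      by_cases hi : j = 0 ∧ i < a
      · obtain ⟨rfl, hj⟩ := hi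
        rw [ent_row a k _ i hj]
        by_cases hjk : i < k
        · rw [skip_lt k i hjk, ext_mk g _ (by omega)]
          simp only [g]
          rw [if_pos hjk]
        · rw [skip_ge k i (by omega), ext_mk g _ (by omega)]
          simp only [g]
          rw [if_neg (by omega), if_neg (by omega), Nat.add_sub_cancel]
      · by_cases hi2 : j = 1 ∧ i = 0
        · obtain ⟨rfl, rfl⟩ := hi2
          rw [ent_one, ext_mk g _ (by omega)]
          simp only [g]
          rw [if_neg (by omega), if_pos trivial]
        · rw [ent_zero a k _ j i (by omega)]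
          symm
          apply T.zeros
          rw [YoungDiagram.mem_transpose, Prod.swap_prod_mk, mem_twoRow]
          omega
  · rintro ⟨⟨k, hk⟩, s, hs⟩
    rw [mem_Icc] at hk
    unfold weight
    rw [sum_cells_twoRow_tr, content_ext, sum_skip _ a k (by omega)]
    congr 1
    refine Finset.sum_congr rfl fun j hj => ?_
    rw [mem_range] at hj
    congr 1
    exact ent_row a k (ext s) j hj

end Q162SS
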