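import Pool.Agent.Q162.SymSet.Core

/-!
# Pair statistics and the extremal case
-/

namespace Q162SS

open Finset

/-! ### Special compositions -/

/-- Ones with a two merging `x, x+1`: the partial sums miss exactly `x`. -/
def L1 (n x : ℕ) : List ℕ := List.replicate (x - 1) 1 ++ 2 :: List.replicate (n - 1 - x) 1

/-- Ones with a three: the partial sums miss exactly `x, x+1`. -/
def L3 (n x : ℕ) : List ℕ := List.replicate (x - 1) 1 ++ 3 :: List.replicate (n - 2 - x) 1

/-- Ones with two twos: the partial sums miss exactly `x` and `y`. -/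
def L2 (n x y : ℕ) : List ℕ :=
  List.replicate (x - 1) 1 ++ 2 :: (List.replicate (y - x - 2) 1 ++ 2 :: List.replicate (n - 1 - y) 1)

theorem mem_ps_L1 (n x z : ℕ) (h1 : 1 ≤ x) (h2 : x ≤ n - 1) (hz : 1 ≤ z) (hz2 : z ≤ n - 1) :
    z ∈ ps 0 (L1 n x) ↔ z ≠ x := by
  unfold L1
  rw [ps_append, mem_union, mem_ps_ones, List.sum_replicate, ps_cons, mem_insert, mem_ps_ones]
  simp only [smul_eq_mul, mul_one, zero_add]
  omega

theorem mem_ps_L3 (n x z : ℕ) (h1 : 1 ≤ x) (h2 : x + 1 ≤ n - 1) (hz : 1 ≤ z) (hz2 : z ≤ n - 1) :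
    z ∈ ps 0 (L3 n x) ↔ z ≠ x ∧ z ≠ x + 1 := by
  unfold L3
  rw [ps_append, mem_union, mem_ps_ones, List.sum_replicate, ps_cons, mem_insert, mem_ps_ones]
  simp only [smul_eq_mul, mul_one, zero_add]
  omega

theorem mem_ps_L2 (n x y z : ℕ) (h1 : 1 ≤ x) (h2 : x + 2 ≤ y) (h3 : y ≤ n - 1) (hz : 1 ≤ z)
    (hz2 : z ≤ n - 1) : z ∈ ps 0 (L2 n x y) ↔ z ≠ x ∧ z ≠ y := by
  unfold L2
  rw [ps_append, mem_union, mem_ps_ones, List.sum_replicate, ps_cons, mem_insert, ps_append,
    mem_union, mem_ps_ones, List.sum_replicate, ps_cons, mem_insert, mem_ps_ones]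
  simp only [smul_eq_mul, mul_one, zero_add]
  omega

theorem L1_pos (n x : ℕ) : ∀ a ∈ L1 n x, 0 < a := by
  intro a ha
  unfold L1 at ha
  rw [List.mem_append, List.mem_cons] at ha
  rcases ha with h | h | h
  · rw [List.eq_of_mem_replicate h]
    norm_num
  · omega
  · rw [List.eq_of_mem_replicate h]
    norm_num

theorem L3_pos (n x : ℕ) : ∀ a ∈ L3 n x, 0 < a := by
  intro a ha
  unfold L3 at ha
  rw [List.mem_append, List.mem_cons] at ha
  rcases ha with h | h | h
  · rw [List.eq_of_mem_replicate h]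
    norm_num
  · omega
  · rw [List.eq_of_mem_replicate h]
    norm_num

theorem L2_pos (n x y : ℕ) : ∀ a ∈ L2 n x y, 0 < a := by
  intro a ha
  unfold L2 at ha
  rw [List.mem_append, List.mem_cons, List.mem_append, List.mem_cons] at ha
  rcases ha with h | h | h | h | h
  · rw [List.eq_of_mem_replicate h]
    norm_num
  · omega
  · rw [List.eq_of_mem_replicate h]
    norm_num
  · omega
  · rw [List.eq_of_mem_replicate h]
    norm_num

theorem L1_sum (n x : ℕ) (h1 : 1 ≤ x) (h2 : x ≤ n - 1) : (L1 n x).sum = n := by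
  unfold L1
  simp only [List.sum_append, List.sum_cons, List.sum_replicate, smul_eq_mul, mul_one]
  omega

theorem L3_sum (n x : ℕ) (h1 : 1 ≤ x) (h2 : x + 1 ≤ n - 1) : (L3 n x).sum = n := by
  unfold L3
  simp only [List.sum_append, List.sum_cons, List.sum_replicate, smul_eq_mul, mul_one]
  omega

theorem L2_sum (n x y : ℕ) (h1 : 1 ≤ x) (h2 : x + 2 ≤ y) (h3 : y ≤ n - 1) :
    (L2 n x y).sum = n := by
  unfold L2
  simp only [List.sum_append, List.sum_cons, List.sum_replicate, smul_eq_mul, mul_one]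
  omega

theorem L1_perm (n x : ℕ) (h1 : 1 ≤ x) (h2 : x ≤ n - 1) :
    (L1 n x).Perm (2 :: List.replicate (n - 2) 1) := by
  unfold L1
  refine List.perm_middle.trans ?_
  rw [List.replicate_append_replicate, show x - 1 + (n - 1 - x) = n - 2 by omega]

theorem L3_perm (n x : ℕ) (h1 : 1 ≤ x) (h2 : x + 1 ≤ n - 1) :
    (L3 n x).Perm (3 :: List.replicate (n - 3) 1) := by
  unfold L3
  refine List.perm_middle.trans ?_
  rw [List.replicate_append_replicate, show x - 1 + (n - 2 - x) = n - 3 by omega]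

theorem L2_perm (n x y : ℕ) (h1 : 1 ≤ x) (h2 : x + 2 ≤ y) (h3 : y ≤ n - 1) :
    (L2 n x y).Perm (2 :: 2 :: List.replicate (n - 4) 1) := by
  unfold L2
  refine List.perm_middle.trans ?_
  apply List.Perm.cons
  rw [← List.append_assoc, List.replicate_append_replicate]
  refine List.perm_middle.trans ?_
  rw [List.replicate_append_replicate, show x - 1 + (y - x - 2) + (n - 1 - y) = n - 4 by omega]

/-! ### Pair statistics -/

/-- Numbers of members containing one element, an adjacent pair, a nonadjacent pair. -/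
structure PairData {ι : Type*} (n : ℕ) (A : ι → Finset ℕ) (d e' e : ℕ) : Prop where
  one : ∀ x, 1 ≤ x → x ≤ n - 1 → Nat.card {i // x ∈ A i} = d
  adj : ∀ x, 1 ≤ x → x + 1 ≤ n - 1 → Nat.card {i // x ∈ A i ∧ x + 1 ∈ A i} = e'
  non : ∀ x y, 1 ≤ x → x + 2 ≤ y → y ≤ n - 1 → Nat.card {i // x ∈ A i ∧ y ∈ A i} = e

/-- The complement in `{1, …, n-1}`. -/
def co (n : ℕ) (E : Finset ℕ) : Finset ℕ := Icc 1 (n - 1) \ E

theorem mem_co (n : ℕ) (E : Finset ℕ) (x : ℕ) : x ∈ co n E ↔ (1 ≤ x ∧ x ≤ n - 1) ∧ x ∉ E := by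
  unfold co
  rw [mem_sdiff, mem_Icc]

theorem sub_L1 (n x : ℕ) (h1 : 1 ≤ x) (h2 : x ≤ n - 1) (E : Finset ℕ) (hE : E ⊆ Icc 1 (n - 1)) :
    E ⊆ ps 0 (L1 n x) ↔ x ∉ E := by
  constructor
  · intro h hx
    exact (mem_ps_L1 n x x h1 h2 h1 h2).mp (h hx) rfl
  · intro h z hz
    have hz' := hE hz
    rw [mem_Icc] at hz'
    exact (mem_ps_L1 n x z h1 h2 hz'.1 hz'.2).mpr (fun e => h (e ▸ hz))

theorem sub_L3 (n x : ℕ) (h1 : 1 ≤ x) (h2 : x + 1 ≤ n - 1) (E : Finset ℕ)
    (hE : E ⊆ Icc 1 (n - 1)) : E ⊆ ps 0 (L3 n x) ↔ x ∉ E ∧ x + 1 ∉ E := by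
  constructor
  · intro h
    constructor
    · intro hx
      exact ((mem_ps_L3 n x x h1 h2 h1 (by omega)).mp (h hx)).1 rfl
    · intro hx
      exact ((mem_ps_L3 n x (x + 1) h1 h2 (by omega) h2).mp (h hx)).2 rfl
  · intro h z hz
    have hz' := hE hz
    rw [mem_Icc] at hz'
    exact (mem_ps_L3 n x z h1 h2 hz'.1 hz'.2).mpr ⟨fun e => h.1 (e ▸ hz), fun e => h.2 (e ▸ hz)⟩

theorem sub_L2 (n x y : ℕ) (h1 : 1 ≤ x) (h2 : x + 2 ≤ y) (h3 : y ≤ n - 1) (E : Finset ℕ)
    (hE : E ⊆ Icc 1 (n - 1)) : E ⊆ ps 0 (L2 n x y) ↔ x ∉ E ∧ y ∉ E := by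
  constructor
  · intro h
    constructor
    · intro hx
      exact ((mem_ps_L2 n x y x h1 h2 h3 h1 (by omega)).mp (h hx)).1 rfl
    · intro hx
      exact ((mem_ps_L2 n x y y h1 h2 h3 (by omega) h3).mp (h hx)).2 rfl
  · intro h z hz
    have hz' := hE hz
    rw [mem_Icc] at hz'
    exact (mem_ps_L2 n x y z h1 h2 h3 hz'.1 hz'.2).mpr
      ⟨fun e => h.1 (e ▸ hz), fun e => h.2 (e ▸ hz)⟩

theorem pair_co {ι : Type*} [Finite ι] (n : ℕ) (D : ι → Finset ℕ) (hD : InRange n D)
    (h : SymData n D) : PairData n (fun i => co n (D i))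
      (cnt D (2 :: List.replicate (n - 2) 1)) (cnt D (3 :: List.replicate (n - 3) 1))
      (cnt D (2 :: 2 :: List.replicate (n - 4) 1)) := by
  refine ⟨?_, ?_, ?_⟩
  · intro x h1 h2
    rw [← h (L1 n x) _ (L1_pos n x) (L1_sum n x h1 h2) (L1_perm n x h1 h2)]
    unfold cnt
    apply Nat.card_congr
    apply Equiv.subtypeEquivRight
    intro i
    rw [sub_L1 n x h1 h2 (D i) (hD i), mem_co]
    tauto
  · intro x h1 h2
    rw [← h (L3 n x) _ (L3_pos n x) (L3_sum n x h1 h2) (L3_perm n x h1 h2)]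
    unfold cnt
    apply Nat.card_congr
    apply Equiv.subtypeEquivRight
    intro i
    rw [sub_L3 n x h1 h2 (D i) (hD i), mem_co, mem_co]
    constructor
    · rintro ⟨h3, h4⟩
      exact ⟨h3.2, h4.2⟩
    · rintro ⟨h3, h4⟩
      exact ⟨⟨⟨h1, by omega⟩, h3⟩, ⟨⟨by omega, h2⟩, h4⟩⟩
  · intro x y h1 h2 h3
    rw [← h (L2 n x y) _ (L2_pos n x y) (L2_sum n x y h1 h2 h3) (L2_perm n x y h1 h2 h3)]
    unfold cnt
    apply Nat.card_congr
    apply Equiv.subtypeEquivRight
    intro i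
    rw [sub_L2 n x y h1 h2 h3 (D i) (hD i), mem_co, mem_co]
    constructor
    · rintro ⟨h4, h5⟩
      exact ⟨h4.2, h5.2⟩
    · rintro ⟨h4, h5⟩
      exact ⟨⟨⟨h1, by omega⟩, h4⟩, ⟨⟨by omega, h3⟩, h5⟩⟩

/-- Inclusion-exclusion for two properties. -/
theorem incl_excl {ι : Type*} [Finite ι] (p q : ι → Prop) :
    Nat.card {i // p i ∧ q i} + Nat.card {i // ¬ p i} + Nat.card {i // ¬ q i} =
      Nat.card ι + Nat.card {i // ¬ p i ∧ ¬ q i} := by
  have h1 := card_split p (fun _ => True)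
  have h2 := card_split q (fun i => p i)
  have h3 := card_split p (fun i => ¬ q i)
  have e1 : Nat.card {i : ι // True} = Nat.card ι := Nat.card_congr (Equiv.subtypeUnivEquiv (fun _ => trivial))
  have e2 : Nat.card {i // p i ∧ True} = Nat.card {i // p i} := by simp
  have e3 : Nat.card {i // ¬ p i ∧ True} = Nat.card {i // ¬ p i} := by simp
  have e4 : Nat.card {i // q i ∧ p i} = Nat.card {i // p i ∧ q i} := by
    apply Nat.card_congr
    apply Equiv.subtypeEquivRight
    intro i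
    tauto
  have e5 : Nat.card {i // ¬ q i ∧ p i} = Nat.card {i // p i ∧ ¬ q i} := by
    apply Nat.card_congr
    apply Equiv.subtypeEquivRight
    intro i
    tauto
  omega

theorem compl_count {ι : Type*} [Finite ι] (p : ι → Prop) :
    Nat.card {i // p i} + Nat.card {i // ¬ p i} = Nat.card ι := by
  have h1 := card_split p (fun _ => True)
  have e1 : Nat.card {i : ι // True} = Nat.card ι := Nat.card_congr (Equiv.subtypeUnivEquiv (fun _ => trivial))
  have e2 : Nat.card {i // p i ∧ True} = Nat.card {i // p i} := by simp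
  have e3 : Nat.card {i // ¬ p i ∧ True} = Nat.card {i // ¬ p i} := by simp
  omega

theorem pair_of_co {ι : Type*} [Finite ι] (n : ℕ) (D : ι → Finset ℕ)
    (d e' e : ℕ) (h : PairData n (fun i => co n (D i)) d e' e) (hn : 4 ≤ n) :
    ∃ d₂ e₂' e₂ : ℕ, PairData n D d₂ e₂' e₂ ∧ d₂ + d = Nat.card ι := by
  have hone : ∀ x, 1 ≤ x → x ≤ n - 1 → Nat.card {i // ¬ x ∈ D i} = d := by
    intro x h1 h2
    rw [← h.one x h1 h2]
    apply Nat.card_congr
    apply Equiv.subtypeEquivRight
    intro i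
    rw [mem_co]
    tauto
  have hadj : ∀ x, 1 ≤ x → x + 1 ≤ n - 1 → Nat.card {i // ¬ x ∈ D i ∧ ¬ x + 1 ∈ D i} = e' := by
    intro x h1 h2
    rw [← h.adj x h1 h2]
    apply Nat.card_congr
    apply Equiv.subtypeEquivRight
    intro i
    rw [mem_co, mem_co]
    constructor
    · rintro ⟨h4, h5⟩
      exact ⟨⟨⟨h1, by omega⟩, h4⟩, ⟨⟨by omega, h2⟩, h5⟩⟩
    · rintro ⟨h4, h5⟩
      exact ⟨h4.2, h5.2⟩
  have hnon : ∀ x y, 1 ≤ x → x + 2 ≤ y → y ≤ n - 1 →
      Nat.card {i // ¬ x ∈ D i ∧ ¬ y ∈ D i} = e := by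
    intro x y h1 h2 h3
    rw [← h.non x y h1 h2 h3]
    apply Nat.card_congr
    apply Equiv.subtypeEquivRight
    intro i
    rw [mem_co, mem_co]
    constructor
    · rintro ⟨h4, h5⟩
      exact ⟨⟨⟨h1, by omega⟩, h4⟩, ⟨⟨by omega, h3⟩, h5⟩⟩
    · rintro ⟨h4, h5⟩
      exact ⟨h4.2, h5.2⟩
  have hd : d ≤ Nat.card ι := by
    rw [← hone 1 le_rfl (by omega)]
    have := compl_count (fun i : ι => 1 ∈ D i)
    omega
  refine ⟨Nat.card ι - d, Nat.card ι + e' - 2 * d, Nat.card ι + e - 2 * d, ⟨?_, ?_, ?_⟩, by omega⟩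
  · intro x h1 h2
    have := compl_count (fun i : ι => x ∈ D i)
    have := hone x h1 h2
    omega
  · intro x h1 h2
    have g1 := incl_excl (fun i : ι => x ∈ D i) (fun i => x + 1 ∈ D i)
    have g2 := hone x h1 (by omega)
    have g3 := hone (x + 1) (by omega) h2
    have g4 := hadj x h1 h2
    omega
  · intro x y h1 h2 h3
    have g1 := incl_excl (fun i : ι => x ∈ D i) (fun i => y ∈ D i)
    have g2 := hone x h1 (by omega)
    have g3 := hone y (by omega) h3
    have g4 := hnon x y h1 h2 h3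
    omega

/-! ### The extremal case -/

theorem not_of_card_zero {ι : Type*} [Finite ι] (p : ι → Prop) (h : Nat.card {i // p i} = 0) (i : ι) :
    ¬ p i := by
  intro hi
  have : Nonempty {i // p i} := ⟨⟨i, hi⟩⟩
  have := Nat.card_pos (α := {i // p i})
  omega

theorem card_imp {ι : Type*} [Finite ι] (p q : ι → Prop) (h : ∀ i, p i → q i) :
    Nat.card {i // p i} ≤ Nat.card {i // q i} :=
  Nat.card_le_card_of_injective (Subtype.map id h) (Subtype.map_injective h Function.injective_id)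

/-- The final count. -/
theorem extremal {ι : Type*} [Finite ι] (n : ℕ) (hn : 4 ≤ n) (A : ι → Finset ℕ)
    (hA : InRange n A) (hne : ∀ i, A i ≠ ∅) (d e' : ℕ) (h : PairData n A d e' 0)
    (hpos : 0 < Nat.card ι) (hle : Nat.card ι ≤ n - 1) :
    Nat.card ι = n - 1 ∧ ∀ x, 1 ≤ x → x ≤ n - 1 → Nat.card {i // A i = {x}} = 1 := by
  classical
  have := Fintype.ofFinite ι
  -- the shape of the members
  have hshape : ∀ i, ∃ m, 1 ≤ m ∧ m ≤ n - 1 ∧ m ∈ A i ∧ ∀ y ∈ A i, y = m ∨ y = m + 1 := by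
    intro i
    have hne' : (A i).Nonempty := Finset.nonempty_iff_ne_empty.mpr (hne i)
    have hm := Finset.min'_mem (A i) hne'
    have hm2 := hA i hm
    rw [mem_Icc] at hm2
    refine ⟨(A i).min' hne', hm2.1, hm2.2, hm, ?_⟩
    intro y hy
    have h1 := Finset.min'_le (A i) y hy
    have hy2 := hA i hy
    rw [mem_Icc] at hy2
    by_contra hcon
    push Not at hcon
    have h2 := h.non ((A i).min' hne') y hm2.1 (by omega) hy2.2
    exact not_of_card_zero _ h2 i ⟨hm, hy⟩
  -- counting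
  have hsum1 : ∑ i, (A i).card = (n - 1) * d := by
    have h1 : ∀ i, (A i).card = ∑ x ∈ Icc 1 (n - 1), if x ∈ A i then 1 else 0 := by
      intro i
      rw [Finset.sum_ite_mem, Finset.sum_const, smul_eq_mul, mul_one,
        Finset.inter_eq_right.mpr (hA i)]
    simp only [h1]
    rw [Finset.sum_comm]
    have h2 : ∀ x ∈ Icc 1 (n - 1), ∑ i : ι, (if x ∈ A i then 1 else 0) = d := by
      intro x hx
      rw [mem_Icc] at hx
      rw [← Finset.card_filter, ← h.one x hx.1 hx.2, Nat.card_eq_fintype_card,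
        Fintype.card_subtype]
    rw [Finset.sum_congr rfl h2, Finset.sum_const, smul_eq_mul, Nat.card_Icc]
    congr 1
  have hsum2 : ∑ i, ((Icc 1 (n - 2)).filter (fun x => x ∈ A i ∧ x + 1 ∈ A i)).card =
      (n - 2) * e' := by
    have h1 : ∀ i, ((Icc 1 (n - 2)).filter (fun x => x ∈ A i ∧ x + 1 ∈ A i)).card =
        ∑ x ∈ Icc 1 (n - 2), if x ∈ A i ∧ x + 1 ∈ A i then 1 else 0 := by
      intro i
      rw [Finset.card_filter]
    simp only [h1]
    rw [Finset.sum_comm]
    have h2 : ∀ x ∈ Icc 1 (n - 2), ∑ i : ι, (if x ∈ A i ∧ x + 1 ∈ A i then 1 else 0) = e' := by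
      intro x hx
      rw [mem_Icc] at hx
      rw [← Finset.card_filter, ← h.adj x hx.1 (by omega), Nat.card_eq_fintype_card,
        Fintype.card_subtype]
    rw [Finset.sum_congr rfl h2, Finset.sum_const, smul_eq_mul, Nat.card_Icc]
    congr 1
  have hcard : ∀ i, (A i).card = 1 +
      ((Icc 1 (n - 2)).filter (fun x => x ∈ A i ∧ x + 1 ∈ A i)).card := by
    intro i
    obtain ⟨m, hm1, hm2, hm3, hm4⟩ := hshape i
    by_cases hm5 : m + 1 ∈ A i
    · have hm6 := hA i hm5
      rw [mem_Icc] at hm6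
      have e1 : A i = {m, m + 1} := by
        ext y
        rw [mem_insert, mem_singleton]
        constructor
        · exact hm4 y
        · rintro (rfl | rfl)
          · exact hm3
          · exact hm5
      have e2 : (Icc 1 (n - 2)).filter (fun x => x ∈ A i ∧ x + 1 ∈ A i) = {m} := by
        ext y
        rw [mem_filter, mem_Icc, mem_singleton]
        constructor
        · rintro ⟨_, h1, h2⟩
          have g1 := hm4 y h1
          have g2 := hm4 (y + 1) h2
          omega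
        · rintro rfl
          exact ⟨⟨hm1, by omega⟩, hm3, hm5⟩
      rw [e2, e1, Finset.card_pair (by omega), Finset.card_singleton]
    · have e1 : A i = {m} := by
        ext y
        rw [mem_singleton]
        constructor
        · intro hy
          rcases hm4 y hy with h1 | h1
          · exact h1
          · exact absurd (h1 ▸ hy) hm5
        · rintro rfl
          exact hm3
      have e2 : (Icc 1 (n - 2)).filter (fun x => x ∈ A i ∧ x + 1 ∈ A i) = ∅ := by
        rw [Finset.eq_empty_iff_forall_notMem]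
        intro y hy
        rw [mem_filter] at hy
        have g1 := hm4 y hy.2.1
        have g2 := hm4 (y + 1) hy.2.2
        have g3 : y = m := by omega
        rw [g3] at hy
        exact hm5 hy.2.2
      rw [e2, e1, Finset.card_singleton, Finset.card_empty]
  have hmain : (n - 1) * d = Nat.card ι + (n - 2) * e' := by
    rw [← hsum1, ← hsum2, Finset.sum_congr rfl (fun i _ => hcard i), Finset.sum_add_distrib,
      Finset.sum_const, smul_eq_mul, mul_one, Finset.card_univ, Nat.card_eq_fintype_card]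
  -- interior elements
  have h2e : 2 * e' ≤ d := by
    have h1 := h.one 2 (by norm_num) (by omega)
    have h2 := h.adj 1 le_rfl (by omega)
    have h3 := h.adj 2 (by norm_num) (by omega)
    have g1 := card_split (fun i => 1 ∈ A i) (fun i => 2 ∈ A i)
    have g2 : Nat.card {i // 2 ∈ A i ∧ 2 + 1 ∈ A i} ≤ Nat.card {i // ¬ 1 ∈ A i ∧ 2 ∈ A i} := by
      apply card_imp
      rintro i ⟨h6, h7⟩
      refine ⟨fun h1' => ?_, h6⟩
      have h5 := h.non 1 3 le_rfl (by norm_num) (by omega)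
      exact not_of_card_zero _ h5 i ⟨h1', h7⟩
    have g3 : Nat.card {i // 1 ∈ A i ∧ 1 + 1 ∈ A i} = Nat.card {i // 1 ∈ A i ∧ 2 ∈ A i} := rfl
    omega
  obtain ⟨k, rfl⟩ : ∃ k, n = k + 4 := ⟨n - 4, by omega⟩
  have e1 : k + 4 - 1 = k + 3 := by omega
  have e2 : k + 4 - 2 = k + 2 := by omega
  rw [e1] at hmain hle
  rw [e2] at hmain
  have he' : e' = 0 := by
    by_contra hcon
    have h3 : 1 ≤ e' := Nat.pos_of_ne_zero hcon
    have h4 : (k + 3) * (2 * e') ≤ (k + 3) * d := Nat.mul_le_mul_left _ h2e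
    nlinarith
  rw [he', mul_zero, add_zero] at hmain
  have hd : d = 1 := by
    rcases Nat.lt_or_ge d 1 with h3 | h3
    · have : d = 0 := by omega
      rw [this] at hmain
      omega
    · by_contra hcon
      have h4 : 2 ≤ d := by omega
      have h5 : (k + 3) * 2 ≤ (k + 3) * d := Nat.mul_le_mul_left _ h4
      omega
  refine ⟨by rw [← hmain, hd]; omega, ?_⟩
  intro x hx1 hx2
  rw [← hd, ← h.one x hx1 hx2]
  apply Nat.card_congr
  apply Equiv.subtypeEquivRight
  intro i
  constructor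
  · intro h3
    rw [h3]
    simp
  · intro h3
    obtain ⟨m, hm1, hm2, hm3, hm4⟩ := hshape i
    have hm5 : m + 1 ∉ A i := by
      intro h4
      have hm6 := hA i h4
      rw [mem_Icc] at hm6
      have h5 := h.adj m hm1 hm6.2
      rw [he'] at h5
      exact not_of_card_zero _ h5 i ⟨hm3, h4⟩
    have e3 : x = m := by
      rcases hm4 x h3 with h4 | h4
      · exact h4
      · exact absurd (h4 ▸ h3) hm5
    ext y
    rw [mem_singleton]
    constructor
    · intro hy
      rcases hm4 y hy with h4 | h4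
      · rw [h4, e3]
      · exact absurd (h4 ▸ hy) hm5
    · rintro rfl
      exact h3

end Q162SS
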