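import Pool.Agent.Q162.SymSet.Hook

/-!
# The Schur functions of the shapes `(3, 3)` and `(2, 2, 2)`
-/

namespace Q162SS

open Finset

/-- The Young diagram of the partition `(3, 3)`. -/
def mu33 : YoungDiagram := YoungDiagram.ofRowLens [3, 3] (by
  rw [List.sortedGE_iff_pairwise]
  simp)

theorem mem_mu33 (i j : ℕ) : (i, j) ∈ mu33 ↔ i < 2 ∧ j < 3 := by
  unfold mu33
  rw [YoungDiagram.mem_ofRowLens]
  constructor
  · rintro ⟨h1, h2⟩
    simp only [List.length_cons, List.length_nil] at h1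
    rcases i with _ | _ | i
    · exact ⟨by norm_num, by simpa using h2⟩
    · exact ⟨by norm_num, by simpa using h2⟩
    · omega
  · rintro ⟨h1, h2⟩
    refine ⟨by simpa using h1, ?_⟩
    rcases i with _ | _ | i
    · simpa using h2
    · simpa using h2
    · omega

theorem cells_mu33 : mu33.cells = {(0, 0), (0, 1), (0, 2), (1, 0), (1, 1), (1, 2)} := by
  ext ⟨i, j⟩
  rw [YoungDiagram.mem_cells, mem_mu33]
  simp only [mem_insert, mem_singleton, Prod.mk.injEq]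
  omega

theorem cells_mu33_tr :
    mu33.transpose.cells = {(0, 0), (1, 0), (2, 0), (0, 1), (1, 1), (2, 1)} := by
  ext ⟨i, j⟩
  rw [YoungDiagram.mem_cells, YoungDiagram.mem_transpose, Prod.swap_prod_mk, mem_mu33]
  simp only [mem_insert, mem_singleton, Prod.mk.injEq]
  omega

theorem card_mu33 : mu33.card = 6 := by
  change mu33.cells.card = 6
  rw [cells_mu33]
  rfl

theorem card_mu33_tr : mu33.transpose.card = 6 := by
  change mu33.transpose.cells.card = 6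
  rw [cells_mu33_tr]
  rfl

theorem sum_mu33 {M : Type*} [AddCommMonoid M] (f : ℕ × ℕ → M) : ∑ c ∈ mu33.cells, f c =
    f (0, 0) + (f (0, 1) + (f (0, 2) + (f (1, 0) + (f (1, 1) + f (1, 2))))) := by
  rw [cells_mu33, Finset.sum_insert (by decide), Finset.sum_insert (by decide),
    Finset.sum_insert (by decide), Finset.sum_insert (by decide), Finset.sum_insert (by decide),
    Finset.sum_singleton]

theorem sum_mu33_tr {M : Type*} [AddCommMonoid M] (f : ℕ × ℕ → M) :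
    ∑ c ∈ mu33.transpose.cells, f c =
    f (0, 0) + (f (1, 0) + (f (2, 0) + (f (0, 1) + (f (1, 1) + f (2, 1))))) := by
  rw [cells_mu33_tr, Finset.sum_insert (by decide), Finset.sum_insert (by decide),
    Finset.sum_insert (by decide), Finset.sum_insert (by decide), Finset.sum_insert (by decide),
    Finset.sum_singleton]

/-- Six entries in two rows. -/
def tab (v : Fin 6 → ℕ) (i j : ℕ) : ℕ :=
  if i = 0 ∧ j = 0 then v 0 else if i = 0 ∧ j = 1 then v 1 else if i = 0 ∧ j = 2 then v 2 else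
  if i = 1 ∧ j = 0 then v 3 else if i = 1 ∧ j = 1 then v 4 else if i = 1 ∧ j = 2 then v 5 else 0

/-- A tableau of shape `(3, 3)` from its six entries. -/
def mk33 (v : Fin 6 → ℕ) (h : v 0 ≤ v 1 ∧ v 1 ≤ v 2 ∧ v 3 ≤ v 4 ∧ v 4 ≤ v 5 ∧
    v 0 < v 3 ∧ v 1 < v 4 ∧ v 2 < v 5) : SemistandardYoungTableau mu33 where
  entry := tab v
  row_weak' := by
    intro i j1 j2 hj hc
    rw [mem_mu33] at hc
    obtain ⟨hi, hj2⟩ := hc
    obtain ⟨h1, h2, h3, h4, h5, h6, h7⟩ := h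
    interval_cases i <;> interval_cases j2 <;> interval_cases j1 <;> simp [tab] <;> omega
  col_strict' := by
    intro i1 i2 j hi hc
    rw [mem_mu33] at hc
    obtain ⟨hi2, hj⟩ := hc
    obtain ⟨h1, h2, h3, h4, h5, h6, h7⟩ := h
    interval_cases i2 <;> interval_cases i1 <;> interval_cases j <;> simp [tab] <;> omega
  zeros' := by
    intro i j hc
    rw [mem_mu33] at hc
    unfold tab
    rw [if_neg (by omega), if_neg (by omega), if_neg (by omega), if_neg (by omega),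
      if_neg (by omega), if_neg (by omega)]

/-- A tableau of shape `(2, 2, 2)` from its six entries. -/
def mk222 (v : Fin 6 → ℕ) (h : v 0 < v 1 ∧ v 1 < v 2 ∧ v 3 < v 4 ∧ v 4 < v 5 ∧
    v 0 ≤ v 3 ∧ v 1 ≤ v 4 ∧ v 2 ≤ v 5) : SemistandardYoungTableau mu33.transpose where
  entry i j := tab v j i
  row_weak' := by
    intro i j1 j2 hj hc
    rw [YoungDiagram.mem_transpose, Prod.swap_prod_mk, mem_mu33] at hc
    obtain ⟨hj2, hi⟩ := hc
    obtain ⟨h1, h2, h3, h4, h5, h6, h7⟩ := h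
    interval_cases i <;> interval_cases j2 <;> interval_cases j1 <;> simp [tab] <;> omega
  col_strict' := by
    intro i1 i2 j hi hc
    rw [YoungDiagram.mem_transpose, Prod.swap_prod_mk, mem_mu33] at hc
    obtain ⟨hj, hi2⟩ := hc
    obtain ⟨h1, h2, h3, h4, h5, h6, h7⟩ := h
    interval_cases i2 <;> interval_cases i1 <;> interval_cases j <;> simp [tab] <;> omega
  zeros' := by
    intro i j hc
    rw [YoungDiagram.mem_transpose, Prod.swap_prod_mk, mem_mu33] at hc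
    unfold tab
    rw [if_neg (by omega), if_neg (by omega), if_neg (by omega), if_neg (by omega),
      if_neg (by omega), if_neg (by omega)]

/-- The entries of a tableau of shape `(3, 3)`. -/
def en33 (T : SemistandardYoungTableau mu33) : Fin 6 → ℕ :=
  ![T 0 0, T 0 1, T 0 2, T 1 0, T 1 1, T 1 2]

/-- The entries of a tableau of shape `(2, 2, 2)`. -/
def en222 (T : SemistandardYoungTableau mu33.transpose) : Fin 6 → ℕ :=
  ![T 0 0, T 1 0, T 2 0, T 0 1, T 1 1, T 2 1]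

theorem en33_mk (v : Fin 6 → ℕ) (h) : en33 (mk33 v h) = v := by
  funext x
  fin_cases x <;> rfl

theorem en222_mk (v : Fin 6 → ℕ) (h) : en222 (mk222 v h) = v := by
  funext x
  fin_cases x <;> rfl

theorem en33_inj (T T' : SemistandardYoungTableau mu33) (h : en33 T = en33 T') : T = T' := by
  apply SemistandardYoungTableau.ext
  intro i j
  by_cases hc : (i, j) ∈ mu33
  · rw [mem_mu33] at hc
    obtain ⟨hi, hj⟩ := hc
    have h0 : T 0 0 = T' 0 0 := congrFun h 0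
    have h1 : T 0 1 = T' 0 1 := congrFun h 1
    have h2 : T 0 2 = T' 0 2 := congrFun h 2
    have h3 : T 1 0 = T' 1 0 := congrFun h 3
    have h4 : T 1 1 = T' 1 1 := congrFun h 4
    have h5 : T 1 2 = T' 1 2 := congrFun h 5
    interval_cases i <;> interval_cases j <;> assumption
  · rw [T.zeros hc, T'.zeros hc]

theorem en222_inj (T T' : SemistandardYoungTableau mu33.transpose) (h : en222 T = en222 T') :
    T = T' := by
  apply SemistandardYoungTableau.ext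
  intro i j
  by_cases hc : (i, j) ∈ mu33.transpose
  · rw [YoungDiagram.mem_transpose, Prod.swap_prod_mk, mem_mu33] at hc
    obtain ⟨hi, hj⟩ := hc
    have h0 : T 0 0 = T' 0 0 := congrFun h 0
    have h1 : T 1 0 = T' 1 0 := congrFun h 1
    have h2 : T 2 0 = T' 2 0 := congrFun h 2
    have h3 : T 0 1 = T' 0 1 := congrFun h 3
    have h4 : T 1 1 = T' 1 1 := congrFun h 4
    have h5 : T 2 1 = T' 2 1 := congrFun h 5
    interval_cases i <;> interval_cases j <;> assumption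
  · rw [T.zeros hc, T'.zeros hc]

theorem en33_ineq (T : SemistandardYoungTableau mu33) :
    T 0 0 ≤ T 0 1 ∧ T 0 1 ≤ T 0 2 ∧ T 1 0 ≤ T 1 1 ∧ T 1 1 ≤ T 1 2 ∧
    T 0 0 < T 1 0 ∧ T 0 1 < T 1 1 ∧ T 0 2 < T 1 2 := by
  refine ⟨?_, ?_, ?_, ?_, ?_, ?_, ?_⟩
  · exact T.row_weak (by norm_num) ((mem_mu33 _ _).mpr (by norm_num))
  · exact T.row_weak (by norm_num) ((mem_mu33 _ _).mpr (by norm_num))
  · exact T.row_weak (by norm_num) ((mem_mu33 _ _).mpr (by norm_num))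
  · exact T.row_weak (by norm_num) ((mem_mu33 _ _).mpr (by norm_num))
  · exact T.col_strict (by norm_num) ((mem_mu33 _ _).mpr (by norm_num))
  · exact T.col_strict (by norm_num) ((mem_mu33 _ _).mpr (by norm_num))
  · exact T.col_strict (by norm_num) ((mem_mu33 _ _).mpr (by norm_num))

theorem mem_mu222 (i j : ℕ) : (i, j) ∈ mu33.transpose ↔ j < 2 ∧ i < 3 := by
  rw [YoungDiagram.mem_transpose, Prod.swap_prod_mk, mem_mu33]

theorem en222_ineq (T : SemistandardYoungTableau mu33.transpose) :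
    T 0 0 < T 1 0 ∧ T 1 0 < T 2 0 ∧ T 0 1 < T 1 1 ∧ T 1 1 < T 2 1 ∧
    T 0 0 ≤ T 0 1 ∧ T 1 0 ≤ T 1 1 ∧ T 2 0 ≤ T 2 1 := by
  refine ⟨?_, ?_, ?_, ?_, ?_, ?_, ?_⟩
  · exact T.col_strict (by norm_num) ((mem_mu222 _ _).mpr (by norm_num))
  · exact T.col_strict (by norm_num) ((mem_mu222 _ _).mpr (by norm_num))
  · exact T.col_strict (by norm_num) ((mem_mu222 _ _).mpr (by norm_num))
  · exact T.col_strict (by norm_num) ((mem_mu222 _ _).mpr (by norm_num))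
  · exact T.row_weak (by norm_num) ((mem_mu222 _ _).mpr (by norm_num))
  · exact T.row_weak (by norm_num) ((mem_mu222 _ _).mpr (by norm_num))
  · exact T.row_weak (by norm_num) ((mem_mu222 _ _).mpr (by norm_num))

/-- Positions of the six cells in the five standard tableaux. -/
def pos : Fin 5 → Fin 6 → Fin 6 :=
  ![![0, 1, 2, 3, 4, 5], ![0, 1, 3, 2, 4, 5], ![0, 1, 4, 2, 3, 5], ![0, 2, 3, 1, 4, 5],
    ![0, 2, 4, 1, 3, 5]]

/-- The descent sets of the five standard tableaux of shape `(3, 3)`. -/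
def D33 : Fin 5 → Finset ℕ := ![{3}, {2, 4}, {2, 5}, {1, 4}, {1, 3, 5}]

/-- The descent sets of the five standard tableaux of shape `(2, 2, 2)`. -/
def D222 : Fin 5 → Finset ℕ := ![{1, 2, 4, 5}, {1, 3, 5}, {1, 3, 4}, {2, 3, 5}, {2, 4}]

theorem fund6 (D : Finset ℕ) (s : Fin 6 → ℕ) : IsFundSeq 6 D s ↔
    (s 0 ≤ s 1 ∧ s 1 ≤ s 2 ∧ s 2 ≤ s 3 ∧ s 3 ≤ s 4 ∧ s 4 ≤ s 5) ∧
    ((1 ∈ D → s 0 < s 1) ∧ (2 ∈ D → s 1 < s 2) ∧ (3 ∈ D → s 2 < s 3) ∧ (4 ∈ D → s 3 < s 4) ∧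
      (5 ∈ D → s 4 < s 5)) := by
  constructor
  · rintro ⟨h1, h2⟩
    refine ⟨⟨h1 (by decide), h1 (by decide), h1 (by decide), h1 (by decide), h1 (by decide)⟩,
      ?_, ?_, ?_, ?_, ?_⟩
    · exact h2 0 1 rfl
    · exact h2 1 2 rfl
    · exact h2 2 3 rfl
    · exact h2 3 4 rfl
    · exact h2 4 5 rfl
  · rintro ⟨⟨h1, h2, h3, h4, h5⟩, k1, k2, k3, k4, k5⟩
    constructor
    · rw [Fin.monotone_iff_le_succ]
      intro i
      fin_cases i
      · exact h1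
      · exact h2
      · exact h3
      · exact h4
      · exact h5
    · intro j k hjk hj
      fin_cases j
      · have : k = 1 := Fin.ext hjk
        rw [this]
        exact k1 hj
      · have : k = 2 := Fin.ext hjk
        rw [this]
        exact k2 hj
      · have : k = 3 := Fin.ext hjk
        rw [this]
        exact k3 hj
      · have : k = 4 := Fin.ext hjk
        rw [this]
        exact k4 hj
      · have : k = 5 := Fin.ext hjk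
        rw [this]
        exact k5 hj
      · have := k.2
        simp only at hjk
        omega

theorem ok33 (x : Fin 5) (s : Fin 6 → ℕ) (hs : IsFundSeq 6 (D33 x) s) :
    s (pos x 0) ≤ s (pos x 1) ∧ s (pos x 1) ≤ s (pos x 2) ∧ s (pos x 3) ≤ s (pos x 4) ∧
    s (pos x 4) ≤ s (pos x 5) ∧ s (pos x 0) < s (pos x 3) ∧ s (pos x 1) < s (pos x 4) ∧
    s (pos x 2) < s (pos x 5) := by
  rw [fund6] at hs
  obtain ⟨⟨h1, h2, h3, h4, h5⟩, k1, k2, k3, k4, k5⟩ := hs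
  fin_cases x
  · have c3 := k3 (by decide)
    change s 0 ≤ s 1 ∧ s 1 ≤ s 2 ∧ s 3 ≤ s 4 ∧ s 4 ≤ s 5 ∧ s 0 < s 3 ∧ s 1 < s 4 ∧ s 2 < s 5
    omega
  · have c3 := k2 (by decide)
    have c4 := k4 (by decide)
    change s 0 ≤ s 1 ∧ s 1 ≤ s 3 ∧ s 2 ≤ s 4 ∧ s 4 ≤ s 5 ∧ s 0 < s 2 ∧ s 1 < s 4 ∧ s 3 < s 5
    omega
  · have c3 := k2 (by decide)
    have c4 := k5 (by decide)
    change s 0 ≤ s 1 ∧ s 1 ≤ s 4 ∧ s 2 ≤ s 3 ∧ s 3 ≤ s 5 ∧ s 0 < s 2 ∧ s 1 < s 3 ∧ s 4 < s 5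
    omega
  · have c3 := k1 (by decide)
    have c4 := k4 (by decide)
    change s 0 ≤ s 2 ∧ s 2 ≤ s 3 ∧ s 1 ≤ s 4 ∧ s 4 ≤ s 5 ∧ s 0 < s 1 ∧ s 2 < s 4 ∧ s 3 < s 5
    omega
  · have c3 := k1 (by decide)
    have c4 := k3 (by decide)
    have c5 := k5 (by decide)
    change s 0 ≤ s 2 ∧ s 2 ≤ s 4 ∧ s 1 ≤ s 3 ∧ s 3 ≤ s 5 ∧ s 0 < s 1 ∧ s 2 < s 3 ∧ s 4 < s 5
    omega

theorem ok222 (x : Fin 5) (s : Fin 6 → ℕ) (hs : IsFundSeq 6 (D222 x) s) :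
    s (pos x 0) < s (pos x 1) ∧ s (pos x 1) < s (pos x 2) ∧ s (pos x 3) < s (pos x 4) ∧
    s (pos x 4) < s (pos x 5) ∧ s (pos x 0) ≤ s (pos x 3) ∧ s (pos x 1) ≤ s (pos x 4) ∧
    s (pos x 2) ≤ s (pos x 5) := by
  rw [fund6] at hs
  obtain ⟨⟨h1, h2, h3, h4, h5⟩, k1, k2, k3, k4, k5⟩ := hs
  fin_cases x
  · have c1 := k1 (by decide)
    have c2 := k2 (by decide)
    have c4 := k4 (by decide)
    have c5 := k5 (by decide)
    change s 0 < s 1 ∧ s 1 < s 2 ∧ s 3 < s 4 ∧ s 4 < s 5 ∧ s 0 ≤ s 3 ∧ s 1 ≤ s 4 ∧ s 2 ≤ s 5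
    omega
  · have c1 := k1 (by decide)
    have c3 := k3 (by decide)
    have c5 := k5 (by decide)
    change s 0 < s 1 ∧ s 1 < s 3 ∧ s 2 < s 4 ∧ s 4 < s 5 ∧ s 0 ≤ s 2 ∧ s 1 ≤ s 4 ∧ s 3 ≤ s 5
    omega
  · have c1 := k1 (by decide)
    have c3 := k3 (by decide)
    have c4 := k4 (by decide)
    change s 0 < s 1 ∧ s 1 < s 4 ∧ s 2 < s 3 ∧ s 3 < s 5 ∧ s 0 ≤ s 2 ∧ s 1 ≤ s 3 ∧ s 4 ≤ s 5
    omega
  · have c2 := k2 (by decide)
    have c3 := k3 (by decide)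
    have c5 := k5 (by decide)
    change s 0 < s 2 ∧ s 2 < s 3 ∧ s 1 < s 4 ∧ s 4 < s 5 ∧ s 0 ≤ s 1 ∧ s 2 ≤ s 4 ∧ s 3 ≤ s 5
    omega
  · have c2 := k2 (by decide)
    have c4 := k4 (by decide)
    change s 0 < s 2 ∧ s 2 < s 4 ∧ s 1 < s 3 ∧ s 3 < s 5 ∧ s 0 ≤ s 1 ∧ s 2 ≤ s 3 ∧ s 4 ≤ s 5
    omega

/-- The inverse tables. -/
def ipos : Fin 5 → Fin 6 → Fin 6 :=
  ![![0, 1, 2, 3, 4, 5], ![0, 1, 3, 2, 4, 5], ![0, 1, 3, 4, 2, 5], ![0, 3, 1, 2, 4, 5], ![0, 3, 1, 4, 2, 5]]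

theorem ipos_pos : ∀ (x : Fin 5) (c : Fin 6), ipos x (pos x c) = c := by decide

theorem pos_ipos : ∀ (x : Fin 5) (c : Fin 6), pos x (ipos x c) = c := by decide

/-- The standardization type of six entries of shape `(3, 3)`. -/
def cs33 (v : Fin 6 → ℕ) : Fin 5 :=
  if v 2 < v 3 then 0 else if v 1 < v 3 then (if v 2 < v 4 then 1 else 2) else
    (if v 2 < v 4 then 3 else 4)

/-- The standardization type of six entries of shape `(2, 2, 2)`. -/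
def cs222 (v : Fin 6 → ℕ) : Fin 5 :=
  if v 2 ≤ v 3 then 0 else if v 1 ≤ v 3 then (if v 2 ≤ v 4 then 1 else 2) else
    (if v 2 ≤ v 4 then 3 else 4)

theorem cs33_eq (x : Fin 5) (s : Fin 6 → ℕ) (hs : IsFundSeq 6 (D33 x) s) :
    cs33 (fun c => s (pos x c)) = x := by
  rw [fund6] at hs
  obtain ⟨⟨h1, h2, h3, h4, h5⟩, k1, k2, k3, k4, k5⟩ := hs
  fin_cases x
  · have c3 := k3 (by decide)
    change (if s 2 < s 3 then (0 : Fin 5) else if s 1 < s 3 then (if s 2 < s 4 then 1 else 2) else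
      (if s 2 < s 4 then 3 else 4)) = 0
    split_ifs <;> first | rfl | (exfalso; omega)
  · have c2 := k2 (by decide)
    have c4 := k4 (by decide)
    change (if s 3 < s 2 then (0 : Fin 5) else if s 1 < s 2 then (if s 3 < s 4 then 1 else 2) else
      (if s 3 < s 4 then 3 else 4)) = 1
    split_ifs <;> first | rfl | (exfalso; omega)
  · have c2 := k2 (by decide)
    have c5 := k5 (by decide)
    change (if s 4 < s 2 then (0 : Fin 5) else if s 1 < s 2 then (if s 4 < s 3 then 1 else 2) else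
      (if s 4 < s 3 then 3 else 4)) = 2
    split_ifs <;> first | rfl | (exfalso; omega)
  · have c1 := k1 (by decide)
    have c4 := k4 (by decide)
    change (if s 3 < s 1 then (0 : Fin 5) else if s 2 < s 1 then (if s 3 < s 4 then 1 else 2) else
      (if s 3 < s 4 then 3 else 4)) = 3
    split_ifs <;> first | rfl | (exfalso; omega)
  · have c1 := k1 (by decide)
    have c3 := k3 (by decide)
    have c5 := k5 (by decide)
    change (if s 4 < s 1 then (0 : Fin 5) else if s 2 < s 1 then (if s 4 < s 3 then 1 else 2) else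
      (if s 4 < s 3 then 3 else 4)) = 4
    split_ifs <;> first | rfl | (exfalso; omega)

theorem cs222_eq (x : Fin 5) (s : Fin 6 → ℕ) (hs : IsFundSeq 6 (D222 x) s) :
    cs222 (fun c => s (pos x c)) = x := by
  rw [fund6] at hs
  obtain ⟨⟨h1, h2, h3, h4, h5⟩, k1, k2, k3, k4, k5⟩ := hs
  fin_cases x
  · have c1 := k1 (by decide)
    have c2 := k2 (by decide)
    have c4 := k4 (by decide)
    have c5 := k5 (by decide)
    change (if s 2 ≤ s 3 then (0 : Fin 5) else if s 1 ≤ s 3 then (if s 2 ≤ s 4 then 1 else 2) else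
      (if s 2 ≤ s 4 then 3 else 4)) = 0
    split_ifs <;> first | rfl | (exfalso; omega)
  · have c1 := k1 (by decide)
    have c3 := k3 (by decide)
    have c5 := k5 (by decide)
    change (if s 3 ≤ s 2 then (0 : Fin 5) else if s 1 ≤ s 2 then (if s 3 ≤ s 4 then 1 else 2) else
      (if s 3 ≤ s 4 then 3 else 4)) = 1
    split_ifs <;> first | rfl | (exfalso; omega)
  · have c1 := k1 (by decide)
    have c3 := k3 (by decide)
    have c4 := k4 (by decide)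
    change (if s 4 ≤ s 2 then (0 : Fin 5) else if s 1 ≤ s 2 then (if s 4 ≤ s 3 then 1 else 2) else
      (if s 4 ≤ s 3 then 3 else 4)) = 2
    split_ifs <;> first | rfl | (exfalso; omega)
  · have c2 := k2 (by decide)
    have c3 := k3 (by decide)
    have c5 := k5 (by decide)
    change (if s 3 ≤ s 1 then (0 : Fin 5) else if s 2 ≤ s 1 then (if s 3 ≤ s 4 then 1 else 2) else
      (if s 3 ≤ s 4 then 3 else 4)) = 3
    split_ifs <;> first | rfl | (exfalso; omega)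
  · have c2 := k2 (by decide)
    have c4 := k4 (by decide)
    change (if s 4 ≤ s 1 then (0 : Fin 5) else if s 2 ≤ s 1 then (if s 4 ≤ s 3 then 1 else 2) else
      (if s 4 ≤ s 3 then 3 else 4)) = 4
    split_ifs <;> first | rfl | (exfalso; omega)

theorem fund33 (v : Fin 6 → ℕ) (h : v 0 ≤ v 1 ∧ v 1 ≤ v 2 ∧ v 3 ≤ v 4 ∧ v 4 ≤ v 5 ∧
    v 0 < v 3 ∧ v 1 < v 4 ∧ v 2 < v 5) :
    IsFundSeq 6 (D33 (cs33 v)) (fun i => v (ipos (cs33 v) i)) := by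
  obtain ⟨h1, h2, h3, h4, h5, h6, h7⟩ := h
  rw [fund6]
  unfold cs33
  split_ifs with c1 c2 c3 c4
  · change (v 0 ≤ v 1 ∧ v 1 ≤ v 2 ∧ v 2 ≤ v 3 ∧ v 3 ≤ v 4 ∧ v 4 ≤ v 5) ∧
      ((1 ∈ ({3} : Finset ℕ) → v 0 < v 1) ∧ (2 ∈ ({3} : Finset ℕ) → v 1 < v 2) ∧
      (3 ∈ ({3} : Finset ℕ) → v 2 < v 3) ∧ (4 ∈ ({3} : Finset ℕ) → v 3 < v 4) ∧
      (5 ∈ ({3} : Finset ℕ) → v 4 < v 5))
    refine ⟨⟨?_, ?_, ?_, ?_, ?_⟩, ?_, ?_, ?_, ?_, ?_⟩ <;>
      first | omega | (intro h; exfalso; revert h; decide)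
  · change (v 0 ≤ v 1 ∧ v 1 ≤ v 3 ∧ v 3 ≤ v 2 ∧ v 2 ≤ v 4 ∧ v 4 ≤ v 5) ∧
      ((1 ∈ ({2, 4} : Finset ℕ) → v 0 < v 1) ∧ (2 ∈ ({2, 4} : Finset ℕ) → v 1 < v 3) ∧
      (3 ∈ ({2, 4} : Finset ℕ) → v 3 < v 2) ∧ (4 ∈ ({2, 4} : Finset ℕ) → v 2 < v 4) ∧
      (5 ∈ ({2, 4} : Finset ℕ) → v 4 < v 5))
    refine ⟨⟨?_, ?_, ?_, ?_, ?_⟩, ?_, ?_, ?_, ?_, ?_⟩ <;>
      first | omega | (intro h; exfalso; revert h; decide)
  · change (v 0 ≤ v 1 ∧ v 1 ≤ v 3 ∧ v 3 ≤ v 4 ∧ v 4 ≤ v 2 ∧ v 2 ≤ v 5) ∧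
      ((1 ∈ ({2, 5} : Finset ℕ) → v 0 < v 1) ∧ (2 ∈ ({2, 5} : Finset ℕ) → v 1 < v 3) ∧
      (3 ∈ ({2, 5} : Finset ℕ) → v 3 < v 4) ∧ (4 ∈ ({2, 5} : Finset ℕ) → v 4 < v 2) ∧
      (5 ∈ ({2, 5} : Finset ℕ) → v 2 < v 5))
    refine ⟨⟨?_, ?_, ?_, ?_, ?_⟩, ?_, ?_, ?_, ?_, ?_⟩ <;>
      first | omega | (intro h; exfalso; revert h; decide)
  · change (v 0 ≤ v 3 ∧ v 3 ≤ v 1 ∧ v 1 ≤ v 2 ∧ v 2 ≤ v 4 ∧ v 4 ≤ v 5) ∧
      ((1 ∈ ({1, 4} : Finset ℕ) → v 0 < v 3) ∧ (2 ∈ ({1, 4} : Finset ℕ) → v 3 < v 1) ∧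
      (3 ∈ ({1, 4} : Finset ℕ) → v 1 < v 2) ∧ (4 ∈ ({1, 4} : Finset ℕ) → v 2 < v 4) ∧
      (5 ∈ ({1, 4} : Finset ℕ) → v 4 < v 5))
    refine ⟨⟨?_, ?_, ?_, ?_, ?_⟩, ?_, ?_, ?_, ?_, ?_⟩ <;>
      first | omega | (intro h; exfalso; revert h; decide)
  · change (v 0 ≤ v 3 ∧ v 3 ≤ v 1 ∧ v 1 ≤ v 4 ∧ v 4 ≤ v 2 ∧ v 2 ≤ v 5) ∧
      ((1 ∈ ({1, 3, 5} : Finset ℕ) → v 0 < v 3) ∧ (2 ∈ ({1, 3, 5} : Finset ℕ) → v 3 < v 1) ∧
      (3 ∈ ({1, 3, 5} : Finset ℕ) → v 1 < v 4) ∧ (4 ∈ ({1, 3, 5} : Finset ℕ) → v 4 < v 2) ∧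
      (5 ∈ ({1, 3, 5} : Finset ℕ) → v 2 < v 5))
    refine ⟨⟨?_, ?_, ?_, ?_, ?_⟩, ?_, ?_, ?_, ?_, ?_⟩ <;>
      first | omega | (intro h; exfalso; revert h; decide)

theorem fund222 (v : Fin 6 → ℕ) (h : v 0 < v 1 ∧ v 1 < v 2 ∧ v 3 < v 4 ∧ v 4 < v 5 ∧
    v 0 ≤ v 3 ∧ v 1 ≤ v 4 ∧ v 2 ≤ v 5) :
    IsFundSeq 6 (D222 (cs222 v)) (fun i => v (ipos (cs222 v) i)) := by
  obtain ⟨h1, h2, h3, h4, h5, h6, h7⟩ := h
  rw [fund6]
  unfold cs222
  split_ifs with c1 c2 c3 c4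
  · change (v 0 ≤ v 1 ∧ v 1 ≤ v 2 ∧ v 2 ≤ v 3 ∧ v 3 ≤ v 4 ∧ v 4 ≤ v 5) ∧
      ((1 ∈ ({1, 2, 4, 5} : Finset ℕ) → v 0 < v 1) ∧ (2 ∈ ({1, 2, 4, 5} : Finset ℕ) → v 1 < v 2) ∧
      (3 ∈ ({1, 2, 4, 5} : Finset ℕ) → v 2 < v 3) ∧ (4 ∈ ({1, 2, 4, 5} : Finset ℕ) → v 3 < v 4) ∧
      (5 ∈ ({1, 2, 4, 5} : Finset ℕ) → v 4 < v 5))
    refine ⟨⟨?_, ?_, ?_, ?_, ?_⟩, ?_, ?_, ?_, ?_, ?_⟩ <;>
      first | omega | (intro h; exfalso; revert h; decide)
  · change (v 0 ≤ v 1 ∧ v 1 ≤ v 3 ∧ v 3 ≤ v 2 ∧ v 2 ≤ v 4 ∧ v 4 ≤ v 5) ∧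
      ((1 ∈ ({1, 3, 5} : Finset ℕ) → v 0 < v 1) ∧ (2 ∈ ({1, 3, 5} : Finset ℕ) → v 1 < v 3) ∧
      (3 ∈ ({1, 3, 5} : Finset ℕ) → v 3 < v 2) ∧ (4 ∈ ({1, 3, 5} : Finset ℕ) → v 2 < v 4) ∧
      (5 ∈ ({1, 3, 5} : Finset ℕ) → v 4 < v 5))
    refine ⟨⟨?_, ?_, ?_, ?_, ?_⟩, ?_, ?_, ?_, ?_, ?_⟩ <;>
      first | omega | (intro h; exfalso; revert h; decide)
  · change (v 0 ≤ v 1 ∧ v 1 ≤ v 3 ∧ v 3 ≤ v 4 ∧ v 4 ≤ v 2 ∧ v 2 ≤ v 5) ∧
      ((1 ∈ ({1, 3, 4} : Finset ℕ) → v 0 < v 1) ∧ (2 ∈ ({1, 3, 4} : Finset ℕ) → v 1 < v 3) ∧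
      (3 ∈ ({1, 3, 4} : Finset ℕ) → v 3 < v 4) ∧ (4 ∈ ({1, 3, 4} : Finset ℕ) → v 4 < v 2) ∧
      (5 ∈ ({1, 3, 4} : Finset ℕ) → v 2 < v 5))
    refine ⟨⟨?_, ?_, ?_, ?_, ?_⟩, ?_, ?_, ?_, ?_, ?_⟩ <;>
      first | omega | (intro h; exfalso; revert h; decide)
  · change (v 0 ≤ v 3 ∧ v 3 ≤ v 1 ∧ v 1 ≤ v 2 ∧ v 2 ≤ v 4 ∧ v 4 ≤ v 5) ∧
      ((1 ∈ ({2, 3, 5} : Finset ℕ) → v 0 < v 3) ∧ (2 ∈ ({2, 3, 5} : Finset ℕ) → v 3 < v 1) ∧
      (3 ∈ ({2, 3, 5} : Finset ℕ) → v 1 < v 2) ∧ (4 ∈ ({2, 3, 5} : Finset ℕ) → v 2 < v 4) ∧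
      (5 ∈ ({2, 3, 5} : Finset ℕ) → v 4 < v 5))
    refine ⟨⟨?_, ?_, ?_, ?_, ?_⟩, ?_, ?_, ?_, ?_, ?_⟩ <;>
      first | omega | (intro h; exfalso; revert h; decide)
  · change (v 0 ≤ v 3 ∧ v 3 ≤ v 1 ∧ v 1 ≤ v 4 ∧ v 4 ≤ v 2 ∧ v 2 ≤ v 5) ∧
      ((1 ∈ ({2, 4} : Finset ℕ) → v 0 < v 3) ∧ (2 ∈ ({2, 4} : Finset ℕ) → v 3 < v 1) ∧
      (3 ∈ ({2, 4} : Finset ℕ) → v 1 < v 4) ∧ (4 ∈ ({2, 4} : Finset ℕ) → v 4 < v 2) ∧
      (5 ∈ ({2, 4} : Finset ℕ) → v 2 < v 5))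
    refine ⟨⟨?_, ?_, ?_, ?_, ?_⟩, ?_, ?_, ?_, ?_, ?_⟩ <;>
      first | omega | (intro h; exfalso; revert h; decide)

theorem sum_D33 : ∑ x, fundamental 6 (D33 x) = ∑ E ∈ E33, fundamental 6 E := by
  rw [Fin.sum_univ_five]
  unfold E33
  rw [Finset.sum_insert (by decide), Finset.sum_insert (by decide),
    Finset.sum_insert (by decide), Finset.sum_insert (by decide), Finset.sum_singleton,
    add_assoc, add_assoc, add_assoc]
  rfl

theorem sum_D222 : ∑ x, fundamental 6 (D222 x) = ∑ E ∈ E222, fundamental 6 E := by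
  rw [Fin.sum_univ_five]
  unfold E222
  rw [Finset.sum_insert (by decide), Finset.sum_insert (by decide),
    Finset.sum_insert (by decide), Finset.sum_insert (by decide), Finset.sum_singleton,
    add_assoc, add_assoc, add_assoc]
  rfl

theorem content6 (x : Fin 5) (s : Fin 6 → ℕ) : content s =
    ∑ c : Fin 6, Finsupp.single (s (pos x c)) 1 := by
  unfold content
  exact (Equiv.sum_comp (⟨pos x, ipos x, ipos_pos x, pos_ipos x⟩ : Fin 6 ≃ Fin 6)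
    (fun c => Finsupp.single (s c) 1)).symm

theorem schur_mu33 : schur mu33 = ∑ E ∈ E33, fundamental 6 E := by
  rw [← sum_D33]
  apply schur_eq mu33 6 D33 (fun y => mk33 (fun c => y.2.1 (pos y.1 c)) (ok33 y.1 y.2.1 y.2.2))
  · constructor
    · rintro ⟨x, s, hs⟩ ⟨x', s', hs'⟩ e
      have h1 := congrArg en33 e
      rw [en33_mk, en33_mk] at h1
      simp only at h1
      have h2 : x = x' := by
        rw [← cs33_eq x s hs, ← cs33_eq x' s' hs', h1]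
      subst h2
      have h3 : s = s' := by
        funext i
        have := congrFun h1 (ipos x i)
        simpa only [pos_ipos] using this
      subst h3
      rfl
    · intro T
      refine ⟨⟨cs33 (en33 T), _, fund33 (en33 T) (en33_ineq T)⟩, ?_⟩
      apply en33_inj
      rw [en33_mk]
      funext c
      simp only [ipos_pos]
  · rintro ⟨x, s, hs⟩
    unfold weight
    rw [sum_mu33, content6 x s, Fin.sum_univ_six]
    simp only [add_assoc]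
    rfl

theorem schur_mu33_tr : schur mu33.transpose = ∑ E ∈ E222, fundamental 6 E := by
  rw [← sum_D222]
  apply schur_eq mu33.transpose 6 D222
    (fun y => mk222 (fun c => y.2.1 (pos y.1 c)) (ok222 y.1 y.2.1 y.2.2))
  · constructor
    · rintro ⟨x, s, hs⟩ ⟨x', s', hs'⟩ e
      have h1 := congrArg en222 e
      rw [en222_mk, en222_mk] at h1
      simp only at h1
      have h2 : x = x' := by
        rw [← cs222_eq x s hs, ← cs222_eq x' s' hs', h1]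
      subst h2
      have h3 : s = s' := by
        funext i
        have := congrFun h1 (ipos x i)
        simpa only [pos_ipos] using this
      subst h3
      rfl
    · intro T
      refine ⟨⟨cs222 (en222 T), _, fund222 (en222 T) (en222_ineq T)⟩, ?_⟩
      apply en222_inj
      rw [en222_mk]
      funext c
      simp only [ipos_pos]
  · rintro ⟨x, s, hs⟩
    unfold weight
    rw [sum_mu33_tr, content6 x s, Fin.sum_univ_six]
    simp only [add_assoc]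
    rfl

end Q162SS
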