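import Pool.Agent.Q162.SymSet.Class

/-!
# Degree six
-/

namespace Q162SS

open Finset

theorem pair_of_card_two {ι : Type*} [Finite ι] (p : ι → Prop) (h : Nat.card {i // p i} = 2) :
    ∃ a b, a ≠ b ∧ p a ∧ p b ∧ ∀ i, p i → i = a ∨ i = b := by
  classical
  have hfin := Fintype.ofFinite {i // p i}
  have hcard : Fintype.card {i // p i} = 2 := by rw [← Nat.card_eq_fintype_card, h]
  obtain ⟨a, b, hab, huniv⟩ := Finset.card_eq_two.mp (show (univ : Finset {i // p i}).card = 2 by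
    rw [Finset.card_univ, hcard])
  refine ⟨a.1, b.1, fun e => hab (Subtype.ext e), a.2, b.2, fun i hi => ?_⟩
  have := mem_univ (⟨i, hi⟩ : {i // p i})
  rw [huniv, mem_insert, mem_singleton] at this
  rcases this with h1 | h1
  · left
    exact congrArg Subtype.val h1
  · right
    exact congrArg Subtype.val h1

theorem eq_of_mem5 (E F : Finset ℕ) (hE : E ⊆ Icc 1 5) (hF : F ⊆ Icc 1 5)
    (h1 : 1 ∈ E ↔ 1 ∈ F) (h2 : 2 ∈ E ↔ 2 ∈ F) (h3 : 3 ∈ E ↔ 3 ∈ F) (h4 : 4 ∈ E ↔ 4 ∈ F)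
    (h5 : 5 ∈ E ↔ 5 ∈ F) : E = F := by
  ext x
  constructor
  · intro hx
    have := hE hx
    rw [mem_Icc] at this
    obtain ⟨g1, g2⟩ := this
    interval_cases x
    · exact h1.mp hx
    · exact h2.mp hx
    · exact h3.mp hx
    · exact h4.mp hx
    · exact h5.mp hx
  · intro hx
    have := hF hx
    rw [mem_Icc] at this
    obtain ⟨g1, g2⟩ := this
    interval_cases x
    · exact h1.mpr hx
    · exact h2.mpr hx
    · exact h3.mpr hx
    · exact h4.mpr hx
    · exact h5.mpr hx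

theorem six {ι : Type*} [Finite ι] (A : ι → Finset ℕ) (hA : InRange 6 A) (e' e : ℕ)
    (hp : PairData 6 A 2 e' e) (hN : Nat.card ι ≤ 5)
    (a b : ι) (h1 : ∀ i, 1 ∈ A i ↔ i = a ∨ i = b)
    (ha3 : 3 ∉ A a) (ha4 : 4 ∈ A a) (ha5 : 5 ∉ A a)
    (hb3 : 3 ∈ A b) (hb4 : 4 ∉ A b) (hb5 : 5 ∈ A b)
    (c d : ι) (h5 : ∀ i, 5 ∈ A i ↔ i = c ∨ i = d)
    (hc1 : 1 ∉ A c) (hc2 : 2 ∈ A c) (hc3 : 3 ∉ A c)
    (_hd1 : 1 ∈ A d) (hd2 : 2 ∉ A d) (_hd3 : 3 ∈ A d) :
    Exact A E33 := by
  classical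
  have hbd : b = d := by
    rcases (h5 b).mp hb5 with h | h
    · rw [h] at hb3
      exact absurd hb3 hc3
    · exact h
  subst hbd
  have hb1 : 1 ∈ A b := (h1 b).mpr (Or.inr rfl)
  have ha1 : 1 ∈ A a := (h1 a).mpr (Or.inl rfl)
  have hc5 : 5 ∈ A c := (h5 c).mpr (Or.inl rfl)
  have he : e = 1 := by
    rw [← hp.non 1 3 le_rfl le_rfl (by norm_num)]
    apply card_one_of_exu _ b ⟨hb1, hb3⟩
    rintro j ⟨g1, g3⟩
    rcases (h1 j).mp g1 with h | h
    · rw [h] at g3
      exact absurd g3 ha3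
    · exact h
  subst he
  have hA2 : 2 ∉ A a := by
    intro ha2
    have he' : e' = 1 := by
      rw [← hp.adj 1 le_rfl (by norm_num)]
      apply card_one_of_exu _ a ⟨ha1, ha2⟩
      rintro j ⟨g1, g3⟩
      rcases (h1 j).mp g1 with h | h
      · exact h
      · rw [h] at g3
        exact absurd g3 hd2
    obtain ⟨i, ⟨g4, g5⟩, _⟩ := exu_of_card_one _ ((hp.adj 4 (by norm_num) (by norm_num)).trans he')
    norm_num at g5
    have hic : i = c := by
      rcases (h5 i).mp g5 with h | h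
      · exact h
      · rw [h] at g4
        exact absurd g4 hb4
    rw [hic] at g4
    obtain ⟨k, _, g8⟩ := exu_of_card_one _ (hp.non 2 4 (by norm_num) (by norm_num) (by norm_num))
    have e1 := g8 a ⟨ha2, ha4⟩
    have e2 := g8 c ⟨hc2, g4⟩
    rw [e1, ← e2] at ha1
    exact hc1 ha1
  have he' : e' = 0 := by
    rw [← hp.adj 1 le_rfl (by norm_num)]
    apply card_zero_of_not
    rintro i ⟨g1, g2⟩
    norm_num at g2
    rcases (h1 i).mp g1 with h | h
    · rw [h] at g2
      exact hA2 g2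
    · rw [h] at g2
      exact hd2 g2
  subst he'
  have hadj : ∀ x, 1 ≤ x → x + 1 ≤ 5 → ∀ i, x ∈ A i → x + 1 ∉ A i := by
    intro x hx1 hx2 i g1 g2
    exact not_of_card_zero _ (hp.adj x hx1 hx2) i ⟨g1, g2⟩
  have h45 : ∀ i, 4 ∈ A i → 5 ∉ A i := hadj 4 (by norm_num) (by norm_num)
  have h34 : ∀ i, 3 ∈ A i → 4 ∉ A i := hadj 3 (by norm_num) (by norm_num)
  have h23 : ∀ i, 2 ∈ A i → 3 ∉ A i := hadj 2 (by norm_num) (by norm_num)
  have h12 : ∀ i, 1 ∈ A i → 2 ∉ A i := hadj 1 (by norm_num) (by norm_num)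
  have hc4 : 4 ∉ A c := fun h => h45 c h hc5
  obtain ⟨m, ⟨hm2, hm4⟩, _⟩ :=
    exu_of_card_one _ (hp.non 2 4 (by norm_num) (by norm_num) (by norm_num))
  have hm1 : 1 ∉ A m := fun h => h12 m h hm2
  have hm3 : 3 ∉ A m := h23 m hm2
  have hm5 : 5 ∉ A m := h45 m hm4
  obtain ⟨p, q, hpq, hp3, hq3, _⟩ := pair_of_card_two _ (hp.one 3 (by norm_num) (by norm_num))
  have hk : ∃ k, k ≠ b ∧ 3 ∈ A k := by
    by_cases h : p = b
    · exact ⟨q, fun e => hpq (by rw [h, e]), hq3⟩
    · exact ⟨p, h, hp3⟩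
  obtain ⟨k, hkb, hk3⟩ := hk
  have hk1 : 1 ∉ A k := by
    intro h
    rcases (h1 k).mp h with g | g
    · rw [g] at hk3
      exact ha3 hk3
    · exact hkb g
  have hk5 : 5 ∉ A k := by
    intro h
    rcases (h5 k).mp h with g | g
    · rw [g] at hk3
      exact hc3 hk3
    · exact hkb g
  have hk2 : 2 ∉ A k := fun h => h23 k h hk3
  have hk4 : 4 ∉ A k := h34 k hk3
  have Aa : A a = {1, 4} := by
    apply eq_of_mem5 _ _ (hA a) (by decide) <;> simp [ha1, hA2, ha3, ha4, ha5]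
  have Ab : A b = {1, 3, 5} := by
    apply eq_of_mem5 _ _ (hA b) (by decide) <;> simp [hb1, hd2, hb3, hb4, hb5]
  have Ac : A c = {2, 5} := by
    apply eq_of_mem5 _ _ (hA c) (by decide) <;> simp [hc1, hc2, hc3, hc4, hc5]
  have Am : A m = {2, 4} := by
    apply eq_of_mem5 _ _ (hA m) (by decide) <;> simp [hm1, hm2, hm3, hm4, hm5]
  have Ak : A k = {3} := by
    apply eq_of_mem5 _ _ (hA k) (by decide) <;> simp [hk1, hk2, hk3, hk4, hk5]
  have hne : ∀ x y : ι, A x ≠ A y → x ≠ y := fun x y h e => h (by rw [e])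
  have hfin := Fintype.ofFinite ι
  have huniv : ({a, b, c, m, k} : Finset ι) = univ := by
    apply Finset.eq_univ_of_card
    have hle : ({a, b, c, m, k} : Finset ι).card ≤ Fintype.card ι := Finset.card_le_univ _
    have hcard : ({a, b, c, m, k} : Finset ι).card = 5 := by
      rw [Finset.card_insert_of_notMem, Finset.card_insert_of_notMem, Finset.card_insert_of_notMem,
        Finset.card_insert_of_notMem, Finset.card_singleton]
      · rw [mem_singleton]
        apply hne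
        rw [Am, Ak]
        decide
      · rw [mem_insert, mem_singleton, not_or]
        constructor
        · apply hne
          rw [Ac, Am]
          decide
        · apply hne
          rw [Ac, Ak]
          decide
      · rw [mem_insert, mem_insert, mem_singleton, not_or, not_or]
        refine ⟨?_, ?_, ?_⟩
        · apply hne
          rw [Ab, Ac]
          decide
        · apply hne
          rw [Ab, Am]
          decide
        · apply hne
          rw [Ab, Ak]
          decide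
      · rw [mem_insert, mem_insert, mem_insert, mem_singleton, not_or, not_or, not_or]
        refine ⟨?_, ?_, ?_, ?_⟩
        · apply hne
          rw [Aa, Ab]
          decide
        · apply hne
          rw [Aa, Ac]
          decide
        · apply hne
          rw [Aa, Am]
          decide
        · apply hne
          rw [Aa, Ak]
          decide
    rw [← Nat.card_eq_fintype_card] at hle ⊢
    omega
  have hall : ∀ i : ι, i = a ∨ i = b ∨ i = c ∨ i = m ∨ i = k := by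
    intro i
    have := mem_univ i
    rw [← huniv] at this
    simpa using this
  constructor
  · intro i j hij
    rcases hall i with rfl | rfl | rfl | rfl | rfl <;>
      rcases hall j with rfl | rfl | rfl | rfl | rfl <;>
      first
      | rfl
      | (exfalso
         simp only [Aa, Ab, Ac, Am, Ak] at hij
         revert hij
         decide)
  · intro E
    unfold E33
    simp only [mem_insert, mem_singleton]
    constructor
    · rintro ⟨i, rfl⟩
      rcases hall i with rfl | rfl | rfl | rfl | rfl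
      · rw [Aa]; simp
      · rw [Ab]; simp
      · rw [Ac]; simp
      · rw [Am]; simp
      · rw [Ak]; simp
    · rintro (rfl | rfl | rfl | rfl | rfl)
      · exact ⟨k, Ak⟩
      · exact ⟨m, Am⟩
      · exact ⟨c, Ac⟩
      · exact ⟨a, Aa⟩
      · exact ⟨b, Ab⟩

/-- Degree six when two members contain `1`. -/
theorem six_E {ι : Type*} [Finite ι] (D : ι → Finset ℕ) (hD : InRange 6 D) (h : SymData 6 D)
    (hnm : ¬ ∀ i, DE D i = ∅ ∨ DE D i = Icc 1 3) (hc : Nat.card {i // 1 ∈ D i} = 2)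
    (hN : Nat.card ι ≤ 5) : Exact D E33 := by
  obtain ⟨d, e', e, hp, _⟩ := pair_of_co 6 D _ _ _ (pair_co 6 D hD h) (by norm_num)
  have hd : d = 2 := by rw [← hp.one 1 le_rfl (by norm_num), hc]
  subst hd
  obtain ⟨a, b, _, hall, ⟨ha1, ha2, ha3⟩, ⟨hb1, hb2, hb3⟩⟩ :=
    four (DE D) (inRange_DE 6 D hD) (symData_DE 6 (by norm_num) D hD h) hnm hc
  have hDM := inRange_DM 6 D hD
  have hnm' : ¬ ∀ i, DE (DM 6 D) i = ∅ ∨ DE (DM 6 D) i = Icc 1 3 := by
    intro hcon
    apply hnm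
    rw [mono_iff 4 _ (inRange_DE 6 _ hDM)] at hcon
    rw [mono_iff 4 _ (inRange_DE 6 _ hD)]
    intro x h1 h2
    have := hcon x h1 h2
    rw [cnt_DE_DM 6 (by omega) D hD h _ (L1_pos _ _) (L1_sum _ _ h1 h2),
      cnt_DE_DM 6 (by omega) D hD h [4] (by intro b hb; simp at hb; omega) (by simp)] at this
    exact this
  have hc' : Nat.card {i // 1 ∈ DM 6 D i} = 2 := by
    rw [← hp.one 5 (by norm_num) (by norm_num)]
    apply Nat.card_congr
    apply Equiv.subtypeEquivRight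
    intro i
    rw [mem_DM 6 D hD]
    norm_num
  obtain ⟨c, d, _, hall', ⟨hc1, hc2, hc3⟩, ⟨hd1, hd2, hd3⟩⟩ :=
    four (DE (DM 6 D)) (inRange_DE 6 _ hDM) (symData_DE 6 (by norm_num) _ hDM
      (symData_DM 6 D hD h)) hnm' hc'
  unfold DE at ha1 ha2 ha3 hb1 hb2 hb3 hc1 hc2 hc3 hd1 hd2 hd3
  rw [mem_sh] at ha1 ha2 ha3 hb1 hb2 hb3 hc1 hc2 hc3 hd1 hd2 hd3
  rw [mem_DM 6 D hD] at hc1 hc2 hc3 hd1 hd2 hd3
  norm_num at ha1 ha2 ha3 hb1 hb2 hb3 hc1 hc2 hc3 hd1 hd2 hd3
  refine six D hD e' e hp hN a.1 b.1 ?_ ha1 ha2 ha3 hb1 hb2 hb3 c.1 d.1 ?_ hc3 hc2 hc1 hd3 hd2 hd1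
  · intro i
    constructor
    · intro hi
      rcases hall ⟨i, hi⟩ with g | g
      · exact Or.inl (congrArg Subtype.val g)
      · exact Or.inr (congrArg Subtype.val g)
    · rintro (rfl | rfl)
      · exact a.2
      · exact b.2
  · intro i
    have h5 : 1 ∈ DM 6 D i ↔ 5 ∈ D i := by
      rw [mem_DM 6 D hD]
      norm_num
    rw [← h5]
    constructor
    · intro hi
      rcases hall' ⟨i, hi⟩ with g | g
      · exact Or.inl (congrArg Subtype.val g)
      · exact Or.inr (congrArg Subtype.val g)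
    · rintro (rfl | rfl)
      · exact c.2
      · exact d.2

/-- Degree six when two members miss `1`. -/
theorem six_H {ι : Type*} [Finite ι] (D : ι → Finset ℕ) (hD : InRange 6 D) (h : SymData 6 D)
    (hnm : ¬ ∀ i, DH D i = ∅ ∨ DH D i = Icc 1 3) (hc : Nat.card {i // ¬ 1 ∈ D i} = 2)
    (hN : Nat.card ι ≤ 5) : Exact D E222 := by
  have hp := pair_co 6 D hD h
  generalize cnt D (2 :: List.replicate (6 - 2) 1) = d at hp
  generalize cnt D (3 :: List.replicate (6 - 3) 1) = e' at hp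
  generalize cnt D (2 :: 2 :: List.replicate (6 - 4) 1) = e at hp
  have hco1 : ∀ i, 1 ∈ co 6 (D i) ↔ ¬ 1 ∈ D i := by
    intro i
    rw [mem_co]
    norm_num
  have hco5 : ∀ i, 5 ∈ co 6 (D i) ↔ ¬ 5 ∈ D i := by
    intro i
    rw [mem_co]
    norm_num
  have hd : d = 2 := by
    rw [← hp.one 1 le_rfl (by norm_num), ← hc]
    apply Nat.card_congr
    apply Equiv.subtypeEquivRight
    exact hco1
  subst hd
  obtain ⟨a, b, _, hall, ⟨ha1, ha2, ha3⟩, ⟨hb1, hb2, hb3⟩⟩ :=
    four (DH D) (inRange_DH 6 D hD) (symData_DH 6 (by norm_num) D hD h) hnm hc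
  have hDM := inRange_DM 6 D hD
  have hnm' : ¬ ∀ i, DH (DM 6 D) i = ∅ ∨ DH (DM 6 D) i = Icc 1 3 := by
    intro hcon
    apply hnm
    rw [mono_iff 4 _ (inRange_DH 6 _ hDM)] at hcon
    rw [mono_iff 4 _ (inRange_DH 6 _ hD)]
    intro x h1 h2
    have := hcon x h1 h2
    rw [cnt_DH_DM 6 (by omega) D hD h _ (L1_pos _ _) (L1_sum _ _ h1 h2),
      cnt_DH_DM 6 (by omega) D hD h [4] (by intro b hb; simp at hb; omega) (by simp)] at this
    exact this
  have h5' : ∀ i, 1 ∈ DM 6 D i ↔ 5 ∈ D i := by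
    intro i
    rw [mem_DM 6 D hD]
    norm_num
  have hc' : Nat.card {i // ¬ 1 ∈ DM 6 D i} = 2 := by
    rw [← hp.one 5 (by norm_num) (by norm_num)]
    apply Nat.card_congr
    apply Equiv.subtypeEquivRight
    intro i
    rw [h5', hco5]
  obtain ⟨c, d, _, hall', ⟨hc1, hc2, hc3⟩, ⟨hd1, hd2, hd3⟩⟩ :=
    four (DH (DM 6 D)) (inRange_DH 6 _ hDM) (symData_DH 6 (by norm_num) _ hDM
      (symData_DM 6 D hD h)) hnm' hc'
  unfold DH at ha1 ha2 ha3 hb1 hb2 hb3 hc1 hc2 hc3 hd1 hd2 hd3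
  rw [mem_sh] at ha1 ha2 ha3 hb1 hb2 hb3 hc1 hc2 hc3 hd1 hd2 hd3
  rw [mem_DM 6 D hD] at hc1 hc2 hc3 hd1 hd2 hd3
  norm_num at ha1 ha2 ha3 hb1 hb2 hb3 hc1 hc2 hc3 hd1 hd2 hd3
  have hex : Exact (fun i => co 6 (D i)) E33 := by
    refine six _ (inRange_co 6 D) e' e hp hN b.1 a.1 ?_ ?_ ?_ ?_ ?_ ?_ ?_ d.1 c.1 ?_ ?_ ?_ ?_ ?_ ?_ ?_
    · intro i
      rw [hco1]
      constructor
      · intro hi
        rcases hall ⟨i, hi⟩ with g | g
        · exact Or.inr (congrArg Subtype.val g)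
        · exact Or.inl (congrArg Subtype.val g)
      · rintro (rfl | rfl)
        · exact b.2
        · exact a.2
    all_goals try (rw [mem_co]; norm_num; assumption)
    · intro i
      rw [hco5, ← h5']
      constructor
      · intro hi
        rcases hall' ⟨i, hi⟩ with g | g
        · exact Or.inr (congrArg Subtype.val g)
        · exact Or.inl (congrArg Subtype.val g)
      · rintro (rfl | rfl)
        · exact d.2
        · exact c.2
  have h2 := exact_co 6 D hD E33 (by decide) hex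
  have h3 : E33.image (co 6) = E222 := by decide
  rw [h3] at h2
  exact h2

end Q162SS
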